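import Pool.Agent.Work.MP_6197f9_h99.GenCrit2

/-!
# Quandles of symplectic transformations
-/

namespace Pool.SubrackLattice

noncomputable section

open scoped Classical

variable {F V : Type*} [Field F] [AddCommGroup V] [Module F V]

/-- the map `x ↦ x + f(x,u) v + f(x,v) u + c f(x,v) v` -/
def sL (f : LinearMap.BilinForm F V) (v u : V) (c : F) : V →ₗ[F] V :=
  LinearMap.id + (f.flip u).smulRight v + (f.flip v).smulRight u + c • (f.flip v).smulRight v

lemma sL_apply (f : LinearMap.BilinForm F V) (v u : V) (c : F) (x : V) :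
    sL f v u c x = x + f x u • v + f x v • u + c • f x v • v := rfl

lemma sL_comp {f : LinearMap.BilinForm F V} (hf : ∀ x, f x x = 0) {v u u' : V} (c c' : F)
    (hu' : f u' v = 0) (hvu : f v u = 0) (x : V) :
    sL f v u c (sL f v u' c' x) = sL f v (u + u') (c + c' + f u' u) x := by
  simp only [sL_apply, map_add, map_smul, LinearMap.add_apply, LinearMap.smul_apply, hu', hvu,
    hf v, smul_eq_mul, mul_zero, add_zero, smul_add, add_smul, mul_smul, zero_smul, smul_zero]
  rw [smul_comm (f x v) (f u' u) v]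
  abel

lemma sL_zero (f : LinearMap.BilinForm F V) (v : V) (x : V) : sL f v 0 0 x = x := by
  simp [sL_apply]

/-- the corresponding automorphism -/
def sE {f : LinearMap.BilinForm F V} (hf : ∀ x, f x x = 0) (v u : V) (c : F) (huv : f u v = 0)
    (hvu : f v u = 0) : V ≃ₗ[F] V :=
  LinearEquiv.ofLinear (sL f v u c) (sL f v (-u) (-c))
    (by
      ext x
      show sL f v u c (sL f v (-u) (-c) x) = x
      rw [sL_comp hf _ _ (by rw [map_neg, LinearMap.neg_apply, huv, neg_zero]) hvu, map_neg,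
        LinearMap.neg_apply, hf, neg_zero, add_zero, add_neg_cancel, add_neg_cancel, sL_zero])
    (by
      ext x
      show sL f v (-u) (-c) (sL f v u c x) = x
      rw [sL_comp hf _ _ huv (by rw [map_neg, hvu, neg_zero]), map_neg,
        hf, neg_zero, add_zero, neg_add_cancel, neg_add_cancel, sL_zero])

lemma sE_apply {f : LinearMap.BilinForm F V} (hf : ∀ x, f x x = 0) (v u : V) (c : F)
    (huv : f u v = 0) (hvu : f v u = 0) (x : V) :
    sE hf v u c huv hvu x = x + f x u • v + f x v • u + c • f x v • v := rfl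

lemma alt_neg {f : LinearMap.BilinForm F V} (hf : ∀ x, f x x = 0) (x y : V) :
    f x y = - f y x := by
  have h := hf (x + y)
  simp only [map_add, LinearMap.add_apply, hf, zero_add, add_zero] at h
  exact eq_neg_of_add_eq_zero_right h

lemma alt_zero {f : LinearMap.BilinForm F V} (hf : ∀ x, f x x = 0) {x y : V} (h : f x y = 0) :
    f y x = 0 := by
  rw [alt_neg hf, h, neg_zero]

/-- the transvection `x ↦ x + a f(x,w) w` -/
def tvS {f : LinearMap.BilinForm F V} (hf : ∀ x, f x x = 0) (a : F) (w : V) : V ≃ₗ[F] V :=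
  sE hf w 0 a (by simp) (by simp)

lemma tvS_apply {f : LinearMap.BilinForm F V} (hf : ∀ x, f x x = 0) (a : F) (w x : V) :
    tvS hf a w x = x + a • f x w • w := by
  unfold tvS
  rw [sE_apply]
  simp

/-- the group generated by the transvections of `f`: the symplectic group -/
def SpT {f : LinearMap.BilinForm F V} (hf : ∀ x, f x x = 0) : Subgroup (V ≃ₗ[F] V) :=
  Subgroup.closure {g | ∃ a w, g = tvS hf a w}

/-- the isometries -/
def Iso (f : LinearMap.BilinForm F V) : Subgroup (V ≃ₗ[F] V) where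
  carrier := {g | ∀ x y, f (g x) (g y) = f x y}
  one_mem' := fun _ _ => rfl
  mul_mem' := by
    intro g h hg hh x y
    show f (g (h x)) (g (h y)) = f x y
    rw [hg, hh]
  inv_mem' := by
    intro g hg x y
    have h1 := hg (g⁻¹ x) (g⁻¹ y)
    have e : ∀ z, g (g⁻¹ z) = z := fun z => g.apply_symm_apply z
    rw [e, e] at h1
    exact h1.symm

lemma spT_le {f : LinearMap.BilinForm F V} (hf : ∀ x, f x x = 0) : SpT hf ≤ Iso f := by
  unfold SpT
  rw [Subgroup.closure_le]
  rintro _ ⟨a, w, rfl⟩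
  intro x y
  rw [tvS_apply, tvS_apply]
  simp only [map_add, map_smul, LinearMap.add_apply, LinearMap.smul_apply, hf w, smul_eq_mul,
    mul_zero, add_zero]
  rw [alt_neg hf w y]
  ring

/-- `v` and `u` orthogonal: a product of three transvections -/
lemma sE_mem {f : LinearMap.BilinForm F V} (hf : ∀ x, f x x = 0) (v u : V) (c : F)
    (huv : f u v = 0) (hvu : f v u = 0) : sE hf v u c huv hvu ∈ SpT hf := by
  have h1 : sE hf v u c huv hvu = tvS hf 1 (u + v) * tvS hf (-1) u * tvS hf (c - 1) v := by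
    ext x
    show _ = tvS hf 1 (u + v) (tvS hf (-1) u (tvS hf (c - 1) v x))
    rw [sE_apply, tvS_apply, tvS_apply, tvS_apply]
    simp only [map_add, map_smul, map_neg, map_sub, LinearMap.add_apply, LinearMap.smul_apply,
      LinearMap.neg_apply, LinearMap.sub_apply, hf v, hf u, huv, hvu,
      smul_eq_mul, mul_zero, add_zero, smul_add, add_smul, sub_smul, one_smul, neg_smul, zero_smul,
      smul_zero, neg_zero, sub_zero]
    abel
  rw [h1]
  have h2 : ∀ a w, tvS hf a w ∈ SpT hf := fun a w => Subgroup.subset_closure ⟨a, w, rfl⟩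
  exact Subgroup.mul_mem _ (Subgroup.mul_mem _ (h2 _ _) (h2 _ _)) (h2 _ _)

/-- the unipotent radical of the stabiliser of `v` -/
def UV {f : LinearMap.BilinForm F V} (hf : ∀ x, f x x = 0) (v : V) : Subgroup (V ≃ₗ[F] V) where
  carrier := {g | ∃ u c huv hvu, g = sE hf v u c huv hvu}
  one_mem' := ⟨0, 0, by simp, by simp, by ext x; rw [sE_apply]; simp⟩
  mul_mem' := by
    rintro _ _ ⟨u, c, h1, h2, rfl⟩ ⟨u', c', h1', h2', rfl⟩
    refine ⟨u + u', c + c' + f u' u, by rw [map_add, LinearMap.add_apply, h1, h1', add_zero],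
      by rw [map_add, h2, h2', add_zero], ?_⟩
    ext x
    exact sL_comp hf c c' h1' h2 x
  inv_mem' := by
    rintro _ ⟨u, c, h1, h2, rfl⟩
    refine ⟨-u, -c, by rw [map_neg, LinearMap.neg_apply, h1, neg_zero],
      by rw [map_neg, h2, neg_zero], ?_⟩
    ext x
    rfl

lemma sE_pow {f : LinearMap.BilinForm F V} (hf : ∀ x, f x x = 0) (v u : V) (c : F)
    (huv : f u v = 0) (hvu : f v u = 0) (k : ℕ) (x : V) :
    (sE hf v u c huv hvu ^ k) x = sL f v ((k : F) • u) ((k : F) * c) x := by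
  induction k generalizing x with
  | zero => simp [sL_apply]
  | succ k ih =>
    rw [pow_succ]
    show (sE hf v u c huv hvu ^ k) (sL f v u c x) = _
    rw [ih, sL_comp hf _ _ huv (by rw [map_smul, hvu, smul_zero]), map_smul, hf, smul_zero,
      add_zero, Nat.cast_succ, add_smul, one_smul, add_mul, one_mul]

lemma uv_group {p : ℕ} [CharP F p] {f : LinearMap.BilinForm F V} (hf : ∀ x, f x x = 0) (v : V) :
    IsPGroup p (UV hf v) := by
  rintro ⟨_, u, c, h1, h2, rfl⟩
  refine ⟨1, Subtype.ext ?_⟩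
  show (sE hf v u c h1 h2) ^ p ^ 1 = 1
  ext x
  rw [pow_one, sE_pow, CharP.cast_eq_zero, zero_smul, zero_mul, sL_zero]
  rfl

/-- overgroups -/
theorem core_symp {f : LinearMap.BilinForm F V} (hf : ∀ x, f x x = 0)
    (hnd : ∀ x, x ≠ 0 → ∃ y, f x y ≠ 0) {v : V} (hv : v ≠ 0) (K : Subgroup (V ≃ₗ[F] V))
    (hK : K ≤ Iso f) (hUK : UV hf v ≤ K)
    (hiso : ∀ W : Submodule F V, (∀ g ∈ K, ∀ w ∈ W, g w ∈ W) → (∀ x ∈ W, ∀ y ∈ W, f x y = 0) →
      W = ⊥) (a : F) (w : V) : tvS hf a w ∈ K := by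
  have hcj : ∀ (g : V ≃ₗ[F] V), g ∈ K → ∀ (a : F) (w : V), tvS hf a w ∈ K → tvS hf a (g w) ∈ K := by
    intro g hg a w h
    have h1 : tvS hf a (g w) = g * tvS hf a w * g⁻¹ := by
      ext x
      show _ = g (tvS hf a w (g⁻¹ x))
      have e : g (g⁻¹ x) = x := g.apply_symm_apply x
      have h2 : f x (g w) = f (g⁻¹ x) w := by
        have h3 := hK hg (g⁻¹ x) w
        rw [e] at h3
        exact h3
      rw [tvS_apply, tvS_apply, map_add, map_smul, map_smul, e, h2]
    rw [h1]
    exact K.mul_mem (K.mul_mem hg h) (K.inv_mem hg)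
  have hv0 : ∀ a, tvS hf a v ∈ K := fun a => hUK ⟨0, a, by simp, by simp, rfl⟩
  have hsc : ∀ (l : F), l ≠ 0 → ∀ w, (∀ a, tvS hf a w ∈ K) → ∀ a, tvS hf a (l • w) ∈ K := by
    intro l hl w h a
    have h1 : tvS hf a (l • w) = tvS hf (a * l * l) w := by
      ext x
      rw [tvS_apply, tvS_apply, map_smul, smul_eq_mul]
      simp only [smul_smul]
      congr 2
      ring
    rw [h1]
    exact h _
  -- a conjugate of `v` which is not orthogonal to `v`
  obtain ⟨κ, hκ, hne⟩ : ∃ κ ∈ K, f (κ v) v ≠ 0 := by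
    by_contra hcon
    push Not at hcon
    have h1 := hiso (Submodule.span F {x | ∃ g ∈ K, x = g v}) (by
      intro g hg w hw
      have h2 : Submodule.span F {x | ∃ g ∈ K, x = g v} ≤
          (Submodule.span F {x | ∃ g ∈ K, x = g v}).comap (g : V →ₗ[F] V) := by
        rw [Submodule.span_le]
        rintro _ ⟨h, hh, rfl⟩
        exact Submodule.subset_span ⟨g * h, K.mul_mem hg hh, rfl⟩
      exact h2 hw) (by
      have h3 : ∀ g ∈ K, ∀ h ∈ K, f (g v) (h v) = 0 := by
        intro g hg h hh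
        have h4 := hK (K.inv_mem hh) (g v) (h v)
        have e : h⁻¹ (h v) = v := h.symm_apply_apply v
        rw [e] at h4
        rw [← h4]
        exact hcon (h⁻¹ * g) (K.mul_mem (K.inv_mem hh) hg)
      intro x hx y hy
      have h5 : Submodule.span F {x | ∃ g ∈ K, x = g v} ≤ LinearMap.ker (f.flip y) := by
        rw [Submodule.span_le]
        rintro _ ⟨g, hg, rfl⟩
        have h6 : Submodule.span F {x | ∃ g ∈ K, x = g v} ≤ LinearMap.ker (f (g v)) := by
          rw [Submodule.span_le]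
          rintro _ ⟨h, hh, rfl⟩
          exact h3 g hg h hh
        exact h6 hy
      exact h5 hx)
    have h2 : v ∈ Submodule.span F {x | ∃ g ∈ K, x = g v} :=
      Submodule.subset_span ⟨1, K.one_mem, rfl⟩
    rw [h1, Submodule.mem_bot] at h2
    exact hv h2
  -- vectors which are not orthogonal to `v`
  have h3 : ∀ x, f x v ≠ 0 → ∃ g ∈ K, ∃ l : F, l ≠ 0 ∧ x = l • g v := by
    intro x hx
    set α := f (κ v) v with hα
    set β := f x v with hβ
    let x' := (α * β⁻¹) • x
    have hx' : f x' v = α := by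
      show f ((α * β⁻¹) • x) v = α
      rw [map_smul, LinearMap.smul_apply, ← hβ, smul_eq_mul, mul_assoc, inv_mul_cancel₀ hx,
        mul_one]
    let u := α⁻¹ • (x' - κ v)
    have hu : f u v = 0 := by
      show f (α⁻¹ • (x' - κ v)) v = 0
      rw [map_smul, LinearMap.smul_apply, map_sub, LinearMap.sub_apply, hx', ← hα, sub_self,
        smul_zero]
    let p := sE hf v u (-(f (κ v) u) * α⁻¹) hu (alt_zero hf hu)
    have hp : p ∈ K := hUK ⟨u, _, hu, alt_zero hf hu, rfl⟩
    refine ⟨p * κ, K.mul_mem hp hκ, (α * β⁻¹)⁻¹, inv_ne_zero (mul_ne_zero hne (inv_ne_zero hx)), ?_⟩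
    have h4 : (p * κ) v = x' := by
      show sE hf v u (-(f (κ v) u) * α⁻¹) hu (alt_zero hf hu) (κ v) = x'
      rw [sE_apply, ← hα]
      have h5 : α • u = x' - κ v := by
        show α • α⁻¹ • (x' - κ v) = x' - κ v
        rw [smul_smul, mul_inv_cancel₀ hne, one_smul]
      rw [h5, smul_smul, mul_assoc, inv_mul_cancel₀ hne, mul_one, neg_smul]
      abel
    rw [h4]
    show x = (α * β⁻¹)⁻¹ • (α * β⁻¹) • x
    rw [smul_smul, inv_mul_cancel₀ (mul_ne_zero hne (inv_ne_zero hx)), one_smul]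
  have h4 : ∀ x, f x v ≠ 0 → ∀ a, tvS hf a x ∈ K := by
    intro x hx
    obtain ⟨g, hg, l, hl, rfl⟩ := h3 x hx
    exact hsc l hl _ (fun a => hcj g hg a v (hv0 a))
  by_cases hw0 : w = 0
  · have : tvS hf a w = 1 := by
      ext x
      rw [tvS_apply, hw0]
      simp
    rw [this]
    exact K.one_mem
  by_cases hwv : f w v = 0
  · -- a vector `y` which is orthogonal neither to `v` nor to `w`
    obtain ⟨y, hy1, hy2⟩ : ∃ y, f y v ≠ 0 ∧ f w y ≠ 0 := by
      obtain ⟨y1, hy1⟩ := hnd v hv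
      obtain ⟨y2, hy2⟩ := hnd w hw0
      have hy1' : f y1 v ≠ 0 := fun h => hy1 (alt_zero hf h)
      by_cases h5 : f w y1 = 0
      · by_cases h6 : f y2 v = 0
        · refine ⟨y1 + y2, ?_, ?_⟩
          · rw [map_add, LinearMap.add_apply, h6, add_zero]; exact hy1'
          · rw [map_add, h5, zero_add]; exact hy2
        · exact ⟨y2, h6, hy2⟩
      · exact ⟨y1, hy1', h5⟩
    obtain ⟨g, hg, l, hl, hyl⟩ := h3 y hy1
    have h7 : f (g⁻¹ w) v ≠ 0 := by
      intro h8
      apply hy2
      have h9 := hK (K.inv_mem hg) w (g v)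
      have e : g⁻¹ (g v) = v := g.symm_apply_apply v
      rw [e, h8] at h9
      rw [hyl, map_smul, ← h9, smul_zero]
    have h8 := hcj g hg a _ (h4 _ h7 a)
    have e : g (g⁻¹ w) = w := g.apply_symm_apply w
    rwa [e] at h8
  · exact h4 w hwv a

/-- `c` has no nonzero invariant subspace on which `f` vanishes -/
def NoIsotropic (f : LinearMap.BilinForm F V) (c : V ≃ₗ[F] V) : Prop :=
  ∀ W : Submodule F V, (∀ w ∈ W, c w ∈ W) → (∀ x ∈ W, ∀ y ∈ W, f x y = 0) → W = ⊥

/-- quandles of symplectic transformations -/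
theorem symp_quandle [Finite F] [Finite V] {f : LinearMap.BilinForm F V} (hf : ∀ x, f x x = 0)
    (hnd : ∀ x, x ≠ 0 → ∃ y, f x y ≠ 0) (C : Set (Quandle.Conj (V ≃ₗ[F] V)))
    (hC : IsSubrack C) (hG : Subgroup.closure (C : Set (V ≃ₗ[F] V)) = SpT hf)
    (hc : ∃ c ∈ C, ∀ W : Submodule F V, (∀ w ∈ W, (c : V ≃ₗ[F] V) w ∈ W) →
      (∀ x ∈ W, ∀ y ∈ W, f x y = 0) → W = ⊥) (hV : Nontrivial V) :
    ¬ Acyclic (properSubracks C) := by
  obtain ⟨p, hp⟩ := CharP.exists F
  have hpp : p.Prime := CharP.char_is_prime F p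
  obtain ⟨v, hv⟩ := exists_ne (0 : V)
  have hfin : Finite (V ≃ₗ[F] V) :=
    Finite.of_injective (fun g : V ≃ₗ[F] V => (g : V → V)) DFunLike.coe_injective
  refine gen_crit2 (E := V ≃ₗ[F] V) C hC _ rfl p hpp (UV hf v) (uv_group hf v) ?_ 1
    (Subgroup.one_mem _) (fun x hx => by rwa [one_mul, inv_one, mul_one]) ?_
  · rw [hG]
    rintro _ ⟨u, c, h1, h2, rfl⟩
    exact sE_mem hf v u c h1 h2
  · intro K hUK _ hm x hx
    have hcl : ∀ x ∈ C, (x : V ≃ₗ[F] V) ∈ SpT hf := by
      intro x hx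
      rw [← hG]
      exact Subgroup.subset_closure hx
    have hUG : UV hf v ≤ SpT hf := by
      rintro _ ⟨u, c, h1, h2, rfl⟩
      exact sE_mem hf v u c h1 h2
    obtain ⟨c, hcC, hci⟩ := hc
    obtain ⟨y, hyG, hy⟩ := hm c hcC
    rw [hG] at hyG
    have hycy : y * c * y⁻¹ ∈ K ⊓ SpT hf := ⟨hy, Subgroup.mul_mem _
      (Subgroup.mul_mem _ hyG (hcl c hcC)) (Subgroup.inv_mem _ hyG)⟩
    have hall := core_symp hf hnd hv (K ⊓ SpT hf) (inf_le_right.trans (spT_le hf))
      (le_inf hUK hUG) (by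
        intro W hW hWi
        have h1 := hci (W.comap (y : V →ₗ[F] V)) (by
          intro w hw
          have h2 := hW _ hycy _ hw
          have e : y⁻¹ (y w) = w := y.symm_apply_apply w
          show y (c w) ∈ W
          have h3 : (y * c * y⁻¹) ((y : V →ₗ[F] V) w) = y (c w) := by
            show y (c (y⁻¹ (y w))) = y (c w)
            rw [e]
          rw [h3] at h2
          exact h2) (by
          intro a ha b hb
          have h2 := hWi _ ha _ hb
          have h3 := spT_le hf hyG a b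
          rw [← h3]
          exact h2)
        rw [eq_bot_iff]
        intro w hw
        have h2 : y⁻¹ w ∈ W.comap (y : V →ₗ[F] V) := by
          show y (y⁻¹ w) ∈ W
          have e : y (y⁻¹ w) = w := y.apply_symm_apply w
          rw [e]; exact hw
        rw [h1, Submodule.mem_bot] at h2
        have e : y (y⁻¹ w) = w := y.apply_symm_apply w
        rw [Submodule.mem_bot, ← e, h2, map_zero])
    have hle : SpT hf ≤ K := by
      unfold SpT
      rw [Subgroup.closure_le]
      rintro _ ⟨a, w, rfl⟩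
      exact (hall a w).1
    exact hle (hcl x hx)

end

end Pool.SubrackLattice
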