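import Pool.Agent.Work.MP_6197f9_h99.PermInv2

/-!
# Quandles of permutations with an element without invariant subset of size `k`
-/

namespace Pool.SubrackLattice

noncomputable section

open scoped Classical Pointwise
open Equiv Equiv.Perm

/-- the permutation `c` has no invariant subset of size `k` -/
def NoInvariantSet {n : ℕ} (k : ℕ) (c : Perm (Fin n)) : Prop :=
  ∀ S : Set (Fin n), (∀ x ∈ S, c x ∈ S) → S.ncard ≠ k

lemma noInv_compl {n k : ℕ} (hkn : k < n) {c : Perm (Fin n)} (h : NoInvariantSet k c) :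
    NoInvariantSet (n - k) c := by
  intro S hS hcard
  apply h Sᶜ
  · intro x hx hcx
    apply hx
    have h1 : Function.Injective (fun v : S => (⟨c v.1, hS v.1 v.2⟩ : S)) := by
      intro a b hab
      apply Subtype.ext
      exact c.injective (congrArg Subtype.val hab)
    obtain ⟨v, hv⟩ := Finite.surjective_of_injective h1 ⟨c x, hcx⟩
    have h2 : c v.1 = c x := congrArg Subtype.val hv
    rw [← c.injective h2]
    exact v.2
  · rw [Set.ncard_compl, hcard, Nat.card_eq_fintype_card, Fintype.card_fin]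
    omega

/-- the transport of permutations -/
def tp {k m n : ℕ} (e : XX3 k m ≃ Fin n) : Perm (XX3 k m) →* Perm (Fin n) where
  toFun σ := e.permCongr σ
  map_one' := by ext x; simp [Equiv.permCongr_apply]
  map_mul' σ τ := by ext x; simp [Equiv.permCongr_apply]

lemma tp_apply {k m n : ℕ} (e : XX3 k m ≃ Fin n) (σ : Perm (XX3 k m)) (x : XX3 k m) :
    tp e σ (e x) = e (σ x) := by
  show e.permCongr σ (e x) = e (σ x)
  rw [Equiv.permCongr_apply, Equiv.symm_apply_apply]

lemma tp_surj {k m n : ℕ} (e : XX3 k m ≃ Fin n) : Function.Surjective (tp e) := by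
  intro σ
  exact ⟨e.permCongr.symm σ, e.permCongr.apply_symm_apply σ⟩

lemma tp_sign {k m n : ℕ} (e : XX3 k m ≃ Fin n) (σ : Perm (XX3 k m)) :
    sign (tp e σ) = sign σ := sign_permCongr e σ

theorem perm_inv_aux {n k : ℕ} (hk : 1 ≤ k) (hkn : k < n) (hco : Nat.Coprime k n)
    (h3 : 3 ∣ n - k) (C : Set (Quandle.Conj (Perm (Fin n)))) (hC : IsSubrack C)
    (halt : alternatingGroup (Fin n) ≤ Subgroup.closure (C : Set (Perm (Fin n))))
    (hc : ∃ c ∈ C, NoInvariantSet (n := n) k c) : ¬ Acyclic (properSubracks C) := by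
  obtain ⟨m, hm⟩ := h3
  have hk0 : NeZero k := ⟨by omega⟩
  have hm0 : NeZero m := ⟨by rintro rfl; omega⟩
  have hn : n = k + 3 * m := by omega
  have hco' : k.Coprime (3 * m) := by
    rw [hn] at hco
    rwa [Nat.coprime_self_add_right] at hco
  let e : XX3 k m ≃ Fin n := Fintype.equivOfCardEq (by
    rw [Fintype.card_sum, Fintype.card_prod, Fintype.card_fin, Fintype.card_fin, Fintype.card_fin,
      ZMod.card]
    omega)
  obtain ⟨u, hu⟩ := gg_sign (k := k) (m := m)
  have hrs : ∀ x ∈ P3 k m, sign x = 1 := by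
    intro x hx
    have h1 : x ^ 3 = 1 := by
      obtain ⟨v, rfl⟩ := hx
      rw [rho_pow]
      have h : (3 : ℕ) • v = 0 := by
        funext j
        rw [Pi.smul_apply, nsmul_eq_mul, Pi.zero_apply, show ((3 : ℕ) : ZMod 3) = 0 from rfl,
          zero_mul]
      rw [h]
      ext x
      rcases x with a | ⟨j, x⟩
      · rfl
      · rw [rho_inr, Pi.zero_apply, add_zero]; rfl
    have h2 := congrArg sign h1
    rw [map_pow, map_one] at h2
    rcases Int.units_eq_one_or (sign x) with h | h
    · exact h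
    · rw [h] at h2
      exact absurd h2 (by decide)
  refine gen_crit2 (E := Perm (Fin n)) C hC _ rfl 3 Nat.prime_three ((P3 k m).map (tp e))
    (p3_group.map _) ?_ (tp e (gg u)) ?_ ?_ ?_
  · rintro _ ⟨x, hx, rfl⟩
    apply halt
    rw [mem_alternatingGroup, tp_sign, hrs x hx]
  · apply halt
    rw [mem_alternatingGroup, tp_sign, hu]
  · rintro _ ⟨x, hx, rfl⟩
    exact ⟨gg u * x * (gg u)⁻¹, gg_norm u x hx, by rw [map_mul, map_mul, map_inv]⟩
  · intro K hPK hgK hm x hx
    obtain ⟨c, hcC, hci⟩ := hc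
    obtain ⟨y, _, hy⟩ := hm c hcC
    have halt' : alternatingGroup (XX3 k m) ≤ K.comap (tp e) := by
      refine core_perm hco' _ (fun x hx => hPK (Subgroup.mem_map_of_mem (tp e) hx)) hgK ?_
      intro hinv
      apply hci {x | ∃ a : Fin k, y x = e (Sum.inl a)}
      · rintro x ⟨a, ha⟩
        obtain ⟨σ, hσ⟩ := tp_surj e (y * c * y⁻¹)
        have hσK : σ ∈ K.comap (tp e) := by
          rw [Subgroup.mem_comap, hσ]; exact hy
        obtain ⟨a', ha'⟩ := hinv σ hσK a
        refine ⟨a', ?_⟩
        rw [← ha', ← tp_apply, hσ, ← ha]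
        show y (c x) = y (c (y⁻¹ (y x)))
        rw [← Perm.mul_apply y⁻¹ y, inv_mul_cancel, Perm.one_apply]
      · have h1 : {x | ∃ a : Fin k, y x = e (Sum.inl a)} =
            (fun a : Fin k => y.symm (e (Sum.inl a))) '' Set.univ := by
          ext x
          constructor
          · rintro ⟨a, ha⟩
            exact ⟨a, Set.mem_univ a, by show y.symm (e (Sum.inl a)) = x; rw [← ha, y.symm_apply_apply]⟩
          · rintro ⟨a, _, rfl⟩
            exact ⟨a, y.apply_symm_apply _⟩
        rw [h1, Set.ncard_image_of_injective _ (fun a b hab =>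
          Sum.inl_injective (e.injective (y.symm.injective hab))), Set.ncard_univ,
          Nat.card_eq_fintype_card, Fintype.card_fin]
    have hKalt : alternatingGroup (Fin n) ≤ K := by
      intro z hz
      obtain ⟨σ, rfl⟩ := tp_surj e z
      rw [mem_alternatingGroup, tp_sign, ← mem_alternatingGroup] at hz
      exact halt' hz
    obtain ⟨y', _, hy'⟩ := hm x hx
    have h4 : y'⁻¹ * (y' * x * y'⁻¹) * y' * (y' * x * y'⁻¹)⁻¹ ∈ alternatingGroup (Fin n) := by
      rw [mem_alternatingGroup]
      simp only [map_mul, map_inv]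
      have h5 : ∀ a b : ℤˣ, a⁻¹ * (a * b * a⁻¹) * a * (a * b * a⁻¹)⁻¹ = 1 := by
        intro a b
        rcases Int.units_eq_one_or a with rfl | rfl <;>
          rcases Int.units_eq_one_or b with rfl | rfl <;> simp
      exact h5 _ _
    have h6 := K.mul_mem (hKalt h4) hy'
    have h7 : y'⁻¹ * (y' * x * y'⁻¹) * y' * (y' * x * y'⁻¹)⁻¹ * (y' * x * y'⁻¹) = x := by group
    rw [h7] at h6
    exact h6

/-- quandles of permutations with an element without invariant subset of size `k` -/
theorem perm_inv {n k : ℕ} (hk : 1 ≤ k) (hkn : k < n) (hco : Nat.Coprime k n)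
    (h3 : 3 ∣ k ∨ 3 ∣ n - k) (C : Set (Quandle.Conj (Perm (Fin n)))) (hC : IsSubrack C)
    (halt : alternatingGroup (Fin n) ≤ Subgroup.closure (C : Set (Perm (Fin n))))
    (hc : ∃ c ∈ C, NoInvariantSet (n := n) k c) : ¬ Acyclic (properSubracks C) := by
  rcases h3 with h3 | h3
  · obtain ⟨c, hcC, hc⟩ := hc
    refine perm_inv_aux (k := n - k) (by omega) (by omega) ?_ (by
      rwa [show n - (n - k) = k by omega]) C hC halt ⟨c, hcC, noInv_compl hkn hc⟩
    have h1 : n = (n - k) + k := by omega
    have h2 : (n - k).Coprime ((n - k) + k) := by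
      rw [Nat.coprime_self_add_right]
      have h4 : k.Coprime (k + (n - k)) := by rwa [show k + (n - k) = n by omega]
      rw [Nat.coprime_self_add_right] at h4
      exact h4.symm
    rwa [← h1] at h2
  · exact perm_inv_aux hk hkn hco h3 C hC halt hc

end

end Pool.SubrackLattice
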