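import Pool.Agent.Work.MP_6197f9_h99.Smith

/-!
# Change of coefficients
-/

namespace Pool.SubrackLattice

open Finset

noncomputable section

open scoped Classical Pointwise

section BC

variable {α : Type*} [PartialOrder α] {p : ℕ} [hp : Fact p.Prime]

omit [PartialOrder α] in
/-- lifting of chains -/
lemma exists_lift {s : Set (Finset α)} {z : Finset α →₀ ZMod p} (hz : z ∈ Mo (ZMod p) s) :
    ∃ z' ∈ Finsupp.supported ℤ ℤ s, red (ZMod p) z' = z := by
  have : NeZero p := ⟨hp.out.ne_zero⟩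
  refine ⟨Finsupp.mapRange (fun a : ZMod p => (a.val : ℤ)) (by simp) z, ?_, ?_⟩
  · intro σ hσ
    exact hz (Finsupp.support_mapRange hσ)
  · ext σ
    rw [red_apply, Finsupp.mapRange_apply]
    simp

omit [PartialOrder α] in
/-- a chain which is zero modulo `p` -/
lemma exists_div {s : Set (Finset α)} {z : Finset α →₀ ℤ} (hz : z ∈ Finsupp.supported ℤ ℤ s)
    (h0 : red (ZMod p) z = 0) : ∃ y ∈ Finsupp.supported ℤ ℤ s, z = (p : ℤ) • y := by
  refine ⟨Finsupp.mapRange (fun a : ℤ => a / p) (by simp) z, ?_, ?_⟩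
  · intro σ hσ
    exact hz (Finsupp.support_mapRange hσ)
  · ext σ
    rw [Finsupp.smul_apply, Finsupp.mapRange_apply, smul_eq_mul]
    have h1 : ((z σ : ℤ) : ZMod p) = 0 := by
      rw [← red_apply, h0]; rfl
    rw [ZMod.intCast_zmod_eq_zero_iff_dvd] at h1
    exact (Int.mul_ediv_cancel' h1).symm

omit [PartialOrder α] in
lemma smul_inj {y : Finset α →₀ ℤ} (h : (p : ℤ) • y = 0) : y = 0 := by
  have : (p : ℤ) ≠ 0 := by exact_mod_cast hp.out.ne_zero
  exact (smul_eq_zero.mp h).resolve_left this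

lemma bd_chainsOf {P : Set α} {k : ℕ} {w : Finset α →₀ ℤ} (hw : w ∈ chainsOf P (k + 1)) :
    boundary w ∈ chainsOf P k := by
  have h1 := boundary_proj_succ k (chainsOf_le P _ hw)
  rw [proj_eq _ hw] at h1
  rw [h1]
  exact proj_mem k (boundary_mem (chainsOf_le P _ hw))

lemma bd_zero {P : Set α} {w : Finset α →₀ ℤ} (hw : w ∈ chainsOf P 0) : boundary w = 0 := by
  have h1 := boundary_proj_zero (chainsOf_le P _ hw)
  rwa [proj_eq _ hw] at h1

theorem acF_of_acyclic {P : Set α} (h : Acyclic P) : AcF (ZMod p) P := by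
  intro k z hz hb
  obtain ⟨z', hz', hzz⟩ := exists_lift hz
  have h1 : red (ZMod p) (boundary z') = 0 := by rw [← bF_red, hzz, hb]
  -- an integral cycle with the same reduction
  obtain ⟨z'', hz'', hz2, hz3⟩ : ∃ z'' ∈ chainsOf P k, boundary z'' = 0 ∧
      red (ZMod p) z'' = z := by
    cases k with
    | zero => exact ⟨z', hz', bd_zero hz', hzz⟩
    | succ k =>
      obtain ⟨y, hy, hyy⟩ := exists_div (p := p) (bd_chainsOf (P := P) (k := k) hz') h1
      have h2 : boundary y = 0 := by
        apply smul_inj (p := p)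
        rw [← map_smul, ← hyy, boundary_boundary (chainsOf_le P _ hz')]
      obtain ⟨x, hx, hxy⟩ := h k y hy h2
      refine ⟨z' - (p : ℤ) • x, Submodule.sub_mem _ hz' (Submodule.smul_mem _ _ hx), ?_, ?_⟩
      · rw [map_sub, map_smul, hxy, ← hyy, sub_self]
      · rw [map_sub, red_smul, hzz]
        simp
  obtain ⟨w, hw, hwz⟩ := h k z'' hz'' hz2
  refine ⟨red (ZMod p) w, ?_, ?_⟩
  · intro σ hσ
    apply hw
    rw [Finset.mem_coe, Finsupp.mem_support_iff] at hσ ⊢
    intro h0
    apply hσ
    rw [red_apply, h0, Int.cast_zero]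
  · rw [bF_red, hwz, hz3]

/-- acyclic over `ZMod p`: the integral homology is killed by a non-zero integer -/
theorem killed_of_acF {P : Set α} (hfin : P.Finite) (h : AcF (ZMod p) P) :
    ∃ m : ℤ, m ≠ 0 ∧ ∀ z ∈ Ch P, boundary z = 0 → ∃ w ∈ Ch P, boundary w = m • z := by
  have := finite_Fc hfin
  have := Fintype.ofFinite (Fc P)
  let b : Module.Basis (Fc P) ℤ (Ch P) :=
    Module.Basis.ofRepr (Finsupp.supportedEquivFinsupp {σ | IsFace P σ})
  have hf : Module.Finite ℤ (Ch P) := Module.Finite.of_basis b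
  have hnoe : IsNoetherian ℤ (Ch P) := inferInstance
  let K : Submodule ℤ (Finset α →₀ ℤ) := Ch P ⊓ LinearMap.ker boundary
  let N : Submodule ℤ (Finset α →₀ ℤ) := (Ch P).map boundary
  have hK : K.FG := isNoetherian_submodule.mp hnoe K inf_le_left
  have hle : K ≤ N ⊔ (Ideal.span {(p : ℤ)} : Ideal ℤ) • K := by
    rintro z ⟨hz, hb⟩
    rw [SetLike.mem_coe, LinearMap.mem_ker] at hb
    rw [← sum_proj z]
    refine Submodule.sum_mem _ fun k _ => ?_
    have hzk : proj k z ∈ chainsOf P k := proj_mem k hz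
    have hbk : boundary (proj k z) = 0 := by
      cases k with
      | zero => exact boundary_proj_zero hz
      | succ k => rw [boundary_proj_succ k hz, hb, map_zero]
    have h1 : red (ZMod p) (proj k z) ∈ Mo (ZMod p) (Fk P k) := by
      intro σ hσ
      apply hzk
      rw [Finset.mem_coe, Finsupp.mem_support_iff] at hσ ⊢
      intro h0
      apply hσ
      rw [red_apply, h0, Int.cast_zero]
    obtain ⟨w, hw, hwz⟩ := h k _ h1 (by rw [bF_red, hbk, map_zero])
    obtain ⟨w', hw', hww⟩ := exists_lift hw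
    have h2 : red (ZMod p) (proj k z - boundary w') = 0 := by
      rw [map_sub, ← bF_red, hww, hwz, sub_self]
    obtain ⟨u, hu, huu⟩ := exists_div (p := p)
      (Submodule.sub_mem (chainsOf P k) hzk (bd_chainsOf (P := P) hw')) h2
    have h3 : boundary u = 0 := by
      apply smul_inj (p := p)
      rw [← map_smul, ← huu, map_sub, hbk, boundary_boundary (chainsOf_le P (k + 1) hw'), sub_zero]
    have h4 : proj k z = boundary w' + (p : ℤ) • u := by
      rw [← huu, add_sub_cancel]
    rw [h4]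
    refine Submodule.add_mem_sup ⟨w', chainsOf_le P (k + 1) hw', rfl⟩ ?_
    exact Submodule.smul_mem_smul (Ideal.mem_span_singleton_self _)
      ⟨chainsOf_le P k hu, by rw [SetLike.mem_coe, LinearMap.mem_ker]; exact h3⟩
  obtain ⟨r, hr, hrK⟩ := Submodule.exists_sub_one_mem_and_smul_le_of_fg_of_le_sup hK le_rfl hle
  refine ⟨r, ?_, ?_⟩
  · rintro rfl
    rw [Ideal.mem_span_singleton, zero_sub, dvd_neg] at hr
    have h1 : p ∣ 1 := by exact_mod_cast hr
    exact hp.out.one_lt.ne' (Nat.dvd_one.mp h1)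
  · intro z hz hb
    have h1 : r • z ∈ r • K := Submodule.smul_mem_pointwise_smul z r K
      ⟨hz, by rw [SetLike.mem_coe, LinearMap.mem_ker]; exact hb⟩
    obtain ⟨w, hw, hwz⟩ := hrK h1
    exact ⟨w, hw, hwz⟩

end BC

/-- an endomorphism which anticommutes with a differential with torsion homology has trace `0` -/
theorem trace_zero' {V : Type*} [AddCommGroup V] [Module.Free ℤ V] [Module.Finite ℤ V]
    (d T : V →ₗ[ℤ] V) (hdd : ∀ x, d (d x) = 0) (m : ℤ) (hm : m ≠ 0)
    (hex : ∀ z, d z = 0 → ∃ w, d w = m • z)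
    (hT : ∀ x, T (d x) = - d (T x)) : LinearMap.trace ℤ V T = 0 := by
  -- a section up to `m`
  obtain ⟨s, hds⟩ : ∃ s : LinearMap.ker d →ₗ[ℤ] V, ∀ k : LinearMap.ker d, d (s k) = m • (k : V) := by
    let b := Module.Free.chooseBasis ℤ (LinearMap.ker d)
    have h1 : ∀ i, ∃ w, d w = m • ((b i : LinearMap.ker d) : V) := fun i =>
      hex _ (LinearMap.mem_ker.mp (b i).2)
    choose w hw using h1
    refine ⟨b.constr ℤ w, ?_⟩
    intro k
    have h2 : d ∘ₗ (b.constr ℤ w) = m • (LinearMap.ker d).subtype := by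
      apply b.ext
      intro i
      rw [LinearMap.comp_apply, Module.Basis.constr_basis, hw]
      rfl
    have h3 := congrArg (fun f : LinearMap.ker d →ₗ[ℤ] V => f k) h2
    exact h3
  let d' : V →ₗ[ℤ] LinearMap.ker d := d.codRestrict (LinearMap.ker d)
    (fun x => by rw [LinearMap.mem_ker, hdd])
  let q : V →ₗ[ℤ] LinearMap.ker d := (m • LinearMap.id - s ∘ₗ d').codRestrict (LinearMap.ker d)
    (fun x => by
      rw [LinearMap.mem_ker, LinearMap.sub_apply, map_sub, LinearMap.comp_apply, hds,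
        LinearMap.smul_apply, map_smul]
      exact sub_self _)
  let h : V →ₗ[ℤ] V := s ∘ₗ q
  have hh : ∀ x, d (h x) + h (d x) = (m * m) • x := by
    intro x
    have h1 : d (h x) = m • (m • x - s (d' x)) := by
      show d (s (q x)) = _
      rw [hds]; rfl
    have h2 : q (d x) = m • d' x := by
      apply Subtype.ext
      show m • d x - s (d' (d x)) = m • d x
      have : d' (d x) = 0 := Subtype.ext (hdd x)
      rw [this, map_zero, sub_zero]
    have h3 : h (d x) = m • s (d' x) := by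
      show s (q (d x)) = _
      rw [h2, map_smul]
    rw [h1, h3, ← smul_add, sub_add_cancel, smul_smul]
  have e1 : (m * m) • T = T * d * h + T * h * d := by
    ext x
    show (m * m) • T x = T (d (h x)) + T (h (d x))
    rw [← map_add, hh, map_smul]
  have e2 : T * d = - (d * T) := by
    ext x
    exact hT x
  have e3 : LinearMap.trace ℤ V (T * h * d) = - LinearMap.trace ℤ V (T * d * h) := by
    rw [LinearMap.trace_mul_comm, ← mul_assoc, ← map_neg]
    congr 1
    rw [e2, neg_mul, neg_neg]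
  have e4 : (m * m) • LinearMap.trace ℤ V T = 0 := by
    rw [← map_smul, e1, map_add, e3, add_neg_cancel]
  exact (smul_eq_zero.mp e4).resolve_left (mul_ne_zero hm hm)

/-- Lefschetz formula for an order automorphism of a finite poset whose integral homology is killed
by a non-zero integer -/
theorem lefschetz' {α : Type*} [PartialOrder α] {P : Set α} [Fintype (Fc P)] (m : ℤ) (hm : m ≠ 0)
    (h : ∀ z ∈ Ch P, boundary z = 0 → ∃ w ∈ Ch P, boundary w = m • z) {e : α → α}
    (he : EmbOn e P P) :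
    ∑ σ : Fc P, (if σ.1.image e = σ.1 then (-1 : ℤ) ^ σ.1.card else 0) = 0 := by
  let b : Module.Basis (Fc P) ℤ (Ch P) :=
    Module.Basis.ofRepr (Finsupp.supportedEquivFinsupp {σ | IsFace P σ})
  have hb : ∀ i : Fc P, ((b i : Ch P) : Finset α →₀ ℤ) = E i.1 := by
    intro i
    have h1 : b i = (Finsupp.supportedEquivFinsupp {σ | IsFace P σ}).symm
        (Finsupp.single i (1 : ℤ)) := rfl
    rw [h1]
    exact Finsupp.supportedEquivFinsupp_symm_single _ _ _
  have hr : ∀ (x : Ch P) (i : Fc P), b.repr x i = (x : Finset α →₀ ℤ) i.1 := fun x i => rfl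
  have : Module.Free ℤ (Ch P) := Module.Free.of_basis b
  have : Module.Finite ℤ (Ch P) := Module.Finite.of_basis b
  let d : Ch P →ₗ[ℤ] Ch P := boundary.restrict fun w hw => boundary_mem hw
  let T0 : (Finset α →₀ ℤ) →ₗ[ℤ] (Finset α →₀ ℤ) := par ∘ₗ push e
  have hT0 : ∀ w ∈ Ch P, T0 w ∈ Ch P := fun w hw => par_mem (push_mem he hw)
  let T : Ch P →ₗ[ℤ] Ch P := T0.restrict hT0
  have key : LinearMap.trace ℤ (Ch P) T = 0 := by
    refine trace_zero' d T ?_ m hm ?_ ?_
    · rintro ⟨w, hw⟩
      exact Subtype.ext (boundary_boundary hw)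
    · rintro ⟨z, hz⟩ hz0
      obtain ⟨w, hw, hw'⟩ := h z hz (congrArg Subtype.val hz0)
      exact ⟨⟨w, hw⟩, Subtype.ext hw'⟩
    · rintro ⟨w, hw⟩
      apply Subtype.ext
      show par (push e (boundary w)) = - boundary (par (push e w))
      rw [← boundary_push he hw, par_boundary (push_mem he hw)]
  rw [LinearMap.trace_eq_matrix_trace ℤ b, Matrix.trace] at key
  refine Eq.trans (Finset.sum_congr rfl ?_) key
  intro σ _
  rw [Matrix.diag_apply, LinearMap.toMatrix_apply, hr]
  have h2 : ((T (b σ) : Ch P) : Finset α →₀ ℤ) = ((-1 : ℤ) ^ (σ.1.image e).card) •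
      E (σ.1.image e) := by
    show par (push e ((b σ : Ch P) : Finset α →₀ ℤ)) = _
    rw [hb, push_E, par_E]
  rw [h2, Finsupp.smul_apply]
  unfold E
  rw [Finsupp.single_apply]
  split_ifs with h3
  · rw [h3]; simp
  · simp

end

end Pool.SubrackLattice
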