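import Pool.Agent.Work.MP_6197f9_h99.Lefschetz

/-!
# Groups acting on a finite poset with acyclic order complex
-/

namespace Pool.SubrackLattice

open Finset

noncomputable section

open scoped Classical

variable {α : Type*} [PartialOrder α] {Γ : Type*} [Group Γ] [MulAction Γ α]

/-- a group of order automorphisms which preserves `P` -/
structure ActOn (Γ : Type*) [Group Γ] [MulAction Γ α] (P : Set α) : Prop where
  le : ∀ (γ : Γ) (x y : α), γ • x ≤ γ • y ↔ x ≤ y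
  mem : ∀ (γ : Γ) (x : α), x ∈ P → γ • x ∈ P
  rig : ∀ (γ : Γ) (x : α), x ∈ P → (x ≤ γ • x ∨ γ • x ≤ x) → γ • x = x

/-- the image of a finite set -/
def im (γ : Γ) (σ : Finset α) : Finset α := σ.image fun x => γ • x

omit [PartialOrder α] in
lemma mem_im {γ : Γ} {σ : Finset α} {x : α} : x ∈ im γ σ ↔ ∃ y ∈ σ, γ • y = x := by
  simp [im]

omit [PartialOrder α] in
lemma im_one (σ : Finset α) : im (1 : Γ) σ = σ := by
  ext x; simp [mem_im]

omit [PartialOrder α] in
lemma im_mul (γ δ : Γ) (σ : Finset α) : im (γ * δ) σ = im γ (im δ σ) := by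
  ext x
  simp only [mem_im, mul_smul]
  constructor
  · rintro ⟨y, hy, rfl⟩
    exact ⟨_, ⟨y, hy, rfl⟩, rfl⟩
  · rintro ⟨_, ⟨y, hy, rfl⟩, rfl⟩
    exact ⟨y, hy, rfl⟩

omit [PartialOrder α] in
lemma card_im (γ : Γ) (σ : Finset α) : (im γ σ).card = σ.card :=
  Finset.card_image_of_injective _ (MulAction.injective γ)

lemma face_im {P : Set α} (hA : ActOn Γ P) (γ : Γ) {σ : Finset α} (h : IsFace P σ) :
    IsFace P (im γ σ) := by
  refine ⟨?_, ?_⟩
  · intro x hx
    obtain ⟨y, hy, rfl⟩ := mem_im.mp hx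
    exact hA.mem γ y (h.1 y hy)
  · intro x hx y hy
    obtain ⟨x', hx', rfl⟩ := mem_im.mp hx
    obtain ⟨y', hy', rfl⟩ := mem_im.mp hy
    rw [hA.le, hA.le]
    exact h.2 x' hx' y' hy'

/-- an invariant chain is fixed elementwise -/
lemma fix_of_im {P : Set α} (hA : ActOn Γ P) {γ : Γ} {σ : Finset α} (h : IsFace P σ)
    (hσ : im γ σ = σ) : ∀ x ∈ σ, γ • x = x := by
  intro x hx
  have h1 : γ • x ∈ σ := by
    rw [← hσ]; exact mem_im.mpr ⟨x, hx, rfl⟩
  exact hA.rig γ x (h.1 x hx) (h.2 x hx _ h1)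

omit [PartialOrder α] in
lemma im_eq_of_fix {γ : Γ} {σ : Finset α} (h : ∀ x ∈ σ, γ • x = x) : im γ σ = σ := by
  ext x
  rw [mem_im]
  constructor
  · rintro ⟨y, hy, rfl⟩
    rwa [h y hy]
  · intro hx
    exact ⟨x, hx, h x hx⟩

omit [PartialOrder α] in
lemma im_zpowers {g γ : Γ} {σ : Finset α} (h : im g σ = σ) (hγ : γ ∈ Subgroup.zpowers g) :
    im γ σ = σ := by
  let S : Subgroup Γ :=
    { carrier := {γ | im γ σ = σ}
      one_mem' := im_one σ
      mul_mem' := by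
        intro a b ha hb
        show im (a * b) σ = σ
        rw [im_mul, hb, ha]
      inv_mem' := by
        intro a ha
        show im a⁻¹ σ = σ
        conv_lhs => rw [← (show im a σ = σ from ha)]
        rw [← im_mul, inv_mul_cancel, im_one] }
  have : Subgroup.zpowers g ≤ S := Subgroup.zpowers_le.mpr h
  exact this hγ

/-- the chains fixed by `g`, with a condition on the size -/
abbrev Yc (P : Set α) (g : Γ) (S : ℕ → Prop) :=
  {σ : Finset α // IsFace P σ ∧ im g σ = σ ∧ S σ.card}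

/-- the action of a group which normalises `⟨g⟩` -/
def actY {P : Set α} (hA : ActOn Γ P) (g : Γ) (S : ℕ → Prop) (Q : Subgroup Γ)
    (hgQ : ∀ x ∈ Q, x * g * x⁻¹ ∈ Subgroup.zpowers g) : MulAction Q (Yc P g S) where
  smul x σ := ⟨im (x : Γ) σ.1, face_im hA _ σ.2.1, by
    have h1 : (x : Γ)⁻¹ * g * ((x : Γ)⁻¹)⁻¹ ∈ Subgroup.zpowers g :=
      hgQ _ (Q.inv_mem x.2)
    have h2 := im_zpowers σ.2.2.1 h1
    rw [← im_mul, show g * (x : Γ) = x * ((x : Γ)⁻¹ * g * ((x : Γ)⁻¹)⁻¹) by group, im_mul, h2],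
    by rw [card_im]; exact σ.2.2.2⟩
  one_smul σ := Subtype.ext (im_one σ.1)
  mul_smul x y σ := Subtype.ext (im_mul (x : Γ) (y : Γ) σ.1)

/-- the elements fixed by `g` and `Q` -/
def fixP (P : Set α) (g : Γ) (Q : Subgroup Γ) : Set α :=
  {x | x ∈ P ∧ g • x = x ∧ ∀ γ ∈ Q, γ • x = x}

/-- a signed count -/
lemma sum_sign {P : Set α} [Fintype (Fc P)] (p : Finset α → Prop) :
    ∑ σ : Fc P, (if p σ.1 then (-1 : ℤ) ^ σ.1.card else 0) =
      (Nat.card {σ : Finset α // IsFace P σ ∧ p σ ∧ Even σ.card} : ℤ) -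
        Nat.card {σ : Finset α // IsFace P σ ∧ p σ ∧ Odd σ.card} := by
  have h1 : ∀ S : ℕ → Prop, (Nat.card {σ : Finset α // IsFace P σ ∧ p σ ∧ S σ.card} : ℤ) =
      ∑ σ : Fc P, (if p σ.1 ∧ S σ.1.card then (1 : ℤ) else 0) := by
    intro S
    rw [Finset.sum_boole, Nat.card_congr (β := {σ : Fc P // p σ.1 ∧ S σ.1.card})
      ⟨fun σ => ⟨⟨σ.1, σ.2.1⟩, σ.2.2⟩, fun σ => ⟨σ.1.1, σ.1.2, σ.2⟩, fun _ => rfl, fun _ => rfl⟩,
      Nat.card_eq_fintype_card, Fintype.card_subtype]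
  rw [h1, h1, ← Finset.sum_sub_distrib]
  apply Finset.sum_congr rfl
  intro σ _
  by_cases h3 : p σ.1
  · rcases Nat.even_or_odd σ.1.card with h4 | h4
    · have h5 : ¬ Odd σ.1.card := Nat.not_odd_iff_even.mpr h4
      simp [h3, h4, h5, h4.neg_one_pow]
    · have h5 : ¬ Even σ.1.card := Nat.not_even_iff_odd.mpr h4
      simp [h3, h4, h5, h4.neg_one_pow]
  · simp [h3]

theorem count_fix {P : Set α} (hfin : P.Finite) (hA : ActOn Γ P) (g : Γ) (q : ℕ)
    [Fact q.Prime] (Q : Subgroup Γ) (hQ : IsPGroup q Q)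
    (hgQ : ∀ x ∈ Q, x * g * x⁻¹ ∈ Subgroup.zpowers g) (h : Acyc P) :
    (q : ℤ) ∣ ∑ᶠ σ : Fc (fixP P g Q), (-1 : ℤ) ^ σ.1.card := by
  have hF : Finite (Fc P) := finite_Fc hfin
  have hF' : Finite (Fc (fixP P g Q)) := finite_Fc (hfin.subset fun x hx => hx.1)
  have hYfin : ∀ S : ℕ → Prop, Finite (Yc P g S) := fun S =>
    Finite.of_injective (fun σ : Yc P g S => (⟨σ.1, σ.2.1⟩ : Fc P))
      (fun a b hab => Subtype.ext (congrArg (fun t : Fc P => t.1) hab))
  -- fixed points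
  have hfp : ∀ S : ℕ → Prop, Nat.card (Yc P g S) ≡
      Nat.card {σ : Finset α // IsFace (fixP P g Q) σ ∧ True ∧ S σ.card} [MOD q] := by
    intro S
    let _ := actY hA g S Q hgQ
    have := hYfin S
    have h1 := hQ.card_modEq_card_fixedPoints (Yc P g S)
    have h2 : Nat.card (MulAction.fixedPoints Q (Yc P g S)) =
        Nat.card {σ : Finset α // IsFace (fixP P g Q) σ ∧ True ∧ S σ.card} := by
      refine Nat.card_congr ⟨fun σ => ⟨σ.1.1, ⟨?_, σ.1.2.1.2⟩, trivial, σ.1.2.2.2⟩,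
        fun σ => ⟨⟨σ.1, ⟨fun x hx => (σ.2.1.1 x hx).1, σ.2.1.2⟩,
          im_eq_of_fix fun x hx => (σ.2.1.1 x hx).2.1, σ.2.2.2⟩, ?_⟩, fun _ => rfl, fun _ => rfl⟩
      · intro x hx
        refine ⟨σ.1.2.1.1 x hx, fix_of_im hA σ.1.2.1 σ.1.2.2.1 x hx, ?_⟩
        intro γ hγ
        have h3 : im γ σ.1.1 = σ.1.1 := congrArg Subtype.val (σ.2 ⟨γ, hγ⟩)
        exact fix_of_im hA σ.1.2.1 h3 x hx
      · intro γ
        apply Subtype.ext
        show im (γ : Γ) σ.1 = σ.1
        exact im_eq_of_fix fun x hx => (σ.2.1.1 x hx).2.2 _ γ.2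
    rw [h2] at h1
    exact h1
  have := Fintype.ofFinite (Fc P)
  have := Fintype.ofFinite (Fc (fixP P g Q))
  have hL := lefschetz h (e := fun x => g • x) ⟨fun x hx => hA.mem g x hx,
    fun x _ y _ => hA.le g x y⟩
  have h3 := sum_sign (P := P) (fun σ => im g σ = σ)
  have h4 := sum_sign (P := fixP P g Q) (fun _ => True)
  have h5 : (Nat.card (Yc P g Even) : ℤ) - Nat.card (Yc P g Odd) = 0 := by
    refine h3.symm.trans ?_
    convert hL
    rfl
  rw [finsum_eq_sum_of_fintype]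
  simp only [if_true] at h4
  rw [h4]
  have hE := (Nat.modEq_iff_dvd.mp (hfp Even))
  have hO := (Nat.modEq_iff_dvd.mp (hfp Odd))
  have h6 := dvd_sub hE hO
  have h7 : ∀ a b c d : ℤ, c - d = 0 → (a - c) - (b - d) = a - b := by intros; linarith
  rw [h7 _ _ _ _ h5] at h6
  exact h6

/-- remove or insert `z` -/
def tg (σ : Finset α) (z : α) : Finset α := if z ∈ σ then σ.erase z else insert z σ

omit [PartialOrder α] in
lemma tg_tg (σ : Finset α) (z : α) : tg (tg σ z) z = σ := by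
  by_cases h : z ∈ σ
  · have h1 : tg σ z = σ.erase z := if_pos h
    rw [h1]
    unfold tg
    rw [if_neg (Finset.notMem_erase z σ), Finset.insert_erase h]
  · have h1 : tg σ z = insert z σ := if_neg h
    rw [h1]
    unfold tg
    rw [if_pos (Finset.mem_insert_self z σ), Finset.erase_insert h]

omit [PartialOrder α] in
lemma sign_tg (σ : Finset α) (z : α) :
    (-1 : ℤ) ^ σ.card + (-1 : ℤ) ^ (tg σ z).card = 0 := by
  by_cases h : z ∈ σ
  · have h1 : tg σ z = σ.erase z := if_pos h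
    rw [h1, ← Finset.card_erase_add_one h, pow_succ]
    ring
  · have h1 : tg σ z = insert z σ := if_neg h
    rw [h1, Finset.card_insert_of_notMem h, pow_succ]
    ring

omit [PartialOrder α] in
lemma mem_tg_of_ne {σ : Finset α} {x z : α} (h : x ≠ z) : x ∈ tg σ z ↔ x ∈ σ := by
  unfold tg
  split_ifs <;> simp [h]

/-- `y` is the largest element of `σ` which is not closed -/
structure IsM (c : α → α) (σ : Finset α) (y : α) : Prop where
  mem : y ∈ σ
  ne : c y ≠ y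
  mx : ∀ z ∈ σ, c z ≠ z → z ≤ y

lemma IsM.unique {c : α → α} {σ : Finset α} {y y' : α} (h : IsM c σ y) (h' : IsM c σ y') :
    y = y' :=
  le_antisymm (h'.mx y h.mem h.ne) (h.mx y' h'.mem h'.ne)

/-- remove or insert the closure of the largest element which is not closed -/
def tgl (c : α → α) (σ : Finset α) : Finset α :=
  if h : ∃ y, IsM c σ y then tg σ (c h.choose) else σ

lemma tgl_eq {c : α → α} {σ : Finset α} {y : α} (h : IsM c σ y) : tgl c σ = tg σ (c y) := by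
  have h1 : ∃ y, IsM c σ y := ⟨y, h⟩
  unfold tgl
  rw [dif_pos h1, h1.choose_spec.unique h]

/-- a closure operator does not change the signed number of chains -/
theorem sum_closure {P : Set α} (hfin : P.Finite) (c : α → α) (hc : ∀ x ∈ P, c x ∈ P)
    (hle : ∀ x ∈ P, x ≤ c x) (hmono : ∀ x ∈ P, ∀ y ∈ P, x ≤ y → c x ≤ c y)
    (hid : ∀ x ∈ P, c (c x) = c x) :
    ∑ᶠ σ : Fc P, (-1 : ℤ) ^ σ.1.card =
      ∑ᶠ σ : Fc {x | x ∈ P ∧ c x = x}, (-1 : ℤ) ^ σ.1.card := by
  have := finite_Fc hfin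
  have hfin' : ({x | x ∈ P ∧ c x = x} : Set α).Finite := hfin.subset fun x hx => hx.1
  have := finite_Fc hfin'
  have := Fintype.ofFinite (Fc P)
  have := Fintype.ofFinite (Fc {x | x ∈ P ∧ c x = x})
  rw [finsum_eq_sum_of_fintype, finsum_eq_sum_of_fintype]
  -- the closed chains
  have h1 : ∑ σ : Fc {x | x ∈ P ∧ c x = x}, (-1 : ℤ) ^ σ.1.card =
      ∑ σ ∈ (Finset.univ : Finset (Fc P)).filter (fun σ => ∀ x ∈ σ.1, c x = x),
        (-1 : ℤ) ^ σ.1.card := by
    refine Finset.sum_bij (fun σ _ => ⟨σ.1, fun x hx => (σ.2.1 x hx).1, σ.2.2⟩) ?_ ?_ ?_ ?_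
    · intro σ _
      simp only [Finset.mem_filter, Finset.mem_univ, true_and]
      exact fun x hx => (σ.2.1 x hx).2
    · intro a _ b _ hab
      exact Subtype.ext (congrArg (fun t : Fc P => t.1) hab)
    · intro τ hτ
      simp only [Finset.mem_filter, Finset.mem_univ, true_and] at hτ
      exact ⟨⟨τ.1, fun x hx => ⟨τ.2.1 x hx, hτ x hx⟩, τ.2.2⟩, Finset.mem_univ _, rfl⟩
    · intro _ _; rfl
  rw [h1, ← Finset.sum_filter_add_sum_filter_not (Finset.univ : Finset (Fc P))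
    (fun σ => ∀ x ∈ σ.1, c x = x), add_eq_left]
  -- the largest element which is not closed
  have hmax : ∀ σ : Fc P, ¬ (∀ x ∈ σ.1, c x = x) → ∃ y, IsM c σ.1 y := by
    intro σ hσ
    push Not at hσ
    obtain ⟨x, hx, hxc⟩ := hσ
    obtain ⟨y, hy, hmaxy⟩ := Finset.exists_maximal (s := σ.1.filter fun z => c z ≠ z)
      ⟨x, Finset.mem_filter.mpr ⟨hx, hxc⟩⟩
    rw [Finset.mem_filter] at hy
    refine ⟨y, hy.1, hy.2, ?_⟩
    intro z hz hzc
    rcases σ.2.2 z hz y hy.1 with h | h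
    · exact h
    · exact hmaxy (Finset.mem_filter.mpr ⟨hz, hzc⟩) h
  have hface : ∀ (σ : Fc P) (y : α), IsM c σ.1 y → IsFace P (tg σ.1 (c y)) := by
    intro σ y hy
    have hyP := σ.2.1 y hy.mem
    have hcomp : ∀ z ∈ σ.1, z ≤ c y ∨ c y ≤ z := by
      intro z hz
      by_cases hzc : c z = z
      · rcases σ.2.2 z hz y hy.mem with h | h
        · exact Or.inl (h.trans (hle y hyP))
        · right
          have := hmono y hyP z (σ.2.1 z hz) h
          rwa [hzc] at this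
      · exact Or.inl ((hy.mx z hz hzc).trans (hle y hyP))
    by_cases h : c y ∈ σ.1
    · have h2 : tg σ.1 (c y) = σ.1.erase (c y) := if_pos h
      rw [h2]
      exact σ.2.erase _
    · have h2 : tg σ.1 (c y) = insert (c y) σ.1 := if_neg h
      rw [h2]
      refine ⟨?_, ?_⟩
      · intro x hx
        rcases Finset.mem_insert.mp hx with rfl | hx
        · exact hc y hyP
        · exact σ.2.1 x hx
      · intro x hx z hz
        rcases Finset.mem_insert.mp hx with hx | hx <;>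
          rcases Finset.mem_insert.mp hz with hz | hz
        · rw [hx, hz]; exact Or.inl le_rfl
        · rw [hx]; exact (hcomp z hz).symm
        · rw [hz]; exact hcomp x hx
        · exact σ.2.2 x hx z hz
  have hM : ∀ (σ : Fc P) (y : α), IsM c σ.1 y → IsM c (tg σ.1 (c y)) y := by
    intro σ y hy
    refine ⟨(mem_tg_of_ne hy.ne.symm).mpr hy.mem, hy.ne, ?_⟩
    intro z hz hzc
    have : z ≠ c y := by
      rintro rfl
      exact hzc (hid y (σ.2.1 y hy.mem))
    exact hy.mx z ((mem_tg_of_ne this).mp hz) hzc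
  have hmem : ∀ σ : Fc P, σ ∈ (Finset.univ : Finset (Fc P)).filter
      (fun σ => ¬ ∀ x ∈ σ.1, c x = x) → ∃ y, IsM c σ.1 y := by
    intro σ hσ
    exact hmax σ (Finset.mem_filter.mp hσ).2
  have hface' : ∀ σ : Fc P, IsFace P (tgl c σ.1) := by
    intro σ
    by_cases h : ∃ y, IsM c σ.1 y
    · obtain ⟨y, hy⟩ := h
      rw [tgl_eq hy]
      exact hface σ y hy
    · have h2 : tgl c σ.1 = σ.1 := dif_neg h
      rw [h2]
      exact σ.2
  refine Finset.sum_involution (fun σ _ => ⟨tgl c σ.1, hface' σ⟩) ?_ ?_ ?_ ?_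
  · intro σ hσ
    obtain ⟨y, hy⟩ := hmem σ hσ
    show (-1 : ℤ) ^ σ.1.card + (-1 : ℤ) ^ (tgl c σ.1).card = 0
    rw [tgl_eq hy]
    exact sign_tg _ _
  · intro σ hσ _ heq
    obtain ⟨y, hy⟩ := hmem σ hσ
    have h2 : tgl c σ.1 = σ.1 := congrArg (fun t : Fc P => t.1) heq
    rw [tgl_eq hy] at h2
    have h3 := sign_tg σ.1 (c y)
    rw [h2] at h3
    have h4 : (-1 : ℤ) ^ σ.1.card ≠ 0 := pow_ne_zero _ (by norm_num)
    exact h4 (by linarith)
  · intro σ hσ
    obtain ⟨y, hy⟩ := hmem σ hσ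
    refine Finset.mem_filter.mpr ⟨Finset.mem_univ _, ?_⟩
    intro hcl
    have h2 := hM σ y hy
    rw [← tgl_eq hy] at h2
    exact h2.ne (hcl _ h2.mem)
  · intro σ hσ
    obtain ⟨y, hy⟩ := hmem σ hσ
    apply Subtype.ext
    show tgl c (tgl c σ.1) = σ.1
    have h2 := hM σ y hy
    rw [tgl_eq hy, tgl_eq h2, tg_tg]

end

end Pool.SubrackLattice
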