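import Pool.Agent.Work.MP_6197f9_h99.Oliver

/-!
# The criterion for a quandle in a group, with a `p`-group
-/

namespace Pool.SubrackLattice

open Finset

noncomputable section

open scoped Classical Pointwise

/-- if every subgroup which contains `P` and a conjugate of every element of `C` contains `C`, the
subrack lattice is not acyclic -/
theorem gen_crit {E : Type*} [Group E] [Finite E] (C : Set (Quandle.Conj E))
    (hC : IsSubrack C) (G : Subgroup E) (hG : G = Subgroup.closure C) (p : ℕ) (hp : p.Prime)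
    (P : Subgroup E) (hP : IsPGroup p P) (hPG : P ≤ G)
    (hK : ∀ K : Subgroup E, P ≤ K → (∀ x ∈ C, ∃ y ∈ G, y * x * y⁻¹ ∈ K) →
      ∀ x ∈ C, x ∈ K) : ¬ Acyclic (properSubracks C) := by
  intro hac
  have hac0 := hac
  rw [acyclic_iff_acyc] at hac
  have hCG : ∀ x ∈ C, (x : E) ∈ G := fun x hx => by
    rw [hG]; exact Subgroup.subset_closure hx
  let φ : G →* Equiv.Perm E :=
    (MulAut.toPerm E).comp (MulAut.conj.comp G.subtype)
  have hφ : ∀ (g : G) (x : E), φ g x = (g : E) * x * (g : E)⁻¹ :=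
    fun g x => rfl
  let L : E → G := fun x => if h : x ∈ C then ⟨x, hCG x h⟩ else 1
  have hLx : ∀ x (h : x ∈ C), L x = ⟨x, hCG x h⟩ := fun x h => dif_pos h
  have himg : L '' C = (Subtype.val : G → E) ⁻¹' C := by
    ext g
    constructor
    · rintro ⟨x, hx, rfl⟩
      show ((L x : G) : E) ∈ C
      rw [hLx x hx]
      exact hx
    · intro hg
      exact ⟨g.1, hg, by rw [hLx _ hg]⟩
  have hgen : Subgroup.closure (L '' C) = ⊤ := by
    rw [himg]
    subst hG
    exact Subgroup.closure_closure_coe_preimage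
  have hclosed : ∀ x ∈ C, ∀ y ∈ C, φ (L x) y ∈ C := by
    intro x hx y hy
    rw [hLx x hx, hφ]
    exact hC x hx y hy
  have hCinv : ∀ (g : G) (x : E), x ∈ C → φ g x ∈ C := by
    intro g x hx
    exact (closed_invariant (φ := φ) (L := L) hclosed (g := g)
      (by rw [hgen]; exact Subgroup.mem_top g) x).mp hx
  have hLc : ∀ (g : G) (x : E), x ∈ C → L (φ g x) = g * L x * g⁻¹ := by
    intro g x hx
    rw [hLx x hx, hLx _ (hCinv g x hx)]
    rfl
  have hXX : properSubracks C = XX φ L C := by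
    ext S
    constructor
    · rintro ⟨h1, h2, h3⟩
      refine ⟨?_, h2, h3⟩
      intro x hx y hy
      rw [hLx x (h3.1 hx), hφ]
      exact h1 x hx y hy
    · rintro ⟨h1, h2, h3⟩
      refine ⟨?_, h2, h3⟩
      intro x hx y hy
      have := h1 x hx y hy
      rw [hLx x (h3.1 hx), hφ] at this
      exact this
  have hUU : Acyc (UU (L '' C)) := by
    rw [← acyc_XX_iff_UU hLc hCinv hgen, ← hXX]
    exact hac
  have hp' : Fact p.Prime := ⟨hp⟩
  have h3 := overgroups_oliver hgen p p (P.subgroupOf G) (1 : G) (⊥ : Subgroup G)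
    ⟨by
      exact hP.comap_of_injective G.subtype Subtype.val_injective, IsPGroup.of_bot, by
      intro x hx
      rwa [one_mul, inv_one, mul_one], by
      intro y hy x hx
      rw [Subgroup.mem_bot] at hy
      rw [hy, one_mul, inv_one, mul_one]
      exact hx, by
      intro y hy
      rw [Subgroup.mem_bot] at hy
      rw [hy, one_mul, inv_one, mul_one]
      exact Subgroup.one_mem _⟩ ((acyclic_iff_acyc _).mpr hUU)
  have hOV : properOver (L '' C) (P.subgroupOf G ⊔ Subgroup.zpowers (1 : G) ⊔ ⊥) = ∅ := by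
    rw [Set.eq_empty_iff_forall_notMem]
    rintro H ⟨hH, hPH, hm⟩
    apply hH
    let K : Subgroup E := H.map G.subtype
    have hmem : ∀ x (hx : x ∈ C), ∃ y ∈ G, y * x * y⁻¹ ∈ K := by
      intro x hx
      obtain ⟨y, hy⟩ := hm (L x) ⟨x, hx, rfl⟩
      rw [hLx x hx] at hy
      exact ⟨y.1, y.2, Subgroup.mem_map_of_mem G.subtype hy⟩
    have hPK : P ≤ K := by
      intro x hx
      have h4 : (⟨x, hPG hx⟩ : G) ∈ H := hPH (Subgroup.mem_sup_left (Subgroup.mem_sup_left
        (Subgroup.mem_subgroupOf.mpr hx)))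
      exact Subgroup.mem_map_of_mem G.subtype h4
    have hCK : (C : Set E) ⊆ K := hK K hPK hmem
    have hGK : G ≤ K := by
      rw [hG, Subgroup.closure_le]; exact hCK
    rw [eq_top_iff]
    intro x _
    obtain ⟨z, hz, hzx⟩ := Subgroup.mem_map.mp (hGK x.2)
    have : z = x := Subtype.ext hzx
    rwa [← this]
  rw [hOV, sum_empty] at h3
  have h1 : (p : ℤ).natAbs ∣ (1 : ℤ).natAbs := Int.natAbs_dvd_natAbs.mpr h3
  simp only [Int.natAbs_natCast, Int.natAbs_one, Nat.dvd_one] at h1
  exact hp.one_lt.ne' h1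

end

end Pool.SubrackLattice
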