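import Pool.Agent.Work.MP_6197f9_h99.Count
import Pool.Agent.Work.MP_6197f9_h7.GroupPart

/-!
# Proper subgroups which meet every class, the conjugation action and a fixed hyperelementary subgroup
-/

namespace Pool.SubrackLattice

open Finset

noncomputable section

open scoped Classical Pointwise

variable {G : Type*} [Group G]

/-- the conjugation action on subgroups -/
@[instance_reducible]
def cjAct (G : Type*) [Group G] : MulAction G (Subgroup G) :=
  MulAction.compHom (Subgroup G) (MulAut.conj : G →* MulAut G)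

attribute [local instance] cjAct

lemma mem_cj (γ x : G) (H : Subgroup G) : x ∈ γ • H ↔ γ⁻¹ * x * γ ∈ H := by
  show x ∈ (MulAut.conj γ) • H ↔ _
  rw [Subgroup.mem_pointwise_smul_iff_inv_smul_mem, ← map_inv, MulAut.smul_def, MulAut.conj_apply,
    inv_inv]

lemma cj_le (γ : G) (H K : Subgroup G) : γ • H ≤ γ • K ↔ H ≤ K := by
  constructor
  · intro h x hx
    have h1 : γ * x * γ⁻¹ ∈ γ • H := by
      rw [mem_cj]; convert hx using 1; group
    have h2 := h h1
    rw [mem_cj] at h2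
    convert h2 using 1; group
  · intro h x hx
    rw [mem_cj] at hx ⊢
    exact h hx

lemma cj_self {γ : G} {H : Subgroup G} (h : γ ∈ H) : γ • H = H := by
  ext x
  rw [mem_cj]
  constructor
  · intro hx
    have := H.mul_mem (H.mul_mem h hx) (H.inv_mem h)
    convert this using 1; group
  · intro hx
    exact H.mul_mem (H.mul_mem (H.inv_mem h) hx) h

lemma card_cj (γ : G) (H : Subgroup G) : Nat.card (γ • H : Subgroup G) = Nat.card H := by
  refine Nat.card_congr ⟨fun x => ⟨γ⁻¹ * x.1 * γ, (mem_cj γ _ H).mp x.2⟩,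
    fun x => ⟨γ * x.1 * γ⁻¹, (mem_cj γ _ H).mpr (by convert x.2 using 1; group)⟩, ?_, ?_⟩
  · intro x; apply Subtype.ext; show γ * (γ⁻¹ * x.1 * γ) * γ⁻¹ = x.1; group
  · intro x; apply Subtype.ext; show γ⁻¹ * (γ * x.1 * γ⁻¹) * γ = x.1; group

/-- proper subgroups which contain `g` and `Q` and a conjugate of every element of `C` -/
def OV (C : Set G) (g : G) (Q : Subgroup G) : Set (Subgroup G) :=
  {H | H ≠ ⊤ ∧ g ∈ H ∧ Q ≤ H ∧ ∀ c ∈ C, ∃ y : G, y * c * y⁻¹ ∈ H}

variable [Finite G]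

lemma actOn_UU (C : Set G) : ActOn G (UU C) := by
  refine ⟨cj_le, ?_, ?_⟩
  · rintro γ H ⟨hH, hm⟩
    refine ⟨?_, ?_⟩
    · intro h
      apply hH
      rw [eq_top_iff]
      intro x _
      have : γ * x * γ⁻¹ ∈ γ • H := by rw [h]; trivial
      rw [mem_cj] at this
      convert this using 1; group
    · intro c hc
      obtain ⟨y, hy⟩ := hm c hc
      refine ⟨γ * y, ?_⟩
      rw [mem_cj]
      convert hy using 1; group
  · intro γ H _ h
    rcases h with h | h
    · exact (Subgroup.eq_of_le_of_card_ge h (card_cj γ H).le).symm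
    · exact Subgroup.eq_of_le_of_card_ge h (card_cj γ H).ge

theorem overgroups {C : Set G} (hgen : Subgroup.closure C = ⊤) (g : G) (q : ℕ)
    [Fact q.Prime] (Q : Subgroup G) (hQ : IsPGroup q Q)
    (hgQ : ∀ x ∈ Q, x * g * x⁻¹ ∈ Subgroup.zpowers g) (h : Acyc (UU C)) :
    (q : ℤ) ∣ ∑ᶠ σ : Fc (OV C g Q), (-1 : ℤ) ^ σ.1.card := by
  have h1 := count_fix (Set.toFinite (UU C)) (actOn_UU C) g q Q hQ hgQ h
  let A : Subgroup G := Subgroup.zpowers g ⊔ Q
  have hgA : g ∈ A := Subgroup.mem_sup_left (Subgroup.mem_zpowers g)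
  have hQA : Q ≤ A := le_sup_right
  -- `H ⊔ A` is proper
  have hprop : ∀ H ∈ fixP (UU C) g Q, H ⊔ A ≠ ⊤ := by
    rintro H ⟨⟨hH, hm⟩, hg, hq⟩ htop
    have h2 : H ⊔ A ≤ MulAction.stabilizer G H := by
      refine sup_le ?_ (sup_le ?_ ?_)
      · intro x hx
        exact cj_self hx
      · rw [Subgroup.zpowers_le]
        exact hg
      · intro x hx
        exact hq x hx
    rw [htop] at h2
    have h3 : ∀ x : G, x • H = H := fun x => h2 (Subgroup.mem_top x)
    apply hH
    rw [eq_top_iff, ← hgen, Subgroup.closure_le]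
    intro c hc
    obtain ⟨y, hy⟩ := hm c hc
    have h4 : c ∈ y⁻¹ • H := by rw [mem_cj, inv_inv]; exact hy
    rw [h3] at h4
    exact h4
  have h2 := sum_closure (P := fixP (UU C) g Q) (Set.toFinite _) (fun H => H ⊔ A) ?_
    (fun H _ => le_sup_left) (fun H _ K _ hHK => sup_le_sup_right hHK A)
    (fun H _ => by show H ⊔ A ⊔ A = H ⊔ A; rw [sup_assoc, sup_idem])
  · have h3 : ({H | H ∈ fixP (UU C) g Q ∧ H ⊔ A = H} : Set (Subgroup G)) = OV C g Q := by
      ext H
      constructor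
      · rintro ⟨⟨⟨hH, hm⟩, _, _⟩, hA⟩
        have hAH : A ≤ H := sup_eq_left.mp hA
        exact ⟨hH, hAH hgA, hQA.trans hAH, hm⟩
      · rintro ⟨hH, hg, hQH, hm⟩
        refine ⟨⟨⟨hH, hm⟩, cj_self hg, fun γ hγ => cj_self (hQH hγ)⟩, sup_eq_left.mpr ?_⟩
        exact sup_le (Subgroup.zpowers_le.mpr hg) hQH
    rw [h3] at h2
    rw [← h2]
    exact h1
  · intro H hH
    refine ⟨⟨hprop H hH, ?_⟩, cj_self (Subgroup.mem_sup_right hgA),
      fun γ hγ => cj_self (Subgroup.mem_sup_right (hQA hγ))⟩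
    intro c hc
    obtain ⟨y, hy⟩ := hH.1.2 c hc
    exact ⟨y, Subgroup.mem_sup_left hy⟩

end

end Pool.SubrackLattice
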