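import Pool.Agent.Work.MP_6197f9_h7.Transport

/-!
# A Lefschetz formula for acyclic order complexes, and actions of `q`-groups
-/

namespace Pool.SubrackLattice

open Finset

noncomputable section

open scoped Classical

/-- an endomorphism which anticommutes with an exact differential has trace `0` -/
theorem trace_zero {V : Type*} [AddCommGroup V] [Module.Free ℤ V] [Module.Finite ℤ V]
    (d T : V →ₗ[ℤ] V) (hdd : ∀ x, d (d x) = 0) (hex : ∀ z, d z = 0 → ∃ w, d w = z)
    (hT : ∀ x, T (d x) = - d (T x)) : LinearMap.trace ℤ V T = 0 := by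
  let d' : V →ₗ[ℤ] LinearMap.ker d := d.codRestrict (LinearMap.ker d)
    (fun x => by rw [LinearMap.mem_ker, hdd])
  have hs : Function.Surjective d' := by
    rintro ⟨z, hz⟩
    obtain ⟨w, hw⟩ := hex z (by simpa using hz)
    exact ⟨w, Subtype.ext hw⟩
  obtain ⟨s, hs'⟩ := Module.projective_lifting_property d' LinearMap.id hs
  have hds : ∀ k : LinearMap.ker d, d (s k) = k := by
    intro k
    have h1 : d' (s k) = k := by
      rw [← LinearMap.comp_apply, hs']; rfl
    exact congrArg Subtype.val h1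
  let p : V →ₗ[ℤ] LinearMap.ker d := (LinearMap.id - s ∘ₗ d').codRestrict (LinearMap.ker d)
    (fun x => by
      rw [LinearMap.mem_ker, LinearMap.sub_apply, map_sub, LinearMap.comp_apply, hds]
      exact sub_self _)
  let h : V →ₗ[ℤ] V := s ∘ₗ p
  have hh : ∀ x, d (h x) + h (d x) = x := by
    intro x
    have h1 : d (h x) = x - s (d' x) := by
      show d (s (p x)) = _
      rw [hds]; rfl
    have h2 : p (d x) = d' x := by
      apply Subtype.ext
      show d x - s (d' (d x)) = d x
      have : d' (d x) = 0 := Subtype.ext (hdd x)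
      rw [this, map_zero, sub_zero]
    have h3 : h (d x) = s (d' x) := by
      show s (p (d x)) = _
      rw [h2]
    rw [h1, h3, sub_add_cancel]
  have e1 : T = T * d * h + T * h * d := by
    ext x
    show T x = T (d (h x)) + T (h (d x))
    rw [← map_add, hh]
  have e2 : T * d = - (d * T) := by
    ext x
    exact hT x
  have e3 : LinearMap.trace ℤ V (T * h * d) = - LinearMap.trace ℤ V (T * d * h) := by
    rw [LinearMap.trace_mul_comm, ← mul_assoc, ← map_neg]
    congr 1
    rw [e2, neg_mul, neg_neg]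
  rw [e1, map_add, e3, add_neg_cancel]

variable {α : Type*} [PartialOrder α]

/-- the sign `(-1) ^ (size)` as an operator on chains -/
def par : (Finset α →₀ ℤ) →ₗ[ℤ] (Finset α →₀ ℤ) :=
  Finsupp.lsum ℤ fun σ : Finset α => ((-1 : ℤ) ^ σ.card) • Finsupp.lsingle σ

omit [PartialOrder α] in
lemma par_E (σ : Finset α) : par (E σ) = ((-1 : ℤ) ^ σ.card) • E σ := by
  unfold par E
  rw [Finsupp.lsum_single]; rfl

lemma par_mem {P : Set α} {w : Finset α →₀ ℤ} (hw : w ∈ Ch P) : par w ∈ Ch P := by
  refine map_mem par (Ch P) ?_ w hw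
  intro σ hσ
  rw [par_E]
  exact Submodule.smul_mem _ _ (E_mem hσ)

lemma par_boundary {P : Set α} {w : Finset α →₀ ℤ} (hw : w ∈ Ch P) :
    par (boundary w) = - boundary (par w) := by
  refine eq_on (s := {σ | IsFace P σ}) (par ∘ₗ boundary) (-(boundary ∘ₗ par)) ?_ w hw
  intro σ hσ
  simp only [LinearMap.comp_apply, LinearMap.neg_apply]
  rw [par_E, map_smul, boundary_E, map_sum, ← smul_neg, ← Finset.sum_neg_distrib,
    Finset.smul_sum]
  apply Finset.sum_congr rfl
  intro x hx
  rw [map_smul, par_E, ← Finset.card_erase_add_one hx, pow_succ]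
  module

/-- the faces of `P` -/
abbrev Fc (P : Set α) := {σ : Finset α // IsFace P σ}

lemma finite_Fc {P : Set α} (hfin : P.Finite) : Finite (Fc P) := by
  have : Finite {σ : Finset α // σ ∈ hfin.toFinset.powerset} := inferInstance
  refine Finite.of_injective (fun σ : Fc P =>
    (⟨σ.1, Finset.mem_powerset.mpr fun x hx => hfin.mem_toFinset.mpr (σ.2.1 x hx)⟩ :
      {σ : Finset α // σ ∈ hfin.toFinset.powerset})) ?_
  intro a b h
  exact Subtype.ext (congrArg (fun t => t.1) h)

/-- Lefschetz formula for an order automorphism of a finite poset with acyclic order complex -/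
theorem lefschetz {P : Set α} [Fintype (Fc P)] (h : Acyc P) {e : α → α}
    (he : EmbOn e P P) :
    ∑ σ : Fc P, (if σ.1.image e = σ.1 then (-1 : ℤ) ^ σ.1.card else 0) = 0 := by
  let b : Module.Basis (Fc P) ℤ (Ch P) :=
    Module.Basis.ofRepr (Finsupp.supportedEquivFinsupp {σ | IsFace P σ})
  have hb : ∀ i : Fc P, ((b i : Ch P) : Finset α →₀ ℤ) = E i.1 := by
    intro i
    have h1 : b i = (Finsupp.supportedEquivFinsupp {σ | IsFace P σ}).symm
        (Finsupp.single i (1 : ℤ)) := rfl
    rw [h1]
    exact Finsupp.supportedEquivFinsupp_symm_single _ _ _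
  have hr : ∀ (x : Ch P) (i : Fc P), b.repr x i = (x : Finset α →₀ ℤ) i.1 := fun x i => rfl
  have : Module.Free ℤ (Ch P) := Module.Free.of_basis b
  have : Module.Finite ℤ (Ch P) := Module.Finite.of_basis b
  let d : Ch P →ₗ[ℤ] Ch P := boundary.restrict fun w hw => boundary_mem hw
  let T0 : (Finset α →₀ ℤ) →ₗ[ℤ] (Finset α →₀ ℤ) := par ∘ₗ push e
  have hT0 : ∀ w ∈ Ch P, T0 w ∈ Ch P := fun w hw => par_mem (push_mem he hw)
  let T : Ch P →ₗ[ℤ] Ch P := T0.restrict hT0
  have key : LinearMap.trace ℤ (Ch P) T = 0 := by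
    refine trace_zero d T ?_ ?_ ?_
    · rintro ⟨w, hw⟩
      exact Subtype.ext (boundary_boundary hw)
    · rintro ⟨z, hz⟩ hz0
      obtain ⟨w, hw, hw'⟩ := h z hz (congrArg Subtype.val hz0)
      exact ⟨⟨w, hw⟩, Subtype.ext hw'⟩
    · rintro ⟨w, hw⟩
      apply Subtype.ext
      show par (push e (boundary w)) = - boundary (par (push e w))
      rw [← boundary_push he hw, par_boundary (push_mem he hw)]
  rw [LinearMap.trace_eq_matrix_trace ℤ b, Matrix.trace] at key
  refine Eq.trans (Finset.sum_congr rfl ?_) key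
  intro σ _
  rw [Matrix.diag_apply, LinearMap.toMatrix_apply, hr]
  have h2 : ((T (b σ) : Ch P) : Finset α →₀ ℤ) = ((-1 : ℤ) ^ (σ.1.image e).card) •
      E (σ.1.image e) := by
    show par (push e ((b σ : Ch P) : Finset α →₀ ℤ)) = _
    rw [hb, push_E, par_E]
  rw [h2, Finsupp.smul_apply]
  unfold E
  rw [Finsupp.single_apply]
  split_ifs with h3
  · rw [h3]; simp
  · simp

end

end Pool.SubrackLattice
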