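import Pool.Agent.Work.MP_6197f9_h99.LinK

/-!
# Matrices of determinant one with exactly one invariant subspace
-/

namespace Pool.SubrackLattice

noncomputable section

open scoped Classical
open Matrix

/-- an element of norm one which generates the extension -/
lemma irr_el (F : Type*) [Field F] [Finite F] (K : Type*) [Field K] [Finite K] [Algebra F K] :
    ∃ γ : K, LinearMap.det (Algebra.lmul F K γ) = 1 ∧
      ∀ W : Submodule F K, (∀ w ∈ W, γ * w ∈ W) → W = ⊥ ∨ W = ⊤ := by
  have hfF : Fintype F := Fintype.ofFinite F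
  have hfd : Module.Finite F K := Module.Finite.of_finite
  obtain ⟨α, hα⟩ := IsCyclic.exists_generator (α := Kˣ)
  set q := Nat.card F with hq
  have hq2 : 2 ≤ q := Finite.one_lt_card
  set m := Module.finrank F K with hm
  have hm1 : 1 ≤ m := Module.finrank_pos
  have hKc : Nat.card K = q ^ m := Module.natCard_eq_pow_finrank
  have hKu : Nat.card Kˣ = q ^ m - 1 := by rw [Nat.card_units, hKc]
  have hoα : orderOf α = q ^ m - 1 := by rw [orderOf_eq_card_of_forall_mem_zpowers hα, hKu]
  refine ⟨(α : K) ^ (q - 1), ?_, ?_⟩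
  · rw [map_pow, map_pow]
    have h1 : LinearMap.det (Algebra.lmul F K (α : K)) ≠ 0 :=
      (LinearMap.isUnit_det _ (α.isUnit.map (Algebra.lmul F K))).ne_zero
    have h2 := FiniteField.pow_card_sub_one_eq_one _ h1
    rwa [← Nat.card_eq_fintype_card, ← hq] at h2
  · intro W hW
    by_contra hcon
    push Not at hcon
    obtain ⟨hb, ht⟩ := hcon
    obtain ⟨w, hw, hw0⟩ := (Submodule.ne_bot_iff W).mp hb
    have hlt : Module.finrank F W < m := Submodule.finrank_lt ht
    have hWc : Nat.card W = q ^ Module.finrank F W := Module.natCard_eq_pow_finrank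
    have hWle : Nat.card W ≤ q ^ (m - 1) := by
      rw [hWc]
      exact Nat.pow_le_pow_right (by omega) (by omega)
    set β : Kˣ := α ^ (q - 1) with hβ
    have hpow : ∀ i : ℕ, (β : K) ^ i * w ∈ W := by
      intro i
      induction i with
      | zero => rwa [pow_zero, one_mul]
      | succ i ih =>
        rw [pow_succ', mul_assoc]
        have := hW _ ih
        rwa [← Units.val_pow_eq_pow_val, ← hβ] at this
    have hinj : Function.Injective (fun i : Fin (orderOf β) => (⟨(β : K) ^ (i : ℕ) * w, hpow i⟩ : W)) := by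
      intro i j hij
      have h1 : (β : K) ^ (i : ℕ) * w = (β : K) ^ (j : ℕ) * w := congrArg Subtype.val hij
      have h2 := mul_right_cancel₀ hw0 h1
      have h3 : β ^ (i : ℕ) = β ^ (j : ℕ) := by
        apply Units.ext
        rw [Units.val_pow_eq_pow_val, Units.val_pow_eq_pow_val]
        exact h2
      exact Fin.ext (pow_injOn_Iio_orderOf (Set.mem_Iio.mpr i.2) (Set.mem_Iio.mpr j.2) h3)
    have hns : ¬ Function.Surjective
        (fun i : Fin (orderOf β) => (⟨(β : K) ^ (i : ℕ) * w, hpow i⟩ : W)) := by
      intro hs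
      obtain ⟨i, hi⟩ := hs 0
      have h1 : (β : K) ^ (i : ℕ) * w = 0 := congrArg Subtype.val hi
      exact hw0 ((mul_eq_zero.mp h1).resolve_left (pow_ne_zero _ β.ne_zero))
    have hcard : orderOf β < Nat.card W := by
      have hle := Nat.card_le_card_of_injective _ hinj
      rw [Nat.card_eq_fintype_card, Fintype.card_fin] at hle
      rcases Nat.lt_or_ge (orderOf β) (Nat.card W) with h | h
      · exact h
      · exfalso
        apply hns
        have hbij := (Nat.bijective_iff_injective_and_card _).mpr
          ⟨hinj, by rw [Nat.card_eq_fintype_card, Fintype.card_fin]; omega⟩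
        exact hbij.2
    have hoβ : orderOf β * (q - 1) ≥ q ^ m - 1 := by
      have h1 : orderOf α ∣ (q - 1) * orderOf β := by
        apply orderOf_dvd_of_pow_eq_one
        rw [pow_mul, ← hβ, pow_orderOf_eq_one]
      rw [hoα] at h1
      rw [mul_comm]
      exact Nat.le_of_dvd (Nat.mul_pos (by omega) (orderOf_pos β)) h1
    have h5 : orderOf β + 1 ≤ q ^ (m - 1) := le_trans hcard hWle
    have h6 : q ^ m = q ^ (m - 1) * q := by
      rw [← pow_succ]; congr 1; omega
    obtain ⟨r, hr⟩ : ∃ r, q = r + 2 := ⟨q - 2, by omega⟩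
    rw [h6] at hoβ
    rw [hr] at hoβ h5
    have h7 : 1 ≤ (r + 2) ^ (m - 1) := Nat.one_le_pow _ _ (by omega)
    generalize (r + 2) ^ (m - 1) = Q at hoβ h5 h7
    generalize orderOf β = o at hoβ h5
    have h8 : r + 2 - 1 = r + 1 := by omega
    rw [h8] at hoβ
    have h9 : o * (r + 1) + (r + 1) ≤ Q * (r + 1) := by
      rw [← Nat.succ_mul]
      exact Nat.mul_le_mul_right _ h5
    have h10 : Q * (r + 2) = Q * (r + 1) + Q := by ring
    rw [h10] at hoβ
    have h11 : Q + r ≥ 1 + r := by omega
    omega

end

end Pool.SubrackLattice
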