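import Pool.Agent.Work.MP_6197f9_h99.LinQ

/-!
# Irreducible groups of matrices which contain all transvections of a certain kind
-/

namespace Pool.SubrackLattice

noncomputable section

open scoped Classical
open Matrix

variable {F : Type*} [Field F] {n : ℕ}

/-- the action of an invertible matrix on vectors -/
def ap (x : GL (Fin n) F) (v : Fin n → F) : Fin n → F := (x : Matrix (Fin n) (Fin n) F) *ᵥ v

lemma ap_mul (x y : GL (Fin n) F) (v : Fin n → F) : ap (x * y) v = ap x (ap y v) := by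
  unfold ap; rw [mulVec_mulVec, Units.val_mul]

lemma ap_one (v : Fin n → F) : ap (1 : GL (Fin n) F) v = v := by
  unfold ap; rw [Units.val_one, one_mulVec]

lemma ap_inv_ap (x : GL (Fin n) F) (v : Fin n → F) : ap x⁻¹ (ap x v) = v := by
  rw [← ap_mul, inv_mul_cancel, ap_one]

lemma ap_ap_inv (x : GL (Fin n) F) (v : Fin n → F) : ap x (ap x⁻¹ v) = v := by
  rw [← ap_mul, mul_inv_cancel, ap_one]

lemma ap_add (x : GL (Fin n) F) (v w : Fin n → F) : ap x (v + w) = ap x v + ap x w :=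
  mulVec_add _ _ _

lemma ap_sub (x : GL (Fin n) F) (v w : Fin n → F) : ap x (v - w) = ap x v - ap x w :=
  mulVec_sub _ _ _

lemma ap_smul (x : GL (Fin n) F) (a : F) (v : Fin n → F) : ap x (a • v) = a • ap x v :=
  mulVec_smul _ _ _

lemma ap_zero (x : GL (Fin n) F) : ap x 0 = 0 := mulVec_zero _

lemma ap_inj {x : GL (Fin n) F} {v w : Fin n → F} (h : ap x v = ap x w) : v = w := by
  rw [← ap_inv_ap x v, h, ap_inv_ap]

lemma ap_ext {x y : GL (Fin n) F} (h : ∀ v, ap x v = ap y v) : x = y := by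
  apply Units.ext
  apply Matrix.toLin'.injective
  exact LinearMap.ext h

lemma ap_tv (w f : Fin n → F) (h : f ⬝ᵥ w = 0) (v : Fin n → F) :
    ap (tv w f h) v = v + (f ⬝ᵥ v) • w := by
  unfold ap
  rw [tv_val, add_mulVec, one_mulVec, vecMulVec_mulVec]
  simp

/-- the functional `f ∘ x` -/
def fo (f : Fin n → F) (x : GL (Fin n) F) : Fin n → F := f ᵥ* (x : Matrix (Fin n) (Fin n) F)

lemma fo_ap (f : Fin n → F) (x : GL (Fin n) F) (v : Fin n → F) :
    fo f x ⬝ᵥ v = f ⬝ᵥ ap x v := by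
  unfold fo ap; rw [dotProduct_mulVec]

lemma f_ext {f g : Fin n → F} (h : ∀ v, f ⬝ᵥ v = g ⬝ᵥ v) : f = g := by
  funext i
  have := h (Pi.single i 1)
  rwa [dotProduct_single, dotProduct_single, mul_one, mul_one] at this

lemma tv_cj (x : GL (Fin n) F) (w f : Fin n → F) (h : f ⬝ᵥ w = 0)
    (h' : fo f x⁻¹ ⬝ᵥ ap x w = 0) : x * tv w f h * x⁻¹ = tv (ap x w) (fo f x⁻¹) h' := by
  apply ap_ext
  intro v
  rw [ap_mul, ap_mul, ap_tv, ap_tv, ap_add, ap_ap_inv, ap_smul, fo_ap]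

lemma ex_f {W : Submodule F (Fin n → F)} {b : Fin n → F} (hb : b ∉ W) :
    ∃ f : Fin n → F, (∀ w ∈ W, f ⬝ᵥ w = 0) ∧ f ⬝ᵥ b = 1 := by
  obtain ⟨φ, hφ, hle⟩ := Submodule.exists_le_ker_of_notMem hb
  obtain ⟨f, rfl⟩ := (dotProductEquiv F (Fin n)).surjective φ
  have h2 : f ⬝ᵥ b ≠ 0 := hφ
  refine ⟨(f ⬝ᵥ b)⁻¹ • f, fun w hw => ?_, ?_⟩
  · have h1 : f ⬝ᵥ w = 0 := by
      have := hle hw
      rw [LinearMap.mem_ker] at this
      exact this
    rw [smul_dotProduct, h1, smul_zero]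
  · rw [smul_dotProduct, smul_eq_mul, inv_mul_cancel₀ h2]

lemma inv_stable [Finite F] {x : GL (Fin n) F} {W : Submodule F (Fin n → F)}
    (h : ∀ w ∈ W, ap x w ∈ W) : ∀ w ∈ W, ap x⁻¹ w ∈ W := by
  intro w hw
  have h1 : Function.Injective (fun v : W => (⟨ap x v.1, h v.1 v.2⟩ : W)) := by
    intro a b hab
    apply Subtype.ext
    exact ap_inj (congrArg Subtype.val hab)
  obtain ⟨v, hv⟩ := Finite.surjective_of_injective h1 ⟨w, hw⟩
  have h2 : ap x v.1 = w := congrArg Subtype.val hv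
  rw [← h2, ap_inv_ap]
  exact v.2

section core

variable {K : Subgroup (GL (Fin n) F)} {W₀ : Submodule F (Fin n → F)}

/-- the union of the images of `W₀` -/
def ZS (hU : ∀ w ∈ W₀, ∀ f : Fin n → F, (∀ w' ∈ W₀, f ⬝ᵥ w' = 0) → ∀ h : f ⬝ᵥ w = 0,
    tv w f h ∈ K) : Submodule F (Fin n → F) where
  carrier := {w | ∃ x ∈ K, ap x w ∈ W₀}
  zero_mem' := ⟨1, K.one_mem, by rw [ap_one]; exact W₀.zero_mem⟩
  smul_mem' := by
    rintro a w ⟨x, hx, hw⟩
    exact ⟨x, hx, by rw [ap_smul]; exact W₀.smul_mem a hw⟩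
  add_mem' := by
    rintro a b ⟨x, hx, ha⟩ ⟨y, hy, hb⟩
    by_cases hb' : ap x b ∈ W₀
    · exact ⟨x, hx, by rw [ap_add]; exact W₀.add_mem ha hb'⟩
    · obtain ⟨f, hf, hfb⟩ := ex_f hb'
      have ht := hU _ ha f hf (hf _ ha)
      refine ⟨y * x⁻¹ * (tv (ap x a) f (hf _ ha))⁻¹ * x,
        K.mul_mem (K.mul_mem (K.mul_mem hy (K.inv_mem hx)) (K.inv_mem ht)) hx, ?_⟩
      have h1 : ap x (a + b) = ap (tv (ap x a) f (hf _ ha)) (ap x b) := by
        rw [ap_tv, hfb, one_smul, ap_add, add_comm]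
      rw [ap_mul, h1, ap_mul, ap_inv_ap, ap_mul, ap_inv_ap]
      exact hb

/-- the union of the images of the annihilator of `W₀` -/
def YS (hU : ∀ w ∈ W₀, ∀ f : Fin n → F, (∀ w' ∈ W₀, f ⬝ᵥ w' = 0) → ∀ h : f ⬝ᵥ w = 0,
    tv w f h ∈ K) : Submodule F (Fin n → F) where
  carrier := {f | ∃ x ∈ K, ∀ w, ap x w ∈ W₀ → f ⬝ᵥ w = 0}
  zero_mem' := ⟨1, K.one_mem, fun w _ => zero_dotProduct w⟩
  smul_mem' := by
    rintro a f ⟨x, hx, hf⟩
    exact ⟨x, hx, fun w hw => by rw [smul_dotProduct, hf w hw, smul_zero]⟩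
  add_mem' := by
    rintro f f' ⟨x, hx, hf⟩ ⟨y, hy, hf'⟩
    by_cases hc : ∀ w, ap x w ∈ W₀ → f' ⬝ᵥ w = 0
    · exact ⟨x, hx, fun w hw => by rw [add_dotProduct, hf w hw, hc w hw, add_zero]⟩
    · push Not at hc
      obtain ⟨w₁, hw₁, hne⟩ := hc
      have hf1 : ∀ w ∈ W₀, fo f x⁻¹ ⬝ᵥ w = 0 := by
        intro w hw
        rw [fo_ap]
        exact hf _ (by rw [ap_ap_inv]; exact hw)
      have hw2 : (f' ⬝ᵥ w₁)⁻¹ • ap x w₁ ∈ W₀ := W₀.smul_mem _ hw₁
      have ht := hU _ hw2 (fo f x⁻¹) hf1 (hf1 _ hw2)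
      refine ⟨y * x⁻¹ * tv _ (fo f x⁻¹) (hf1 _ hw2) * x,
        K.mul_mem (K.mul_mem (K.mul_mem hy (K.inv_mem hx)) ht) hx, ?_⟩
      intro w hw
      rw [ap_mul, ap_mul, ap_tv, ap_mul] at hw
      have h1 := hf' _ hw
      rw [ap_add, ap_inv_ap, ap_smul, ap_smul, ap_inv_ap, fo_ap, ap_inv_ap, dotProduct_add,
        dotProduct_smul, dotProduct_smul, smul_eq_mul, smul_eq_mul, inv_mul_cancel₀ hne,
        mul_one] at h1
      rw [add_dotProduct, add_comm]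
      exact h1

/-- an irreducible group which contains all transvections with centre in `W₀` and axis
containing `W₀` contains all transvections -/
theorem all_tv [Finite F] (hU : ∀ w ∈ W₀, ∀ f : Fin n → F, (∀ w' ∈ W₀, f ⬝ᵥ w' = 0) →
      ∀ h : f ⬝ᵥ w = 0, tv w f h ∈ K)
    (h0 : W₀ ≠ ⊥) (h1 : W₀ ≠ ⊤)
    (hirr : ∀ W : Submodule F (Fin n → F), (∀ x ∈ K, ∀ w ∈ W, ap x w ∈ W) → W = ⊥ ∨ W = ⊤)
    (w : Fin n → F) : Om K w := by
  have hZ : ∀ w : Fin n → F, ∃ x ∈ K, ap x w ∈ W₀ := by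
    rcases hirr (ZS hU) (by
      rintro x hx w ⟨y, hy, hw⟩
      exact ⟨y * x⁻¹, K.mul_mem hy (K.inv_mem hx), by rw [ap_mul, ap_inv_ap]; exact hw⟩) with h | h
    · exfalso
      apply h0
      rw [eq_bot_iff, ← h]
      intro w hw
      exact ⟨1, K.one_mem, by rw [ap_one]; exact hw⟩
    · intro w
      have : w ∈ ZS hU := by rw [h]; exact Submodule.mem_top
      exact this
  have hY : ∀ f : Fin n → F, ∃ x ∈ K, ∀ w, ap x w ∈ W₀ → f ⬝ᵥ w = 0 := by
    by_contra hcon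
    push Not at hcon
    obtain ⟨f, hf⟩ := hcon
    have hfY : f ∉ YS hU := by
      rintro ⟨x, hx, hw⟩
      obtain ⟨w, hw1, hw2⟩ := hf x hx
      exact hw2 (hw w hw1)
    obtain ⟨v, hv, hvf⟩ := ex_f hfY
    let W : Submodule F (Fin n → F) :=
      { carrier := {w | ∀ f ∈ YS hU, f ⬝ᵥ w = 0}
        zero_mem' := fun f _ => dotProduct_zero f
        add_mem' := fun {a b} ha hb f hf => by rw [dotProduct_add, ha f hf, hb f hf, add_zero]
        smul_mem' := fun a w hw f hf => by rw [dotProduct_smul, hw f hf, smul_zero] }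
    have hvW : v ∈ W := fun f hf => by rw [dotProduct_comm]; exact hv f hf
    rcases hirr W (by
      intro x hx w hw f hf
      rw [← fo_ap]
      apply hw
      obtain ⟨z, hz, hzf⟩ := hf
      exact ⟨z * x, K.mul_mem hz hx, fun u hu => by
        rw [fo_ap]
        exact hzf _ (by rw [← ap_mul]; exact hu)⟩) with h | h
    · rw [h, Submodule.mem_bot] at hvW
      rw [hvW, zero_dotProduct] at hvf
      exact zero_ne_one hvf
    · obtain ⟨b, hb⟩ : ∃ b, b ∉ W₀ := by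
        by_contra hcon
        push Not at hcon
        exact h1 (eq_top_iff.mpr fun x _ => hcon x)
      obtain ⟨g, hg, hgb⟩ := ex_f hb
      have hbW : b ∈ W := by rw [h]; exact Submodule.mem_top
      have : g ⬝ᵥ b = 0 := hbW g ⟨1, K.one_mem, fun u hu => hg u (by rwa [ap_one] at hu)⟩
      rw [this] at hgb
      exact zero_ne_one hgb
  have key : ∀ w ∈ W₀, ∀ (f : Fin n → F) (h : f ⬝ᵥ w = 0), tv w f h ∈ K := by
    intro w hw f h
    by_cases hf : ∀ w' ∈ W₀, f ⬝ᵥ w' = 0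
    · exact hU w hw f hf h
    push Not at hf
    obtain ⟨w₁, hw₁, hne⟩ := hf
    obtain ⟨z, hz, hzf⟩ := hY f
    have hz1 : ap z w₁ ∉ W₀ := fun hcon => hne (hzf _ hcon)
    obtain ⟨u, hu, hu'⟩ : ∃ u ∈ W₀, ap z⁻¹ u ∉ W₀ := by
      by_contra hcon
      push Not at hcon
      have := inv_stable hcon w₁ hw₁
      rw [inv_inv] at this
      exact hz1 this
    obtain ⟨f₀, hf₀, hf₀'⟩ := ex_f hu'
    have hfu : f ⬝ᵥ ap z⁻¹ u = 0 := hzf _ (by rw [ap_ap_inv]; exact hu)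
    have hfz : ∀ v ∈ W₀, fo f z⁻¹ ⬝ᵥ v = 0 := by
      intro v hv
      rw [fo_ap]
      exact hzf _ (by rw [ap_ap_inv]; exact hv)
    -- the transvection with centre `z⁻¹ u`
    have ht' : tv (ap z⁻¹ u) f hfu ∈ K := by
      have h2 := hU u hu (fo f z⁻¹) hfz (hfz u hu)
      have h3 : z⁻¹ * tv u (fo f z⁻¹) (hfz u hu) * z = tv (ap z⁻¹ u) f hfu := by
        apply ap_ext
        intro v
        rw [ap_mul, ap_mul, ap_tv, ap_tv, ap_add, ap_inv_ap, ap_smul, fo_ap, ap_inv_ap]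
      rw [← h3]
      exact K.mul_mem (K.mul_mem (K.inv_mem hz) h2) hz
    have ht₀ := hU w hw f₀ hf₀ (hf₀ w hw)
    have h4 : (tv w f₀ (hf₀ w hw)) * tv (ap z⁻¹ u) f hfu * (tv w f₀ (hf₀ w hw))⁻¹ *
        (tv (ap z⁻¹ u) f hfu)⁻¹ = tv w f h := by
      rw [mul_inv_eq_iff_eq_mul, mul_inv_eq_iff_eq_mul]
      apply ap_ext
      intro v
      simp only [ap_mul, ap_tv, dotProduct_add, dotProduct_smul, h, hfu, hf₀ w hw, hf₀', smul_eq_mul,
        mul_zero, mul_one, add_zero, add_smul, smul_add]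
      abel
    rw [← h4]
    exact K.mul_mem (K.mul_mem (K.mul_mem ht₀ ht') (K.inv_mem ht₀)) (K.inv_mem ht')
  intro f h
  obtain ⟨x, hx, hw⟩ := hZ w
  have h2 : fo f x⁻¹ ⬝ᵥ ap x w = 0 := by rw [fo_ap, ap_inv_ap]; exact h
  have h3 := key _ hw (fo f x⁻¹) h2
  rw [← tv_cj x w f h h2] at h3
  have h4 := K.mul_mem (K.mul_mem (K.inv_mem hx) h3) hx
  have h5 : x⁻¹ * (x * tv w f h * x⁻¹) * x = tv w f h := by group
  rwa [h5] at h4

end core

end

end Pool.SubrackLattice
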