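import Pool.Agent.Work.MP_6197f9_h99.GenCrit

/-!
# Quandles of invertible matrices
-/

namespace Pool.SubrackLattice

noncomputable section

open scoped Classical
open Matrix

variable {F : Type*} [Field F] {n : ℕ}

/-- the transvection `x ↦ x + f(x) w` -/
def tv (w f : Fin n → F) (h : f ⬝ᵥ w = 0) : GL (Fin n) F where
  val := 1 + vecMulVec w f
  inv := 1 - vecMulVec w f
  val_inv := by
    have h1 : vecMulVec w f * vecMulVec w f = 0 := by
      rw [vecMulVec_mul_vecMulVec, h, zero_smul, vecMulVec_zero]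
    rw [add_mul, mul_sub, mul_sub, h1, one_mul, one_mul, mul_one]
    abel
  inv_val := by
    have h1 : vecMulVec w f * vecMulVec w f = 0 := by
      rw [vecMulVec_mul_vecMulVec, h, zero_smul, vecMulVec_zero]
    rw [sub_mul, mul_add, mul_add, h1, one_mul, one_mul, mul_one]
    abel

lemma tv_val (w f : Fin n → F) (h : f ⬝ᵥ w = 0) :
    (tv w f h : Matrix (Fin n) (Fin n) F) = 1 + vecMulVec w f := rfl

lemma tv_conj (g : GL (Fin n) F) (w f : Fin n → F) (h : f ⬝ᵥ ((g : Matrix (Fin n) (Fin n) F) *ᵥ w) = 0)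
    (h' : (f ᵥ* (g : Matrix (Fin n) (Fin n) F)) ⬝ᵥ w = 0) :
    tv ((g : Matrix (Fin n) (Fin n) F) *ᵥ w) f h =
      g * tv w (f ᵥ* (g : Matrix (Fin n) (Fin n) F)) h' * g⁻¹ := by
  apply Units.ext
  rw [Units.val_mul, Units.val_mul, tv_val, tv_val, mul_add, mul_one, add_mul, Units.mul_inv,
    mul_vecMulVec, vecMulVec_mul, vecMul_vecMul, Units.mul_inv, vecMul_one]

/-- `K` contains all transvections with centre `w` -/
def Om (K : Subgroup (GL (Fin n) F)) (w : Fin n → F) : Prop :=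
  ∀ (f : Fin n → F) (h : f ⬝ᵥ w = 0), tv w f h ∈ K

lemma om_conj {K : Subgroup (GL (Fin n) F)} {g : GL (Fin n) F} (hg : g ∈ K) {w : Fin n → F}
    (hw : Om K w) : Om K ((g : Matrix (Fin n) (Fin n) F) *ᵥ w) := by
  intro f h
  have h' : (f ᵥ* (g : Matrix (Fin n) (Fin n) F)) ⬝ᵥ w = 0 := by
    rw [← dotProduct_mulVec]; exact h
  rw [tv_conj g w f h h']
  exact K.mul_mem (K.mul_mem hg (hw _ h')) (K.inv_mem hg)

lemma om_smul {K : Subgroup (GL (Fin n) F)} (a : F) {w : Fin n → F}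
    (hw : Om K w) : Om K (a • w) := by
  intro f h
  have h' : (a • f) ⬝ᵥ w = 0 := by
    rw [smul_dotProduct, ← dotProduct_smul]; exact h
  have h1 : tv (a • w) f h = tv w (a • f) h' := by
    apply Units.ext
    rw [tv_val, tv_val, smul_vecMulVec, vecMulVec_smul]
  rw [h1]
  exact hw _ h'

lemma om_add {K : Subgroup (GL (Fin n) F)} {w w' : Fin n → F}
    (hw : Om K w) (hw' : Om K w') : Om K (w' + w) := by
  by_cases hs : w' ∈ Submodule.span F {w}
  · obtain ⟨a, rfl⟩ := Submodule.mem_span_singleton.mp hs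
    have : a • w + w = (a + 1) • w := by rw [add_smul, one_smul]
    rw [this]
    exact om_smul _ hw
  · obtain ⟨φ, hφ, hle⟩ := Submodule.exists_le_ker_of_notMem hs
    obtain ⟨f, rfl⟩ := (dotProductEquiv F (Fin n)).surjective φ
    have h1 : f ⬝ᵥ w = 0 := by
      have := hle (Submodule.mem_span_singleton_self w)
      rw [LinearMap.mem_ker] at this
      exact this
    have h2 : f ⬝ᵥ w' ≠ 0 := hφ
    have h3 : ((f ⬝ᵥ w')⁻¹ • f) ⬝ᵥ w = 0 := by
      rw [smul_dotProduct, h1, smul_zero]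
    have h4 := om_conj (hw _ h3) hw'
    have h5 : (tv w ((f ⬝ᵥ w')⁻¹ • f) h3 : Matrix (Fin n) (Fin n) F) *ᵥ w' = w' + w := by
      rw [tv_val, add_mulVec, one_mulVec, vecMulVec_mulVec, smul_dotProduct, smul_eq_mul,
        inv_mul_cancel₀ h2]
      simp
    rw [h5] at h4
    exact h4

/-- the module of the centres -/
def OmS (K : Subgroup (GL (Fin n) F)) {w₀ : Fin n → F} (h₀ : Om K w₀) :
    Submodule F (Fin n → F) where
  carrier := {w | Om K w}
  add_mem' := fun {a b} ha hb => om_add hb ha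
  zero_mem' := by
    have := om_smul 0 h₀
    rw [zero_smul] at this
    exact this
  smul_mem' := fun a w hw => om_smul a hw

lemma om_all {K : Subgroup (GL (Fin n) F)} {w₀ : Fin n → F} (h₀ : Om K w₀) (hne : w₀ ≠ 0)
    {c y : GL (Fin n) F} (hc : ∀ W : Submodule F (Fin n → F),
      (∀ w ∈ W, (c : Matrix (Fin n) (Fin n) F) *ᵥ w ∈ W) → W = ⊥ ∨ W = ⊤)
    (hy : y * c * y⁻¹ ∈ K) (w : Fin n → F) : Om K w := by
  have key : ∀ (a b : GL (Fin n) F) (x : Fin n → F), (a : Matrix (Fin n) (Fin n) F) *ᵥ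
      ((b : Matrix (Fin n) (Fin n) F) *ᵥ x) = ((a * b : GL (Fin n) F) : Matrix (Fin n) (Fin n) F) *ᵥ x := by
    intro a b x
    rw [mulVec_mulVec, Units.val_mul]
  have key1 : ∀ x : Fin n → F, ((1 : GL (Fin n) F) : Matrix (Fin n) (Fin n) F) *ᵥ x = x := by
    intro x
    rw [Units.val_one, one_mulVec]
  rcases hc ((OmS K h₀).comap (mulVecLin (y : Matrix (Fin n) (Fin n) F))) (by
    intro x hx
    rw [Submodule.mem_comap, mulVecLin_apply] at hx ⊢
    have h1 : Om K (((y * c * y⁻¹ : GL (Fin n) F) : Matrix (Fin n) (Fin n) F) *ᵥ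
      ((y : Matrix (Fin n) (Fin n) F) *ᵥ x)) := om_conj hy hx
    rw [key, inv_mul_cancel_right, ← key] at h1
    exact h1) with h | h
  · exfalso
    apply hne
    have h1 : ((y⁻¹ : GL (Fin n) F) : Matrix (Fin n) (Fin n) F) *ᵥ w₀ ∈
        (OmS K h₀).comap (mulVecLin (y : Matrix (Fin n) (Fin n) F)) := by
      rw [Submodule.mem_comap, mulVecLin_apply, key, mul_inv_cancel, key1]
      exact h₀
    rw [h, Submodule.mem_bot] at h1
    have h2 := congrArg (fun x => (y : Matrix (Fin n) (Fin n) F) *ᵥ x) h1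
    simp only [key, mul_inv_cancel, key1, mulVec_zero] at h2
    exact h2
  · have h1 : ((y⁻¹ : GL (Fin n) F) : Matrix (Fin n) (Fin n) F) *ᵥ w ∈
        (OmS K h₀).comap (mulVecLin (y : Matrix (Fin n) (Fin n) F)) := by
      rw [h]; exact Submodule.mem_top
    rw [Submodule.mem_comap, mulVecLin_apply, key, mul_inv_cancel, key1] at h1
    exact h1

lemma list_mem {N : Subgroup (GL (Fin n) F)} (hN : ∀ w : Fin n → F, Om N w)
    (L : List (TransvectionStruct (Fin n) F)) :
    ∃ u ∈ N, (u : Matrix (Fin n) (Fin n) F) = (L.map TransvectionStruct.toMatrix).prod := by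
  induction L with
  | nil => exact ⟨1, N.one_mem, by simp⟩
  | cons t L ih =>
    obtain ⟨u, hu, hv⟩ := ih
    have h0 : (Pi.single t.j 1 : Fin n → F) ⬝ᵥ (t.c • Pi.single t.i 1 : Fin n → F) = 0 := by
      rw [dotProduct_smul, single_dotProduct, one_mul, Pi.single_eq_of_ne t.hij.symm, smul_zero]
    refine ⟨tv (t.c • Pi.single t.i 1) (Pi.single t.j 1) h0 * u, N.mul_mem (hN _ _ _) hu, ?_⟩
    rw [Units.val_mul, hv, List.map_cons, List.prod_cons, tv_val, smul_vecMulVec,
      ← single_eq_single_vecMulVec_single, smul_single, smul_eq_mul, mul_one]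
    rfl

lemma exists_diag {N : Subgroup (GL (Fin n) F)} (hN : ∀ w : Fin n → F, Om N w)
    (g : GL (Fin n) F) : ∃ u ∈ N, ∃ v ∈ N, ∃ d : GL (Fin n) F, ∃ D : Fin n → F,
      (d : Matrix (Fin n) (Fin n) F) = diagonal D ∧ g = u * d * v := by
  obtain ⟨L, L', D, h⟩ := Pivot.exists_list_transvec_mul_diagonal_mul_list_transvec
    (g : Matrix (Fin n) (Fin n) F)
  obtain ⟨u, hu, hu'⟩ := list_mem hN L
  obtain ⟨v, hv, hv'⟩ := list_mem hN L'
  refine ⟨u, hu, v, hv, u⁻¹ * g * v⁻¹, D, ?_, by group⟩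
  rw [Units.val_mul, Units.val_mul, h, ← hu', ← hv', mul_assoc, mul_assoc, Units.mul_inv, mul_one,
    ← mul_assoc, Units.inv_mul, one_mul]

/-- a subgroup which contains all transvections contains all commutators -/
lemma comm_mem {K : Subgroup (GL (Fin n) F)} (hK : ∀ w : Fin n → F, Om K w)
    (a b : GL (Fin n) F) : a * b * a⁻¹ * b⁻¹ ∈ K := by
  let N : Subgroup (GL (Fin n) F) := Subgroup.closure {x | ∃ w f h, x = tv w f h}
  have hNK : N ≤ K := by
    rw [Subgroup.closure_le]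
    rintro _ ⟨w, f, h, rfl⟩
    exact hK w f h
  have hN : ∀ w : Fin n → F, Om N w := fun w f h => Subgroup.subset_closure ⟨w, f, h, rfl⟩
  have hnorm : N.Normal := by
    refine ⟨fun x hx g => ?_⟩
    have h1 : N ≤ N.comap (MulAut.conj g).toMonoidHom := by
      rw [Subgroup.closure_le]
      rintro _ ⟨w, f, h, rfl⟩
      show g * tv w f h * g⁻¹ ∈ N
      have h2 : (f ᵥ* ((g⁻¹ : GL (Fin n) F) : Matrix (Fin n) (Fin n) F)) ⬝ᵥ
          ((g : Matrix (Fin n) (Fin n) F) *ᵥ w) = 0 := by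
        rw [dotProduct_mulVec, vecMul_vecMul, Units.inv_mul, vecMul_one]
        exact h
      have h4 : f = (f ᵥ* ((g⁻¹ : GL (Fin n) F) : Matrix (Fin n) (Fin n) F)) ᵥ*
          (g : Matrix (Fin n) (Fin n) F) := by
        rw [vecMul_vecMul, Units.inv_mul, vecMul_one]
      have h5 : ((f ᵥ* ((g⁻¹ : GL (Fin n) F) : Matrix (Fin n) (Fin n) F)) ᵥ*
          (g : Matrix (Fin n) (Fin n) F)) ⬝ᵥ w = 0 := by rw [← h4]; exact h
      have h6 := tv_conj g w _ h2 h5
      have h7 : tv w _ h5 = tv w f h := by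
        apply Units.ext
        rw [tv_val, tv_val, ← h4]
      rw [← h7, ← h6]
      exact hN _ _ _
    exact h1 hx
  apply hNK
  obtain ⟨u, hu, v, hv, d, D, hd, rfl⟩ := exists_diag hN a
  obtain ⟨u', hu', v', hv', d', D', hd', rfl⟩ := exists_diag hN b
  have hdd : d * d' = d' * d := by
    apply Units.ext
    rw [Units.val_mul, Units.val_mul, hd, hd', diagonal_mul_diagonal, diagonal_mul_diagonal]
    congr 1
    ext i
    exact mul_comm _ _
  rw [← QuotientGroup.eq_one_iff]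
  have e1 : ∀ x ∈ N, (QuotientGroup.mk x : GL (Fin n) F ⧸ N) = 1 := fun x hx =>
    (QuotientGroup.eq_one_iff x).mpr hx
  simp only [QuotientGroup.mk_mul, QuotientGroup.mk_inv, e1 _ hu, e1 _ hv, e1 _ hu', e1 _ hv',
    one_mul, mul_one]
  rw [← QuotientGroup.mk_mul, hdd, QuotientGroup.mk_mul]
  group

/-- the group of the transvections with centre `w` -/
def TG (w : Fin n → F) : Subgroup (GL (Fin n) F) where
  carrier := {x | ∃ f h, x = tv w f h}
  one_mem' := ⟨0, zero_dotProduct w, by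
    apply Units.ext
    rw [tv_val, vecMulVec_zero, add_zero, Units.val_one]⟩
  mul_mem' := by
    rintro _ _ ⟨f, h, rfl⟩ ⟨f', h', rfl⟩
    refine ⟨f + f', by rw [add_dotProduct, h, h', add_zero], ?_⟩
    apply Units.ext
    rw [Units.val_mul, tv_val, tv_val, tv_val, add_mul, mul_add, mul_add, vecMulVec_mul_vecMulVec,
      h, zero_smul, vecMulVec_zero, one_mul, one_mul, mul_one, vecMulVec_add]
    abel
  inv_mem' := by
    rintro _ ⟨f, h, rfl⟩
    refine ⟨-f, by rw [neg_dotProduct, h, neg_zero], ?_⟩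
    apply Units.ext
    rw [tv_val, vecMulVec_neg, ← sub_eq_add_neg]
    rfl

lemma tv_pow (w f : Fin n → F) (h : f ⬝ᵥ w = 0) (k : ℕ) :
    ((tv w f h ^ k : GL (Fin n) F) : Matrix (Fin n) (Fin n) F) = 1 + (k : F) • vecMulVec w f := by
  induction k with
  | zero => simp
  | succ k ih =>
    rw [pow_succ, Units.val_mul, ih, tv_val, add_mul, mul_add, mul_add, smul_mul_assoc,
      smul_mul_assoc, vecMulVec_mul_vecMulVec, h, zero_smul, vecMulVec_zero, one_mul, one_mul,
      mul_one, Nat.cast_succ, add_smul, one_smul, smul_zero]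
    abel

lemma tg_p {p : ℕ} [CharP F p] (w : Fin n → F) : IsPGroup p (TG w) := by
  rintro ⟨x, f, h, rfl⟩
  refine ⟨1, ?_⟩
  apply Subtype.ext
  apply Units.ext
  show ((tv w f h ^ p ^ 1 : GL (Fin n) F) : Matrix (Fin n) (Fin n) F) = 1
  rw [pow_one, tv_pow, CharP.cast_eq_zero, zero_smul, add_zero]

/-- quandles of invertible matrices -/
theorem lin_quandle [Finite F] (hn : 0 < n) (C : Set (Quandle.Conj (GL (Fin n) F)))
    (hC : IsSubrack C)
    (hSL : ∀ g : GL (Fin n) F, (g : Matrix (Fin n) (Fin n) F).det = 1 →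
      g ∈ Subgroup.closure (C : Set (GL (Fin n) F)))
    (hirr : ∃ c ∈ C, ∀ W : Submodule F (Fin n → F),
      (∀ w ∈ W, ((c : GL (Fin n) F) : Matrix (Fin n) (Fin n) F) *ᵥ w ∈ W) → W = ⊥ ∨ W = ⊤) :
    ¬ Acyclic (properSubracks C) := by
  obtain ⟨p, hp⟩ := CharP.exists F
  have hpp : p.Prime := CharP.char_is_prime F p
  let w₀ : Fin n → F := Pi.single ⟨0, hn⟩ 1
  have hw₀ : w₀ ≠ 0 := by
    intro h
    have := congrFun h ⟨0, hn⟩
    simp [w₀] at this
  have hfin : Finite (GL (Fin n) F) := inferInstance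
  refine gen_crit (E := GL (Fin n) F) C hC _ rfl p hpp (TG w₀) (tg_p w₀) ?_ ?_
  · rintro _ ⟨f, h, rfl⟩
    apply hSL
    rw [tv_val, vecMulVec_eq Unit, det_one_add_replicateCol_mul_replicateRow, h, add_zero]
  · intro K hPK hm x hx
    obtain ⟨c, hc, hci⟩ := hirr
    obtain ⟨y, _, hy⟩ := hm c hc
    have h0 : Om K w₀ := fun f h => hPK ⟨f, h, rfl⟩
    have hall := om_all h0 hw₀ hci hy
    obtain ⟨z, _, hz⟩ := hm x hx
    have h1 := K.mul_mem (comm_mem hall x z) hz
    have h2 : x * z * x⁻¹ * z⁻¹ * (z * x * z⁻¹) = x := by group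
    rw [h2] at h1
    exact h1

end

end Pool.SubrackLattice
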