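import Pool.Agent.Work.MP_6197f9_h99.LinT

/-!
# Racks whose inner group is a group of matrices modulo a solvable normal subgroup
-/

namespace Pool.SubrackLattice

noncomputable section

open scoped Classical
open Matrix

variable {F : Type*} [Field F] {n : ℕ}

/-- the matrix `c` has no invariant subspace of dimension `k` -/
def NoInvariant (k : ℕ) (c : GL (Fin n) F) : Prop :=
  ∀ W : Submodule F (Fin n → F),
    (∀ w ∈ W, (c : Matrix (Fin n) (Fin n) F) *ᵥ w ∈ W) → Module.finrank F W ≠ k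

/-- the group `G` contains all matrices of determinant one -/
def ContainsSL (G : Subgroup (GL (Fin n) F)) : Prop :=
  ∀ g : GL (Fin n) F, (g : Matrix (Fin n) (Fin n) F).det = 1 → g ∈ G

lemma ug_det {p : ℕ} [Fact p.Prime] [CharP F p] {W₀ : Submodule F (Fin n → F)} {x : GL (Fin n) F}
    (hx : x ∈ UG W₀) : (x : Matrix (Fin n) (Fin n) F).det = 1 := by
  have h2 := congrArg (fun y : GL (Fin n) F => (y : Matrix (Fin n) (Fin n) F).det)
    (ug_p (p := p) W₀ hx)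
  simp only [Units.val_pow_eq_pow_val, det_pow, Units.val_one, det_one] at h2
  have h3 : ((x : Matrix (Fin n) (Fin n) F).det - 1) ^ p = 0 := by
    rw [sub_pow_char, h2, one_pow, sub_self]
  exact sub_eq_zero.mp (pow_eq_zero_iff (Fact.out : p.Prime).ne_zero |>.mp h3)

/-- the overgroups -/
theorem lin_core [Finite F] {W₀ : Submodule F (Fin n → F)} (h0 : W₀ ≠ ⊥) (h1 : W₀ ≠ ⊤)
    {g : GL (Fin n) F}
    (hlo : ∀ W ≤ W₀, (∀ w ∈ W, ap g w ∈ W) → W = ⊥ ∨ W = W₀)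
    (hup : ∀ W : Submodule F (Fin n → F), W₀ ≤ W → (∀ w ∈ W, ap g w ∈ W) → W = W₀ ∨ W = ⊤)
    (K : Subgroup (GL (Fin n) F)) (hUK : UG W₀ ≤ K) (hgK : g ∈ K) (C : Set (GL (Fin n) F))
    (hm : ∀ x ∈ C, ∃ y : GL (Fin n) F, y * x * y⁻¹ ∈ K)
    (hc : ∃ c ∈ C, NoInvariant (Module.finrank F W₀) c) : ∀ x ∈ C, x ∈ K := by
  intro x hx
  obtain ⟨c, hcC, hci⟩ := hc
  obtain ⟨y, hy⟩ := hm c hcC
  have hUtv : ∀ w ∈ W₀, ∀ f : Fin n → F, (∀ w' ∈ W₀, f ⬝ᵥ w' = 0) → ∀ h : f ⬝ᵥ w = 0,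
      tv w f h ∈ K := by
    intro w hw f hf h
    apply hUK
    refine ⟨fun v => ?_, fun w' hw' => ?_⟩
    · rw [ap_tv, add_sub_cancel_left]
      exact W₀.smul_mem _ hw
    · rw [ap_tv, hf w' hw', zero_smul, add_zero]
  have hirr : ∀ W : Submodule F (Fin n → F), (∀ x ∈ K, ∀ w ∈ W, ap x w ∈ W) →
      W = ⊥ ∨ W = ⊤ := by
    intro W hW
    have hne : W ≠ W₀ := by
      rintro rfl
      apply hci (W.map (mulVecLin ((y⁻¹ : GL (Fin n) F) : Matrix (Fin n) (Fin n) F)))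
      · rintro _ ⟨w, hw, rfl⟩
        refine ⟨ap (y * c * y⁻¹) w, hW _ hy w hw, ?_⟩
        show ap y⁻¹ (ap (y * c * y⁻¹) w) = ap c (ap y⁻¹ w)
        rw [ap_mul, ap_mul, ap_inv_ap]
      · exact (Submodule.equivMapOfInjective _ (fun a b hab => ap_inj (x := y⁻¹) hab) W).finrank_eq.symm
    by_cases hle : W ≤ W₀
    · rcases hlo W hle (hW g hgK) with h | h
      · exact Or.inl h
      · exact absurd h hne
    · have hge : W₀ ≤ W := by
        obtain ⟨w, hw, hw'⟩ := Set.not_subset.mp hle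
        obtain ⟨f, hf, hfw⟩ := ex_f hw'
        intro u hu
        have h2 := hW _ (hUtv u hu f hf (hf u hu)) w hw
        rw [ap_tv, hfw, one_smul] at h2
        have h3 := W.sub_mem h2 hw
        rwa [add_sub_cancel_left] at h3
      rcases hup W hge (hW g hgK) with h | h
      · exact absurd h hne
      · exact Or.inr h
  have hall := all_tv hUtv h0 h1 hirr
  obtain ⟨z, hz⟩ := hm x hx
  have h1 := K.mul_mem (comm_mem hall x z) hz
  have h2 : x * z * x⁻¹ * z⁻¹ * (z * x * z⁻¹) = x := by group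
  rw [h2] at h1
  exact h1

/-- racks whose inner group is a group of matrices modulo a solvable normal subgroup -/
theorem lin_rack [Finite F] {k : ℕ} (hk : 1 ≤ k) (hkn : k < n) (R : Type*) [Rack R] [Finite R]
    (N : Subgroup (Inn R)) [N.Normal] (hN : Group.IsSolvable N)
    (G : Subgroup (GL (Fin n) F))
    (hSL : ∀ g : GL (Fin n) F, (g : Matrix (Fin n) (Fin n) F).det = 1 → g ∈ G)
    (φ : G →* Inn R ⧸ N) (hφ : Function.Surjective φ)
    (hc : ∃ c : G, φ c ∈ imageQuandle N ∧ NoInvariant k (c : GL (Fin n) F)) :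
    ¬ Acyclic (properSubracks (Set.univ : Set R)) := by
  intro hac
  obtain ⟨p, hp⟩ := CharP.exists F
  have hpp : p.Prime := CharP.char_is_prime F p
  have hpf : Fact p.Prime := ⟨hpp⟩
  obtain ⟨W₀, g, hfr, hdet, hgW, hlo, hup⟩ := exists_g2 (F := F) hk hkn
  have h0 : W₀ ≠ ⊥ := by
    rintro rfl
    rw [finrank_bot] at hfr
    omega
  have h1 : W₀ ≠ ⊤ := by
    rintro rfl
    rw [finrank_top, Module.finrank_fin_fun] at hfr
    omega
  have hfin : Finite (GL (Fin n) F) := inferInstance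
  have hginv := inv_stable hgW
  have hUG : UG W₀ ≤ G := fun x hx => hSL x (ug_det (p := p) hx)
  let P : Subgroup (Inn R ⧸ N) := ((UG W₀).subgroupOf G).map φ
  let g' : Inn R ⧸ N := φ ⟨g, hSL g hdet⟩
  have hP : IsPGroup p P := by
    rintro ⟨_, ⟨x, hx, rfl⟩⟩
    refine ⟨1, Subtype.ext ?_⟩
    show (φ x) ^ p ^ 1 = 1
    rw [pow_one, ← map_pow]
    have h2 : x ^ p = 1 := Subtype.ext (ug_p (p := p) W₀ (Subgroup.mem_subgroupOf.mp hx))
    rw [h2, map_one]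
  have hO : IsOliver p p (P ⊔ Subgroup.zpowers g' ⊔ ⊥) := by
    refine ⟨P, ⊥, g', hP, IsPGroup.of_bot, ?_, ?_, ?_, rfl⟩
    · rintro _ ⟨x, hx, rfl⟩
      refine ⟨⟨g, hSL g hdet⟩ * x * ⟨g, hSL g hdet⟩⁻¹, ?_, by rw [map_mul, map_mul, map_inv]⟩
      obtain ⟨hx1, hx2⟩ := Subgroup.mem_subgroupOf.mp hx
      show (g * (x : GL (Fin n) F) * g⁻¹) ∈ UG W₀
      refine ⟨fun v => ?_, fun w hw => ?_⟩
      · have h2 := hgW _ (hx1 (ap g⁻¹ v))
        rw [ap_sub, ap_ap_inv] at h2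
        rw [ap_mul, ap_mul]
        exact h2
      · rw [ap_mul, ap_mul, hx2 _ (hginv w hw), ap_ap_inv]
    · intro y hy x hx
      rw [Subgroup.mem_bot] at hy
      rw [hy, one_mul, inv_one, mul_one]
      exact hx
    · intro y hy
      rw [Subgroup.mem_bot] at hy
      rw [hy, one_mul, inv_one, mul_one]
      exact Subgroup.mem_sup_right (Subgroup.mem_zpowers _)
  obtain ⟨⟨K', hK', hAK, hm⟩, _⟩ := oliver_crit R N hN hac p p hpp hpp _ hO
  obtain ⟨hgen, _⟩ := acyclic_UU_of_rack R N hN hac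
  have hcore := lin_core (F := F) h0 h1 hlo hup ((K'.comap φ).map G.subtype)
    (by
      intro x hx
      refine ⟨⟨x, hUG hx⟩, ?_, rfl⟩
      exact hAK (Subgroup.mem_sup_left (Subgroup.mem_sup_left
        (Subgroup.mem_map_of_mem φ (Subgroup.mem_subgroupOf.mpr hx)))))
    ⟨⟨g, hSL g hdet⟩, hAK (Subgroup.mem_sup_left
      (Subgroup.mem_sup_right (Subgroup.mem_zpowers _))), rfl⟩
    {x | ∃ h : x ∈ G, φ ⟨x, h⟩ ∈ imageQuandle N}
    (by
      rintro x ⟨hxG, hx⟩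
      obtain ⟨y', hy'⟩ := hm _ hx
      obtain ⟨y, rfl⟩ := hφ y'
      refine ⟨y, y * ⟨x, hxG⟩ * y⁻¹, ?_, rfl⟩
      show φ (y * ⟨x, hxG⟩ * y⁻¹) ∈ K'
      rw [map_mul, map_mul, map_inv]
      exact hy')
    (by
      obtain ⟨c, hc1, hc2⟩ := hc
      rw [hfr]
      exact ⟨c.1, ⟨c.2, hc1⟩, hc2⟩)
  apply hK'
  rw [eq_top_iff, ← hgen, Subgroup.closure_le]
  intro z hz
  obtain ⟨x, rfl⟩ := hφ z
  obtain ⟨u, hu, hux⟩ := hcore x.1 ⟨x.2, hz⟩
  have : u = x := Subtype.ext hux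
  rw [← this]
  exact hu

end

end Pool.SubrackLattice
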