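import Pool.Agent.Work.MP_6197f9_h99.LinG
import Pool.Agent.Work.MP_6197f9_h99.GenCrit2

/-!
# Quandles of invertible matrices: the theorem
-/

namespace Pool.SubrackLattice

noncomputable section

open scoped Classical
open Matrix

variable {F : Type*} [Field F] {n : ℕ}

/-- a matrix of determinant one whose only proper invariant subspace is `W₀`, of dimension `k` -/
lemma exists_g2 [Finite F] {k : ℕ} (hk : 1 ≤ k) (hkn : k + 1 ≤ n) :
    ∃ (W₀ : Submodule F (Fin n → F)) (g : GL (Fin n) F), Module.finrank F W₀ = k ∧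
      (g : Matrix (Fin n) (Fin n) F).det = 1 ∧ (∀ w ∈ W₀, ap g w ∈ W₀) ∧
      (∀ W ≤ W₀, (∀ w ∈ W, ap g w ∈ W) → W = ⊥ ∨ W = W₀) ∧
      (∀ W : Submodule F (Fin n → F), W₀ ≤ W → (∀ w ∈ W, ap g w ∈ W) → W = W₀ ∨ W = ⊤) := by
  obtain ⟨p, hp⟩ := CharP.exists F
  have hpp : Fact p.Prime := ⟨CharP.char_is_prime F p⟩
  have hnz1 : NeZero k := ⟨by omega⟩
  have hnz2 : NeZero (n - k) := ⟨by omega⟩
  let K₁ := FiniteField.Extension F p k
  let K₂ := FiniteField.Extension F p (n - k)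
  have hfr1 : Module.finrank F K₁ = k := FiniteField.finrank_extension F p k
  have hfr2 : Module.finrank F K₂ = n - k := FiniteField.finrank_extension F p (n - k)
  have hfr : Module.finrank F (K₁ × K₂) = Module.finrank F (Fin n → F) := by
    rw [Module.finrank_prod, hfr1, hfr2, Module.finrank_fin_fun]
    omega
  let ψ : (K₁ × K₂) ≃ₗ[F] (Fin n → F) := LinearEquiv.ofFinrankEq _ _ hfr
  obtain ⟨γ₁, hd1, hγ1⟩ := irr_el F K₁
  obtain ⟨γ₂, hd2, hγ2⟩ := irr_el F K₂
  let h : Module.End F (K₁ × K₂) :=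
    LinearMap.prodMap (Algebra.lmul F K₁ γ₁) (Algebra.lmul F K₂ γ₂)
  have hdet : LinearMap.det h = 1 := by
    have h1 : LinearMap.det (LinearMap.prodMap (Algebra.lmul F K₁ γ₁) (Algebra.lmul F K₂ γ₂)) =
      LinearMap.det (Algebra.lmul F K₁ γ₁) * LinearMap.det (Algebra.lmul F K₂ γ₂) :=
      LinearMap.det_prodMap _ _
    rw [show LinearMap.det h = _ from h1, hd1, hd2, mul_one]
  let T : (Fin n → F) →ₗ[F] (Fin n → F) :=
    (ψ : (K₁ × K₂) →ₗ[F] (Fin n → F)) ∘ₗ h ∘ₗ (ψ.symm : (Fin n → F) →ₗ[F] (K₁ × K₂))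
  have hT : LinearMap.det T = 1 := by
    rw [show LinearMap.det T = _ from LinearMap.det_conj h ψ]; exact hdet
  have hM : (LinearMap.toMatrix' T).det = 1 := by rw [LinearMap.det_toMatrix', hT]
  let g : GL (Fin n) F := GeneralLinearGroup.mkOfDetNeZero (LinearMap.toMatrix' T)
    (by rw [hM]; exact one_ne_zero)
  have hg : ∀ (x : K₁) (y : K₂), ap g (ψ (x, y)) = ψ (γ₁ * x, γ₂ * y) := by
    intro x y
    have h1 : ap g (ψ (x, y)) = T (ψ (x, y)) := LinearMap.toMatrix'_mulVec T _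
    rw [h1]
    show ψ (h (ψ.symm (ψ (x, y)))) = ψ (γ₁ * x, γ₂ * y)
    rw [LinearEquiv.symm_apply_apply]
    rfl
  let i₁ : K₁ →ₗ[F] (Fin n → F) := (ψ : (K₁ × K₂) →ₗ[F] (Fin n → F)) ∘ₗ LinearMap.inl F K₁ K₂
  let i₂ : K₂ →ₗ[F] (Fin n → F) := (ψ : (K₁ × K₂) →ₗ[F] (Fin n → F)) ∘ₗ LinearMap.inr F K₁ K₂
  have hi₁ : ∀ x, i₁ x = ψ (x, 0) := fun _ => rfl
  have hi₂ : ∀ y, i₂ y = ψ (0, y) := fun _ => rfl
  have hinj : Function.Injective i₁ := by
    intro a b hab
    rw [hi₁, hi₁] at hab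
    exact (Prod.mk.inj (ψ.injective hab)).1
  refine ⟨LinearMap.range i₁, g, ?_, hM, ?_, ?_, ?_⟩
  · rw [LinearMap.finrank_range_of_inj hinj, hfr1]
  · rintro _ ⟨x, rfl⟩
    exact ⟨γ₁ * x, by rw [hi₁, hi₁, hg, mul_zero]⟩
  · intro W hW hWg
    rcases hγ1 (W.comap i₁) (by
      intro x hx
      rw [Submodule.mem_comap, hi₁] at hx ⊢
      have := hWg _ hx
      rwa [hg, mul_zero] at this) with h | h
    · left
      rw [eq_bot_iff]
      intro w hw
      obtain ⟨x, rfl⟩ := hW hw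
      have : x ∈ W.comap i₁ := hw
      rw [h, Submodule.mem_bot] at this
      rw [this, map_zero]
      exact Submodule.zero_mem _
    · right
      apply le_antisymm hW
      rintro _ ⟨x, rfl⟩
      have : x ∈ W.comap i₁ := by rw [h]; exact Submodule.mem_top
      exact this
  · intro W hW hWg
    rcases hγ2 (W.comap i₂) (by
      intro x hx
      rw [Submodule.mem_comap, hi₂] at hx ⊢
      have := hWg _ hx
      rwa [hg, mul_zero] at this) with h | h
    · left
      refine le_antisymm ?_ hW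
      intro w hw
      obtain ⟨⟨x, y⟩, rfl⟩ := ψ.surjective w
      have h1 : ψ (x, 0) ∈ W := hW ⟨x, rfl⟩
      have h2 : y ∈ W.comap i₂ := by
        rw [Submodule.mem_comap, hi₂]
        have := W.sub_mem hw h1
        rwa [← map_sub, Prod.mk_sub_mk, sub_self, sub_zero] at this
      rw [h, Submodule.mem_bot] at h2
      rw [h2]
      exact ⟨x, rfl⟩
    · right
      rw [eq_top_iff]
      intro w _
      obtain ⟨⟨x, y⟩, rfl⟩ := ψ.surjective w
      have h1 : ψ (x, 0) ∈ W := hW ⟨x, rfl⟩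
      have h2 : ψ (0, y) ∈ W := by
        have : y ∈ W.comap i₂ := by rw [h]; exact Submodule.mem_top
        exact this
      have := W.add_mem h1 h2
      rwa [← map_add, Prod.mk_add_mk, add_zero, zero_add] at this

/-- the group of the matrices which act trivially on `W₀` and on the quotient -/
def UG (W₀ : Submodule F (Fin n → F)) : Subgroup (GL (Fin n) F) where
  carrier := {x | (∀ v, ap x v - v ∈ W₀) ∧ ∀ w ∈ W₀, ap x w = w}
  one_mem' := ⟨fun v => by rw [ap_one, sub_self]; exact W₀.zero_mem, fun w _ => ap_one w⟩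
  mul_mem' := by
    rintro x y ⟨hx, hx'⟩ ⟨hy, hy'⟩
    refine ⟨fun v => ?_, fun w hw => by rw [ap_mul, hy' w hw, hx' w hw]⟩
    have h1 := W₀.add_mem (hy v) (hx v)
    have h2 : ap (x * y) v - v = (ap y v - v) + (ap x v - v) := by
      have h3 := hx' _ (hy v)
      rw [ap_sub] at h3
      rw [ap_mul, ← h3]
      abel
    rw [h2]
    exact h1
  inv_mem' := by
    rintro x ⟨hx, hx'⟩
    have h0 : ∀ w ∈ W₀, ap x⁻¹ w = w := by
      intro w hw
      apply ap_inj (x := x)
      rw [ap_ap_inv, hx' w hw]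
    refine ⟨fun v => ?_, h0⟩
    have h1 := W₀.neg_mem (hx (ap x⁻¹ v))
    rwa [ap_ap_inv, neg_sub] at h1

lemma ug_pow {W₀ : Submodule F (Fin n → F)} {x : GL (Fin n) F} (hx : x ∈ UG W₀) (k : ℕ)
    (v : Fin n → F) : ap (x ^ k) v = v + (k : F) • (ap x v - v) := by
  induction k with
  | zero => rw [pow_zero, ap_one, Nat.cast_zero, zero_smul, add_zero]
  | succ k ih =>
    rw [pow_succ', ap_mul, ih, ap_add, ap_smul, hx.2 _ (hx.1 v), Nat.cast_succ, add_smul, one_smul]
    abel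

lemma ug_p {p : ℕ} [CharP F p] (W₀ : Submodule F (Fin n → F)) {x : GL (Fin n) F}
    (hx : x ∈ UG W₀) : x ^ p = 1 := by
  apply ap_ext
  intro v
  rw [ug_pow hx, CharP.cast_eq_zero, zero_smul, add_zero, ap_one]

/-- quandles of invertible matrices -/
theorem lin_quandle2 [Finite F] {k : ℕ} (hk : 1 ≤ k) (hkn : k + 1 ≤ n)
    (C : Set (Quandle.Conj (GL (Fin n) F))) (hC : IsSubrack C)
    (hSL : ∀ g : GL (Fin n) F, (g : Matrix (Fin n) (Fin n) F).det = 1 →
      g ∈ Subgroup.closure (C : Set (GL (Fin n) F)))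
    (hc : ∃ c ∈ C, ∀ W : Submodule F (Fin n → F),
      (∀ w ∈ W, ((c : GL (Fin n) F) : Matrix (Fin n) (Fin n) F) *ᵥ w ∈ W) →
        Module.finrank F W ≠ k) :
    ¬ Acyclic (properSubracks C) := by
  obtain ⟨p, hp⟩ := CharP.exists F
  have hpp : p.Prime := CharP.char_is_prime F p
  have hpf : Fact p.Prime := ⟨hpp⟩
  obtain ⟨W₀, g, hfr, hdet, hgW, hlo, hup⟩ := exists_g2 (F := F) hk hkn
  have h0 : W₀ ≠ ⊥ := by
    rintro rfl
    rw [finrank_bot] at hfr
    omega
  have h1 : W₀ ≠ ⊤ := by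
    rintro rfl
    rw [finrank_top, Module.finrank_fin_fun] at hfr
    omega
  have hfin : Finite (GL (Fin n) F) := inferInstance
  have hginv := inv_stable hgW
  refine gen_crit2 (E := GL (Fin n) F) C hC _ rfl p hpp (UG W₀) ?_ ?_ g (hSL g hdet) ?_ ?_
  · rintro ⟨x, hx⟩
    exact ⟨1, Subtype.ext (by
      show x ^ p ^ 1 = 1
      rw [pow_one]
      exact ug_p W₀ hx)⟩
  · intro x hx
    apply hSL
    have h2 := congrArg (fun y : GL (Fin n) F => (y : Matrix (Fin n) (Fin n) F).det) (ug_p W₀ hx)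
    simp only [Units.val_pow_eq_pow_val, det_pow, Units.val_one, det_one] at h2
    have h3 : ((x : Matrix (Fin n) (Fin n) F).det - 1) ^ p = 0 := by
      rw [sub_pow_char, h2, one_pow, sub_self]
    exact sub_eq_zero.mp (pow_eq_zero_iff hpp.ne_zero |>.mp h3)
  · rintro x ⟨hx, hx'⟩
    refine ⟨fun v => ?_, fun w hw => ?_⟩
    · have h2 := hgW _ (hx (ap g⁻¹ v))
      rw [ap_sub, ap_ap_inv] at h2
      rw [ap_mul, ap_mul]
      exact h2
    · rw [ap_mul, ap_mul, hx' _ (hginv w hw), ap_ap_inv]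
  · intro K hUK hgK hm x hx
    obtain ⟨c, hcC, hci⟩ := hc
    obtain ⟨y, _, hy⟩ := hm c hcC
    have hUtv : ∀ w ∈ W₀, ∀ f : Fin n → F, (∀ w' ∈ W₀, f ⬝ᵥ w' = 0) → ∀ h : f ⬝ᵥ w = 0,
        tv w f h ∈ K := by
      intro w hw f hf h
      apply hUK
      refine ⟨fun v => ?_, fun w' hw' => ?_⟩
      · rw [ap_tv, add_sub_cancel_left]
        exact W₀.smul_mem _ hw
      · rw [ap_tv, hf w' hw', zero_smul, add_zero]
    -- the invariant subspaces of `K`
    have hirr : ∀ W : Submodule F (Fin n → F), (∀ x ∈ K, ∀ w ∈ W, ap x w ∈ W) →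
        W = ⊥ ∨ W = ⊤ := by
      intro W hW
      have hne : W ≠ W₀ := by
        rintro rfl
        apply hci (W.map (mulVecLin ((y⁻¹ : GL (Fin n) F) : Matrix (Fin n) (Fin n) F)))
        · rintro _ ⟨w, hw, rfl⟩
          refine ⟨ap (y * c * y⁻¹) w, hW _ hy w hw, ?_⟩
          show ap y⁻¹ (ap (y * c * y⁻¹) w) = ap c (ap y⁻¹ w)
          rw [ap_mul, ap_mul, ap_inv_ap]
        · rw [← hfr]
          exact (Submodule.equivMapOfInjective _ (fun a b hab => ap_inj (x := y⁻¹) hab) W).finrank_eq.symm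
      by_cases hle : W ≤ W₀
      · rcases hlo W hle (hW g hgK) with h | h
        · exact Or.inl h
        · exact absurd h hne
      · have hge : W₀ ≤ W := by
          obtain ⟨w, hw, hw'⟩ := Set.not_subset.mp hle
          obtain ⟨f, hf, hfw⟩ := ex_f hw'
          intro u hu
          have h2 := hW _ (hUtv u hu f hf (hf u hu)) w hw
          rw [ap_tv, hfw, one_smul] at h2
          have h3 := W.sub_mem h2 hw
          rwa [add_sub_cancel_left] at h3
        rcases hup W hge (hW g hgK) with h | h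
        · exact absurd h hne
        · exact Or.inr h
    have hall := all_tv hUtv h0 h1 hirr
    obtain ⟨z, _, hz⟩ := hm x hx
    have h1 := K.mul_mem (comm_mem hall x z) hz
    have h2 : x * z * x⁻¹ * z⁻¹ * (z * x * z⁻¹) = x := by group
    rw [h2] at h1
    exact h1

end

end Pool.SubrackLattice
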