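import Pool.Agent.Work.MP_6197f9_h99.Groups
import Pool.Agent.Work.MP_6197f9_h7.RackPart

/-!
# The criterion for racks
-/

namespace Pool.SubrackLattice

open Finset

noncomputable section

open scoped Classical

lemma sum_empty {α : Type*} [PartialOrder α] :
    ∑ᶠ σ : Fc (∅ : Set α), (-1 : ℤ) ^ σ.1.card = 1 := by
  have h0 : ∀ σ : Fc (∅ : Set α), σ.1 = ∅ := by
    intro σ
    by_contra hne
    obtain ⟨x, hx⟩ := Finset.nonempty_of_ne_empty hne
    exact σ.2.1 x hx
  have hU : Unique (Fc (∅ : Set α)) :=
    { default := ⟨∅, by simp, by simp⟩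
      uniq := fun σ => Subtype.ext (h0 σ) }
  rw [finsum_unique, h0, Finset.card_empty, pow_zero]

/-- the criterion for a rack `R` and a solvable normal subgroup `N` of `Inn R` -/
theorem rack_crit (R : Type*) [Rack R] [Finite R] (N : Subgroup (Inn R)) [N.Normal]
    (hN : Group.IsSolvable N) (q : ℕ) (hq : q.Prime) (g : Inn R ⧸ N)
    (Q : Subgroup (Inn R ⧸ N)) (hQ : IsPGroup q Q)
    (hgQ : ∀ x ∈ Q, x * g * x⁻¹ ∈ Subgroup.zpowers g)
    (hac : Acyclic (properSubracks (Set.univ : Set R))) :
    (q : ℤ) ∣ ∑ᶠ σ : Fc (OV (imageQuandle N) g Q), (-1 : ℤ) ^ σ.1.card := by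
  have : Fact q.Prime := ⟨hq⟩
  rw [acyclic_iff_acyc] at hac
  have : Finite (Equiv.Perm R) := inferInstance
  have : Finite (Inn R) := inferInstance
  have hgen : Subgroup.closure ((translation : R → Inn R) '' Set.univ) = ⊤ := by
    suffices H : ∀ g (hg : g ∈ Inn R), (⟨g, hg⟩ : Inn R) ∈
        Subgroup.closure ((translation : R → Inn R) '' Set.univ) from
      eq_top_iff.mpr fun g _ => H g.1 g.2
    intro g hg
    have hg' := hg
    unfold Inn at hg'
    induction hg' using Subgroup.closure_induction with
    | mem g h =>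
      obtain ⟨x, rfl⟩ := h
      exact Subgroup.subset_closure ⟨x, trivial, rfl⟩
    | one => exact Subgroup.one_mem _
    | mul a b ha hb iha ihb =>
      exact Subgroup.mul_mem _ (iha ha) (ihb hb)
    | inv a ha iha => exact Subgroup.inv_mem _ (iha ha)
  have hconj : ∀ (g : Inn R) (x : R), translation (g.1 x) = g * translation x * g⁻¹ := by
    rintro ⟨g, hg⟩
    unfold Inn at hg
    induction hg using Subgroup.closure_induction with
    | mem g h =>
      obtain ⟨y, rfl⟩ := h
      intro x
      apply Subtype.ext
      exact Rack.ad_conj y x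
    | one => intro x; apply Subtype.ext; simp
    | mul a b ha hb iha ihb =>
      intro x
      have h1 := iha ((b : Equiv.Perm R) x)
      have h2 := ihb x
      apply Subtype.ext
      have h1' := congrArg Subtype.val h1
      have h2' := congrArg Subtype.val h2
      simp only [Subgroup.coe_mul, InvMemClass.coe_inv] at h1' h2' ⊢
      rw [Equiv.Perm.mul_apply, h1', h2']
      group
    | inv a ha iha =>
      intro x
      have h1 := iha ((a⁻¹ : Equiv.Perm R) x)
      apply Subtype.ext
      have h1' := congrArg Subtype.val h1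
      simp only [Subgroup.coe_mul, InvMemClass.coe_inv] at h1' ⊢
      have h3 : a ((a⁻¹ : Equiv.Perm R) x) = x := by
        rw [← Equiv.Perm.mul_apply, mul_inv_cancel]; rfl
      rw [h3] at h1'
      rw [h1']
      group
  have hX : properSubracks (Set.univ : Set R) =
      XX (Inn R).subtype (translation : R → Inn R) Set.univ := rfl
  rw [hX, acyc_XX_iff_UU (φ := (Inn R).subtype) (L := (translation : R → Inn R))
      (C := (Set.univ : Set R)) (fun g x _ => hconj g x) (fun _ _ _ => Set.mem_univ _) hgen,
    acyc_solvable hgen N, acyc_UM_iff_quotient] at hac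
  have hC1 : (QuotientGroup.mk' N) '' ((translation : R → Inn R) '' Set.univ) =
      imageQuandle N := by
    rw [Set.image_image, Set.image_univ]; rfl
  have hCgen : Subgroup.closure ((QuotientGroup.mk' N) '' ((translation : R → Inn R) ''
      Set.univ)) = ⊤ := by
    rw [← MonoidHom.map_closure, hgen]
    exact Subgroup.map_top_of_surjective _ (QuotientGroup.mk'_surjective N)
  have h1 := overgroups hCgen g q Q hQ hgQ hac
  rw [hC1] at h1
  exact h1

end

end Pool.SubrackLattice
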