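import Pool.Agent.Work.MP_6197f9_h99.PGroup
import Pool.Agent.Work.MP_6197f9_h99.Groups
import Pool.Agent.Work.MP_6197f9_h99.RackCrit

/-!
# The criterion for Oliver groups
-/

namespace Pool.SubrackLattice

open Finset

noncomputable section

open scoped Classical Pointwise

attribute [local instance] cjAct

/-- the proper subgroups of `G` which contain `A` and a conjugate of every element of `C` -/
def properOver {G : Type*} [Group G] (C : Set G) (A : Subgroup G) : Set (Subgroup G) :=
  {H | H ≠ ⊤ ∧ A ≤ H ∧ ∀ c ∈ C, ∃ y : G, y * c * y⁻¹ ∈ H}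

/-- `A` is the product of a `p`-group `P`, a cyclic group `⟨g⟩` which normalises `P`, and a `q`-group `Q` which
normalises `P` and `P⟨g⟩` -/
def IsOliver {G : Type*} [Group G] (p q : ℕ) (A : Subgroup G) : Prop :=
  ∃ (P Q : Subgroup G) (g : G), IsPGroup p P ∧ IsPGroup q Q ∧ (∀ x ∈ P, g * x * g⁻¹ ∈ P) ∧
    (∀ y ∈ Q, ∀ x ∈ P, y * x * y⁻¹ ∈ P) ∧
    (∀ y ∈ Q, y * g * y⁻¹ ∈ P ⊔ Subgroup.zpowers g) ∧ A = P ⊔ Subgroup.zpowers g ⊔ Q

/-- the number of finite chains of `X`, counted with the sign `(-1) ^ (size)` -/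
def signedCount {α : Type*} [PartialOrder α] (X : Set α) : ℤ :=
  ∑ᶠ σ : {σ : Finset α // IsFace X σ}, (-1 : ℤ) ^ σ.1.card

theorem overgroups_oliver {G : Type*} [Group G] [Finite G] {C : Set G}
    (hgen : Subgroup.closure C = ⊤) (p q : ℕ)
    [hp : Fact p.Prime] [hq : Fact q.Prime] (P : Subgroup G) (g : G) (Q : Subgroup G)
    (hO : Oliv p q P g Q) (h : Acyclic (UU C)) :
    (q : ℤ) ∣ ∑ᶠ σ : Fc (properOver C (P ⊔ Subgroup.zpowers g ⊔ Q)), (-1 : ℤ) ^ σ.1.card := by
  have h1 := count_oliver (Set.toFinite (UU C)) (actOn_UU C) p q P g Q hO h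
  set A : Subgroup G := P ⊔ Subgroup.zpowers g ⊔ Q with hA
  have hPA : P ≤ A := le_sup_left.trans le_sup_left
  have hgA : g ∈ A := (le_sup_right.trans le_sup_left : Subgroup.zpowers g ≤ A)
    (Subgroup.mem_zpowers g)
  have hQA : Q ≤ A := le_sup_right
  -- `H ⊔ A` is proper
  have hprop : ∀ H ∈ fixO (UU C) P g Q, H ⊔ A ≠ ⊤ := by
    rintro H ⟨⟨⟨hH, hm⟩, hp'⟩, hg, hq'⟩ htop
    have h2 : H ⊔ A ≤ MulAction.stabilizer G H := by
      refine sup_le ?_ (sup_le (sup_le ?_ ?_) ?_)
      · intro x hx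
        exact cj_self hx
      · intro x hx
        exact hp' x hx
      · rw [Subgroup.zpowers_le]
        exact hg
      · intro x hx
        exact hq' x hx
    rw [htop] at h2
    have h3 : ∀ x : G, x • H = H := fun x => h2 (Subgroup.mem_top x)
    apply hH
    rw [eq_top_iff, ← hgen, Subgroup.closure_le]
    intro c hc
    obtain ⟨y, hy⟩ := hm c hc
    have h4 : c ∈ y⁻¹ • H := by rw [mem_cj, inv_inv]; exact hy
    rw [h3] at h4
    exact h4
  have h2 := sum_closure (P := fixO (UU C) P g Q) (Set.toFinite _) (fun H => H ⊔ A) ?_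
    (fun H _ => le_sup_left) (fun H _ K _ hHK => sup_le_sup_right hHK A)
    (fun H _ => by show H ⊔ A ⊔ A = H ⊔ A; rw [sup_assoc, sup_idem])
  · have h3 : ({H | H ∈ fixO (UU C) P g Q ∧ H ⊔ A = H} : Set (Subgroup G)) =
        properOver C A := by
      ext H
      constructor
      · rintro ⟨⟨⟨⟨hH, hm⟩, _⟩, _, _⟩, hAH⟩
        exact ⟨hH, sup_eq_left.mp hAH, hm⟩
      · rintro ⟨hH, hAH, hm⟩
        exact ⟨⟨⟨⟨hH, hm⟩, fun γ hγ => cj_self (hAH (hPA hγ))⟩, cj_self (hAH hgA),
          fun γ hγ => cj_self (hAH (hQA hγ))⟩, sup_eq_left.mpr hAH⟩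
    rw [h3] at h2
    rw [← h2]
    exact h1
  · intro H hH
    refine ⟨⟨⟨hprop H hH, ?_⟩, fun γ hγ => cj_self (Subgroup.mem_sup_right (hPA hγ))⟩,
      cj_self (Subgroup.mem_sup_right hgA), fun γ hγ => cj_self (Subgroup.mem_sup_right (hQA hγ))⟩
    intro c hc
    obtain ⟨y, hy⟩ := hH.1.1.2 c hc
    exact ⟨y, Subgroup.mem_sup_left hy⟩

/-- the poset of the proper subgroups which meet every class -/
theorem acyclic_UU_of_rack (R : Type*) [Rack R] [Finite R] (N : Subgroup (Inn R)) [N.Normal]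
    (hN : Group.IsSolvable N) (hac : Acyclic (properSubracks (Set.univ : Set R))) :
    Subgroup.closure (imageQuandle N : Set (Inn R ⧸ N)) = ⊤ ∧
      Acyclic (UU (imageQuandle N : Set (Inn R ⧸ N))) := by
  rw [acyclic_iff_acyc] at hac
  have : Finite (Equiv.Perm R) := inferInstance
  have : Finite (Inn R) := inferInstance
  have hgen : Subgroup.closure ((translation : R → Inn R) '' Set.univ) = ⊤ := by
    suffices H : ∀ g (hg : g ∈ Inn R), (⟨g, hg⟩ : Inn R) ∈
        Subgroup.closure ((translation : R → Inn R) '' Set.univ) from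
      eq_top_iff.mpr fun g _ => H g.1 g.2
    intro g hg
    have hg' := hg
    unfold Inn at hg'
    induction hg' using Subgroup.closure_induction with
    | mem g h =>
      obtain ⟨x, rfl⟩ := h
      exact Subgroup.subset_closure ⟨x, trivial, rfl⟩
    | one => exact Subgroup.one_mem _
    | mul a b ha hb iha ihb =>
      exact Subgroup.mul_mem _ (iha ha) (ihb hb)
    | inv a ha iha => exact Subgroup.inv_mem _ (iha ha)
  have hconj : ∀ (g : Inn R) (x : R), translation (g.1 x) = g * translation x * g⁻¹ := by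
    rintro ⟨g, hg⟩
    unfold Inn at hg
    induction hg using Subgroup.closure_induction with
    | mem g h =>
      obtain ⟨y, rfl⟩ := h
      intro x
      apply Subtype.ext
      exact Rack.ad_conj y x
    | one => intro x; apply Subtype.ext; simp
    | mul a b ha hb iha ihb =>
      intro x
      have h1 := iha ((b : Equiv.Perm R) x)
      have h2 := ihb x
      apply Subtype.ext
      have h1' := congrArg Subtype.val h1
      have h2' := congrArg Subtype.val h2
      simp only [Subgroup.coe_mul, InvMemClass.coe_inv] at h1' h2' ⊢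
      rw [Equiv.Perm.mul_apply, h1', h2']
      group
    | inv a ha iha =>
      intro x
      have h1 := iha ((a⁻¹ : Equiv.Perm R) x)
      apply Subtype.ext
      have h1' := congrArg Subtype.val h1
      simp only [Subgroup.coe_mul, InvMemClass.coe_inv] at h1' ⊢
      have h3 : a ((a⁻¹ : Equiv.Perm R) x) = x := by
        rw [← Equiv.Perm.mul_apply, mul_inv_cancel]; rfl
      rw [h3] at h1'
      rw [h1']
      group
  have hX : properSubracks (Set.univ : Set R) =
      XX (Inn R).subtype (translation : R → Inn R) Set.univ := rfl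
  rw [hX, acyc_XX_iff_UU (φ := (Inn R).subtype) (L := (translation : R → Inn R))
      (C := (Set.univ : Set R)) (fun g x _ => hconj g x) (fun _ _ _ => Set.mem_univ _) hgen,
    acyc_solvable hgen N, acyc_UM_iff_quotient] at hac
  have hC1 : (QuotientGroup.mk' N) '' ((translation : R → Inn R) '' Set.univ) =
      imageQuandle N := by
    rw [Set.image_image, Set.image_univ]; rfl
  have hCgen : Subgroup.closure ((QuotientGroup.mk' N) '' ((translation : R → Inn R) ''
      Set.univ)) = ⊤ := by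
    rw [← MonoidHom.map_closure, hgen]
    exact Subgroup.map_top_of_surjective _ (QuotientGroup.mk'_surjective N)
  rw [← hC1]
  exact ⟨hCgen, (acyclic_iff_acyc _).mpr hac⟩

theorem oliver_crit (R : Type*) [Rack R] [Finite R] (N : Subgroup (Inn R)) [N.Normal]
    (hN : Group.IsSolvable N) (hac : Acyclic (properSubracks (Set.univ : Set R)))
    (p q : ℕ) (hp : p.Prime) (hq : q.Prime) (A : Subgroup (Inn R ⧸ N)) (hA : IsOliver p q A) :
    (properOver (imageQuandle N) A).Nonempty ∧
      (q : ℤ) ∣ signedCount (properOver (imageQuandle N) A) := by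
  have : Fact p.Prime := ⟨hp⟩
  have : Fact q.Prime := ⟨hq⟩
  obtain ⟨hgen, hU⟩ := acyclic_UU_of_rack R N hN hac
  have : Finite (Equiv.Perm R) := inferInstance
  have : Finite (Inn R) := inferInstance
  obtain ⟨P, Q, g, hP, hQ, hgP, hQP, hQg, rfl⟩ := hA
  have h := overgroups_oliver hgen p q P g Q ⟨hP, hQ, hgP, hQP, hQg⟩ hU
  refine ⟨?_, h⟩
  rw [Set.nonempty_iff_ne_empty]
  intro he
  have h' : (q : ℤ) ∣ ∑ᶠ σ : Fc (properOver (imageQuandle N : Set (Inn R ⧸ N))
      (P ⊔ Subgroup.zpowers g ⊔ Q)), (-1 : ℤ) ^ σ.1.card := h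
  rw [show properOver (imageQuandle N : Set (Inn R ⧸ N)) (P ⊔ Subgroup.zpowers g ⊔ Q) = ∅ from he,
    sum_empty] at h'
  have h1 : (q : ℤ).natAbs ∣ (1 : ℤ).natAbs := Int.natAbs_dvd_natAbs.mpr h'
  simp only [Int.natAbs_natCast, Int.natAbs_one, Nat.dvd_one] at h1
  exact hq.one_lt.ne' h1

end

end Pool.SubrackLattice
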