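import Pool.Agent.Work.MP_6197f9_h99.Base
import Pool.Agent.Work.MP_6197f9_h99.Count

/-!
# Smith's theorem for `p`-groups, and the signed count for an Oliver group
-/

namespace Pool.SubrackLattice

open Finset

noncomputable section

open scoped Classical

variable {α : Type*} [PartialOrder α] {Γ : Type*} [Group Γ] [MulAction Γ α]

/-- the elements of `X` fixed by `P` -/
def fixS (X : Set α) (P : Subgroup Γ) : Set α := {x | x ∈ X ∧ ∀ γ ∈ P, γ • x = x}

/-- Smith's theorem for a `p`-group -/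
theorem smith_group [Finite Γ] {p : ℕ} [hp : Fact p.Prime] {X : Set α} (hfin : X.Finite)
    (hA : ActOn Γ X) (hac : AcF (ZMod p) X) : ∀ (n : ℕ) (P : Subgroup Γ), Nat.card P = p ^ n →
      AcF (ZMod p) (fixS X P) := by
  intro n
  induction n with
  | zero =>
    intro P hP
    rw [pow_zero, Subgroup.card_eq_one] at hP
    have : fixS X P = X := by
      ext x
      constructor
      · exact fun h => h.1
      · intro h
        refine ⟨h, fun γ hγ => ?_⟩
        rw [hP, Subgroup.mem_bot] at hγ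
        rw [hγ, one_smul]
    rw [this]; exact hac
  | succ n ih =>
    intro P hP
    -- a normal subgroup of index `p`
    obtain ⟨K, hK⟩ := Sylow.exists_subgroup_card_pow_prime (G := P) p (n := n)
      (by rw [hP]; exact pow_dvd_pow p (Nat.le_succ n))
    have hKi : K.index = p := by
      have h1 := K.index_mul_card
      rw [hK, hP, pow_succ, mul_comm] at h1
      exact Nat.eq_of_mul_eq_mul_left (pow_pos hp.out.pos n) h1
    have hKn : K.Normal := by
      apply Subgroup.normal_of_index_eq_minFac_card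
      rw [hKi, hP, Nat.Prime.pow_minFac hp.out (Nat.succ_ne_zero n)]
    obtain ⟨γ, hγ⟩ : ∃ γ : P, γ ∉ K := by
      by_contra hcon
      push Not at hcon
      have h1 : K = ⊤ := eq_top_iff.mpr fun x _ => hcon x
      rw [h1, Subgroup.index_top] at hKi
      exact hp.out.one_lt.ne hKi
    let K' : Subgroup Γ := K.map P.subtype
    have hK' : Nat.card K' = p ^ n := by
      rw [← hK]
      exact (Nat.card_congr (K.equivMapOfInjective P.subtype P.subtype_injective).toEquiv).symm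
    have hY := ih K' hK'
    have hYfin : (fixS X K').Finite := hfin.subset fun x hx => hx.1
    have hmem : ∀ x ∈ fixS X K', (γ : Γ) • x ∈ fixS X K' := by
      rintro x ⟨hx, hxK⟩
      refine ⟨hA.mem _ x hx, ?_⟩
      rintro _ ⟨δ, hδ, rfl⟩
      have h1 : γ⁻¹ * δ * γ⁻¹⁻¹ ∈ K := hKn.conj_mem δ hδ γ⁻¹
      have h2 := hxK _ (Subgroup.mem_map_of_mem P.subtype h1)
      have h3 : ((P.subtype δ : Γ)) * (γ : Γ) = (γ : Γ) * P.subtype (γ⁻¹ * δ * γ⁻¹⁻¹) := by
        simp only [map_mul, map_inv, inv_inv, Subgroup.coe_subtype]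
        group
      rw [← mul_smul, h3, mul_smul, h2]
    have hper : Per p (fun x : α => (γ : Γ) • x) (fixS X K') := by
      refine ⟨MulAction.injective _, ⟨hmem, fun x _ y _ => hA.le _ x y⟩, ?_,
        fun x hx h => hA.rig _ x hx.1 h⟩
      rintro x ⟨hx, hxK⟩
      rw [smul_iterate]
      have h1 : γ ^ p ∈ K := by
        have := K.pow_index_mem γ
        rwa [hKi] at this
      exact hxK _ (by
        have := Subgroup.mem_map_of_mem P.subtype h1
        rwa [map_pow] at this)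
    have hs := smith hp.out (F := ZMod p) (by simp) hYfin hper hY
    have heq : {x | x ∈ fixS X K' ∧ (γ : Γ) • x = x} = fixS X P := by
      ext x
      constructor
      · rintro ⟨⟨hx, hxK⟩, hxγ⟩
        refine ⟨hx, ?_⟩
        -- the stabiliser
        let S : Subgroup P := (MulAction.stabilizer Γ x).comap P.subtype
        have hKS : K ≤ S := fun δ hδ => hxK _ (Subgroup.mem_map_of_mem P.subtype hδ)
        have hγS : γ ∈ S := hxγ
        have h1 := Subgroup.relIndex_mul_index hKS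
        rw [hKi] at h1
        have h2 : S.index ∣ p := ⟨K.relIndex S, by rw [mul_comm]; exact h1.symm⟩
        have h3 : S.index = 1 := by
          rcases (Nat.dvd_prime hp.out).mp h2 with h3 | h3
          · exact h3
          · exfalso
            rw [h3] at h1
            have h4 : K.relIndex S = 1 := by
              have := hp.out.pos
              exact Nat.eq_of_mul_eq_mul_right this (by rw [h1, one_mul])
            rw [Subgroup.relIndex_eq_one] at h4
            exact hγ (h4 hγS)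
        rw [Subgroup.index_eq_one] at h3
        intro δ hδ
        have h4 : (⟨δ, hδ⟩ : P) ∈ S := by rw [h3]; exact Subgroup.mem_top _
        exact h4
      · rintro ⟨hx, hxP⟩
        refine ⟨⟨hx, ?_⟩, hxP _ γ.2⟩
        rintro _ ⟨δ, _, rfl⟩
        exact hxP _ δ.2
    rw [heq] at hs
    exact hs

/-- the data of an Oliver group: `P` is a `p`-group, `g` normalises `P`, `Q` is a `q`-group which
normalises `P` and `P⟨g⟩` -/
structure Oliv (p q : ℕ) (P : Subgroup Γ) (g : Γ) (Q : Subgroup Γ) : Prop where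
  hP : IsPGroup p P
  hQ : IsPGroup q Q
  hgP : ∀ x ∈ P, g * x * g⁻¹ ∈ P
  hQP : ∀ y ∈ Q, ∀ x ∈ P, y * x * y⁻¹ ∈ P
  hQg : ∀ y ∈ Q, y * g * y⁻¹ ∈ P ⊔ Subgroup.zpowers g

/-- the elements of `X` fixed by `P`, `g` and `Q` -/
def fixO (X : Set α) (P : Subgroup Γ) (g : Γ) (Q : Subgroup Γ) : Set α :=
  {x | x ∈ fixS X P ∧ g • x = x ∧ ∀ γ ∈ Q, γ • x = x}

/-- the chains -/
abbrev Zc (X : Set α) (P : Subgroup Γ) (g : Γ) (S : ℕ → Prop) :=
  {σ : Finset α // IsFace (fixS X P) σ ∧ im g σ = σ ∧ S σ.card}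

lemma fixS_mem {X : Set α} (hA : ActOn Γ X) {P : Subgroup Γ} {y : Γ}
    (hy : ∀ x ∈ P, y⁻¹ * x * y ∈ P) {x : α} (hx : x ∈ fixS X P) : y • x ∈ fixS X P := by
  refine ⟨hA.mem _ x hx.1, ?_⟩
  intro δ hδ
  have h1 := hx.2 _ (hy δ hδ)
  rw [← mul_smul, show δ * y = y * (y⁻¹ * δ * y) by group, mul_smul, h1]

lemma fixS_face {X : Set α} (hA : ActOn Γ X) {P : Subgroup Γ} {y : Γ}
    (hy : ∀ x ∈ P, y⁻¹ * x * y ∈ P) {σ : Finset α} (h : IsFace (fixS X P) σ) :
    IsFace (fixS X P) (im y σ) := by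
  refine ⟨?_, ?_⟩
  · intro x hx
    obtain ⟨x', hx', rfl⟩ := mem_im.mp hx
    exact fixS_mem hA hy (h.1 x' hx')
  · intro x hx z hz
    obtain ⟨x', hx', rfl⟩ := mem_im.mp hx
    obtain ⟨z', hz', rfl⟩ := mem_im.mp hz
    rw [hA.le, hA.le]
    exact h.2 x' hx' z' hz'

lemma fixS_pt {X : Set α} (hA : ActOn Γ X) {P : Subgroup Γ} {γ : Γ} {σ : Finset α}
    (h : IsFace (fixS X P) σ) (hσ : im γ σ = σ) : ∀ x ∈ σ, γ • x = x := by
  have h' : IsFace X σ := ⟨fun x hx => (h.1 x hx).1, h.2⟩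
  exact fix_of_im hA h' hσ

/-- the action of `Q` on the chains fixed by `P` and `g` -/
@[instance_reducible]
def actZ {X : Set α} (hA : ActOn Γ X) {p q : ℕ} {P : Subgroup Γ} {g : Γ} {Q : Subgroup Γ}
    (hO : Oliv p q P g Q) (S : ℕ → Prop) : MulAction Q (Zc X P g S) where
  smul x σ := ⟨im (x : Γ) σ.1, fixS_face hA (fun z hz => by
      have := hO.hQP _ (Q.inv_mem x.2) z hz
      rwa [inv_inv] at this) σ.2.1, by
    have h1 : (x : Γ)⁻¹ * g * ((x : Γ)⁻¹)⁻¹ ∈ P ⊔ Subgroup.zpowers g := hO.hQg _ (Q.inv_mem x.2)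
    have h2 : im ((x : Γ)⁻¹ * g * ((x : Γ)⁻¹)⁻¹) σ.1 = σ.1 := by
      apply im_eq_of_fix
      intro z hz
      have h3 : P ⊔ Subgroup.zpowers g ≤ MulAction.stabilizer Γ z := by
        refine sup_le (fun δ hδ => (σ.2.1.1 z hz).2 δ hδ) ?_
        rw [Subgroup.zpowers_le]
        exact fixS_pt hA σ.2.1 σ.2.2.1 z hz
      exact h3 h1
    rw [← im_mul, show g * (x : Γ) = x * ((x : Γ)⁻¹ * g * ((x : Γ)⁻¹)⁻¹) by group, im_mul, h2],
    by rw [card_im]; exact σ.2.2.2⟩
  one_smul σ := Subtype.ext (im_one σ.1)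
  mul_smul x y σ := Subtype.ext (im_mul (x : Γ) (y : Γ) σ.1)

theorem count_oliver [Finite Γ] {X : Set α} (hfin : X.Finite) (hA : ActOn Γ X) (p q : ℕ)
    [hp : Fact p.Prime] [hq : Fact q.Prime] (P : Subgroup Γ) (g : Γ) (Q : Subgroup Γ)
    (hO : Oliv p q P g Q) (h : Acyclic X) :
    (q : ℤ) ∣ ∑ᶠ σ : Fc (fixO X P g Q), (-1 : ℤ) ^ σ.1.card := by
  obtain ⟨n, hn⟩ := IsPGroup.iff_card.mp hO.hP
  have hac := smith_group hfin hA (acF_of_acyclic (p := p) h) n P hn
  have hYf : (fixS X P).Finite := hfin.subset fun x hx => hx.1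
  obtain ⟨m, hm, hkill⟩ := killed_of_acF hYf hac
  have hF : Finite (Fc (fixS X P)) := finite_Fc hYf
  have hF' : Finite (Fc (fixO X P g Q)) := finite_Fc (hYf.subset fun x hx => hx.1)
  have hZfin : ∀ S : ℕ → Prop, Finite (Zc X P g S) := fun S =>
    Finite.of_injective (fun σ : Zc X P g S => (⟨σ.1, σ.2.1⟩ : Fc (fixS X P)))
      (fun a b hab => Subtype.ext (congrArg (fun t : Fc (fixS X P) => t.1) hab))
  have hfp : ∀ S : ℕ → Prop, Nat.card (Zc X P g S) ≡
      Nat.card {σ : Finset α // IsFace (fixO X P g Q) σ ∧ True ∧ S σ.card} [MOD q] := by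
    intro S
    let _ := actZ hA hO S
    have := hZfin S
    have h1 := hO.hQ.card_modEq_card_fixedPoints (Zc X P g S)
    have h2 : Nat.card (MulAction.fixedPoints Q (Zc X P g S)) =
        Nat.card {σ : Finset α // IsFace (fixO X P g Q) σ ∧ True ∧ S σ.card} := by
      refine Nat.card_congr ⟨fun σ => ⟨σ.1.1, ⟨?_, σ.1.2.1.2⟩, trivial, σ.1.2.2.2⟩,
        fun σ => ⟨⟨σ.1, ⟨fun x hx => (σ.2.1.1 x hx).1, σ.2.1.2⟩,
          im_eq_of_fix fun x hx => (σ.2.1.1 x hx).2.1, σ.2.2.2⟩, ?_⟩, fun _ => rfl, fun _ => rfl⟩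
      · intro x hx
        refine ⟨σ.1.2.1.1 x hx, fixS_pt hA σ.1.2.1 σ.1.2.2.1 x hx, ?_⟩
        intro γ hγ
        have h3 : im γ σ.1.1 = σ.1.1 := congrArg Subtype.val (σ.2 ⟨γ, hγ⟩)
        exact fixS_pt hA σ.1.2.1 h3 x hx
      · intro γ
        apply Subtype.ext
        show im (γ : Γ) σ.1 = σ.1
        exact im_eq_of_fix fun x hx => (σ.2.1.1 x hx).2.2 _ γ.2
    rw [h2] at h1
    exact h1
  have := Fintype.ofFinite (Fc (fixS X P))
  have := Fintype.ofFinite (Fc (fixO X P g Q))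
  have hL := lefschetz' m hm hkill (e := fun x => g • x) ⟨fun x hx => fixS_mem hA (by
      -- `g⁻¹` normalises `P`
      intro z hz
      have h1 : (P.map (MulAut.conj g).toMonoidHom) ≤ P := by
        rintro _ ⟨w, hw, rfl⟩
        exact hO.hgP w hw
      have h2 : P.map (MulAut.conj g).toMonoidHom = P := by
        apply Subgroup.eq_of_le_of_card_ge h1
        exact (Nat.card_congr (P.equivMapOfInjective (MulAut.conj g).toMonoidHom
          (MulAut.conj g).injective).toEquiv).le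
      rw [← h2] at hz
      obtain ⟨w, hw, hwz⟩ := hz
      have h3 : g⁻¹ * z * g = w := by
        rw [← hwz]
        show g⁻¹ * (g * w * g⁻¹) * g = w
        group
      rw [h3]; exact hw) hx,
    fun x _ y _ => hA.le g x y⟩
  have h3 := sum_sign (P := fixS X P) (fun σ => im g σ = σ)
  have h4 := sum_sign (P := fixO X P g Q) (fun _ => True)
  have h5 : (Nat.card (Zc X P g Even) : ℤ) - Nat.card (Zc X P g Odd) = 0 := by
    refine h3.symm.trans ?_
    convert hL
    rfl
  rw [finsum_eq_sum_of_fintype]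
  simp only [if_true] at h4
  rw [h4]
  have hE := (Nat.modEq_iff_dvd.mp (hfp Even))
  have hOd := (Nat.modEq_iff_dvd.mp (hfp Odd))
  have h6 := dvd_sub hE hOd
  have h7 : ∀ a b c d : ℤ, c - d = 0 → (a - c) - (b - d) = a - b := by intros; linarith
  rw [h7 _ _ _ _ h5] at h6
  exact h6

end

end Pool.SubrackLattice
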