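import Pool.Agent.Work.MP_6197f9_h99.RackCrit

/-!
# Quandles of permutations: two families
-/

namespace Pool.SubrackLattice

open Finset

noncomputable section

open scoped Classical Pointwise

open Equiv Equiv.Perm

/-- a power of `c` is a transposition or a `3`-cycle -/
def Jor {n : ℕ} (c : Perm (Fin n)) : Prop := ∃ k : ℕ, (c ^ k).IsSwap ∨ (c ^ k).IsThreeCycle

lemma isSwap_cj {n : ℕ} {c : Perm (Fin n)} (y : Perm (Fin n)) (h : c.IsSwap) :
    (y * c * y⁻¹).IsSwap := by
  rw [← card_support_eq_two] at h ⊢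
  rw [card_support_conj]
  exact h

lemma isThree_cj {n : ℕ} {c : Perm (Fin n)} (y : Perm (Fin n)) (h : c.IsThreeCycle) :
    (y * c * y⁻¹).IsThreeCycle := by
  unfold IsThreeCycle at h ⊢
  rw [cycleType_conj]
  exact h

lemma jor_cj {n : ℕ} {c : Perm (Fin n)} (y : Perm (Fin n)) (h : Jor c) : Jor (y * c * y⁻¹) := by
  obtain ⟨k, h | h⟩ := h
  · refine ⟨k, Or.inl ?_⟩
    rw [conj_pow]
    exact isSwap_cj y h
  · refine ⟨k, Or.inr ?_⟩
    rw [conj_pow]
    exact isThree_cj y h

/-- a primitive group with such an element contains the alternating group -/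
lemma alt_le {n : ℕ} (K : Subgroup (Perm (Fin n)))
    (hp : MulAction.IsPreprimitive K (Fin n)) {x : Perm (Fin n)} (hx : x ∈ K) (hj : Jor x) :
    alternatingGroup (Fin n) ≤ K := by
  obtain ⟨k, h | h⟩ := hj
  · rw [subgroup_eq_top_of_isPreprimitive_of_isSwap_mem hp _ h (K.pow_mem hx k)]
    exact le_top
  · exact alternatingGroup_le_of_isPreprimitive_of_isThreeCycle_mem hp h (K.pow_mem hx k)

/-- the criterion for a quandle of permutations -/
theorem perm_crit {n : ℕ} (C : Set (Quandle.Conj (Perm (Fin n))))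
    (hC : IsSubrack C) (G : Subgroup (Perm (Fin n))) (hG : G = Subgroup.closure C)
    (g : Perm (Fin n)) (hg : g ∈ G)
    (hK : ∀ K : Subgroup (Perm (Fin n)), g ∈ K → (∀ x ∈ C, ∃ y ∈ G, y * x * y⁻¹ ∈ K) →
      alternatingGroup (Fin n) ≤ K) : ¬ Acyclic (properSubracks C) := by
  intro hac
  rw [acyclic_iff_acyc] at hac
  have hCG : ∀ x ∈ C, (x : Perm (Fin n)) ∈ G := fun x hx => by
    rw [hG]; exact Subgroup.subset_closure hx
  let φ : G →* Equiv.Perm (Perm (Fin n)) :=
    (MulAut.toPerm (Perm (Fin n))).comp (MulAut.conj.comp G.subtype)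
  have hφ : ∀ (g : G) (x : Perm (Fin n)), φ g x = (g : Perm (Fin n)) * x * (g : Perm (Fin n))⁻¹ :=
    fun g x => rfl
  let L : Perm (Fin n) → G := fun x => if h : x ∈ C then ⟨x, hCG x h⟩ else 1
  have hLx : ∀ x (h : x ∈ C), L x = ⟨x, hCG x h⟩ := fun x h => dif_pos h
  have himg : L '' C = (Subtype.val : G → Perm (Fin n)) ⁻¹' C := by
    ext g
    constructor
    · rintro ⟨x, hx, rfl⟩
      show ((L x : G) : Perm (Fin n)) ∈ C
      rw [hLx x hx]
      exact hx
    · intro hg
      exact ⟨g.1, hg, by rw [hLx _ hg]⟩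
  have hgen : Subgroup.closure (L '' C) = ⊤ := by
    rw [himg]
    subst hG
    exact Subgroup.closure_closure_coe_preimage
  have hclosed : ∀ x ∈ C, ∀ y ∈ C, φ (L x) y ∈ C := by
    intro x hx y hy
    rw [hLx x hx, hφ]
    exact hC x hx y hy
  have hCinv : ∀ (g : G) (x : Perm (Fin n)), x ∈ C → φ g x ∈ C := by
    intro g x hx
    exact (closed_invariant (φ := φ) (L := L) hclosed (g := g)
      (by rw [hgen]; exact Subgroup.mem_top g) x).mp hx
  have hLc : ∀ (g : G) (x : Perm (Fin n)), x ∈ C → L (φ g x) = g * L x * g⁻¹ := by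
    intro g x hx
    rw [hLx x hx, hLx _ (hCinv g x hx)]
    rfl
  have hXX : properSubracks C = XX φ L C := by
    ext S
    constructor
    · rintro ⟨h1, h2, h3⟩
      refine ⟨?_, h2, h3⟩
      intro x hx y hy
      rw [hLx x (h3.1 hx), hφ]
      exact h1 x hx y hy
    · rintro ⟨h1, h2, h3⟩
      refine ⟨?_, h2, h3⟩
      intro x hx y hy
      have := h1 x hx y hy
      rw [hLx x (h3.1 hx), hφ] at this
      exact this
  have hUU : Acyc (UU (L '' C)) := by
    rw [← acyc_XX_iff_UU hLc hCinv hgen, ← hXX]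
    exact hac
  have h2 : Fact (Nat.Prime 2) := ⟨Nat.prime_two⟩
  have h3 := overgroups hgen ⟨g, hg⟩ 2 (⊥ : Subgroup G) (IsPGroup.of_bot) (by
    intro x hx
    rw [Subgroup.mem_bot] at hx
    rw [hx, one_mul, inv_one, mul_one]
    exact Subgroup.mem_zpowers _) hUU
  have hOV : OV (L '' C) ⟨g, hg⟩ (⊥ : Subgroup G) = ∅ := by
    rw [Set.eq_empty_iff_forall_notMem]
    rintro H ⟨hH, hgH, _, hm⟩
    apply hH
    let K : Subgroup (Perm (Fin n)) := H.map G.subtype
    have hmem : ∀ x (hx : x ∈ C), ∃ y ∈ G, y * x * y⁻¹ ∈ K := by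
      intro x hx
      obtain ⟨y, hy⟩ := hm (L x) ⟨x, hx, rfl⟩
      rw [hLx x hx] at hy
      exact ⟨y.1, y.2, Subgroup.mem_map_of_mem G.subtype hy⟩
    have halt : alternatingGroup (Fin n) ≤ K :=
      hK K (Subgroup.mem_map_of_mem G.subtype hgH) hmem
    have hCK : (C : Set (Perm (Fin n))) ⊆ K := by
      intro x hx
      obtain ⟨y, _, hy⟩ := hmem x hx
      have h4 : y⁻¹ * (y * x * y⁻¹) * y * (y * x * y⁻¹)⁻¹ ∈ alternatingGroup (Fin n) := by
        rw [mem_alternatingGroup]
        simp only [map_mul, map_inv]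
        have h5 : ∀ a b : ℤˣ, a⁻¹ * (a * b * a⁻¹) * a * (a * b * a⁻¹)⁻¹ = 1 := by
          intro a b
          rcases Int.units_eq_one_or a with rfl | rfl <;>
            rcases Int.units_eq_one_or b with rfl | rfl <;> simp
        exact h5 _ _
      have h6 := K.mul_mem (halt h4) hy
      have h7 : y⁻¹ * (y * x * y⁻¹) * y * (y * x * y⁻¹)⁻¹ * (y * x * y⁻¹) = x := by group
      rw [h7] at h6
      exact h6
    have hGK : G ≤ K := by
      rw [hG, Subgroup.closure_le]; exact hCK
    rw [eq_top_iff]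
    intro x _
    obtain ⟨z, hz, hzx⟩ := Subgroup.mem_map.mp (hGK x.2)
    have : z = x := Subtype.ext hzx
    rwa [← this]
  rw [hOV, sum_empty] at h3
  norm_num at h3

/-- quandles of permutations of prime degree -/
theorem prime_degree {n : ℕ} (hn : n.Prime) (C : Set (Quandle.Conj (Perm (Fin n))))
    (hC : IsSubrack C) (htr : MulAction.IsPretransitive
      (Subgroup.closure (C : Set (Perm (Fin n)))) (Fin n))
    (hj : ∃ c ∈ C, Jor (n := n) c) : ¬ Acyclic (properSubracks C) := by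
  have : Fact n.Prime := ⟨hn⟩
  have hdvd : n ∣ Nat.card (Subgroup.closure (C : Set (Perm (Fin n)))) := by
    have h1 := MulAction.index_stabilizer_of_transitive
      (Subgroup.closure (C : Set (Perm (Fin n)))) (⟨0, hn.pos⟩ : Fin n)
    rw [Nat.card_eq_fintype_card, Fintype.card_fin] at h1
    have h4 := Subgroup.index_dvd_card (MulAction.stabilizer
      (Subgroup.closure (C : Set (Perm (Fin n)))) (⟨0, hn.pos⟩ : Fin n))
    rwa [h1] at h4
  obtain ⟨⟨g, hg⟩, ho⟩ := exists_prime_orderOf_dvd_card' n hdvd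
  rw [← Subgroup.orderOf_coe] at ho
  refine perm_crit C hC _ rfl g hg ?_
  intro K hgK hm
  have hc : g.IsCycle := isCycle_of_prime_order'' (by rwa [Fintype.card_fin])
    (by rw [ho, Fintype.card_fin])
  have hs : g.support = Finset.univ := by
    apply Finset.eq_univ_of_card
    rw [← hc.orderOf, ho, Fintype.card_fin]
  have hne : ∀ x, g x ≠ x := fun x => mem_support.mp (by rw [hs]; exact Finset.mem_univ x)
  have htrK : MulAction.IsPretransitive K (Fin n) := by
    refine ⟨fun x y => ?_⟩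
    obtain ⟨i, hi⟩ := hc.exists_zpow_eq (hne x) (hne y)
    exact ⟨⟨g ^ i, K.zpow_mem hgK i⟩, hi⟩
  have hp : MulAction.IsPreprimitive K (Fin n) :=
    MulAction.IsPreprimitive.of_prime_card (by rwa [Nat.card_eq_fintype_card, Fintype.card_fin])
  obtain ⟨c, hc, hcj⟩ := hj
  obtain ⟨y, _, hy⟩ := hm c hc
  exact alt_le K hp hy (jor_cj y hcj)

/-- the primitivity argument: a cycle which moves all points except `a`, `b`, and a permutation `c`
without fixed points; `a = b`, or `n` is odd and `c ^ 2` has no fixed points -/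
theorem prim_of {n : ℕ} (hn : 5 ≤ n) (K : Subgroup (Perm (Fin n))) {g c : Perm (Fin n)}
    (hg : g ∈ K) (hcK : c ∈ K) {a b : Fin n}
    (hcyc : g.IsCycleOn {x | x ≠ a ∧ x ≠ b}) (hga : g a = a)
    (hc1 : ∀ x, c x ≠ x) (hab : a = b ∨ Odd n ∧ ∀ x, c (c x) ≠ x) :
    MulAction.IsPreprimitive K (Fin n) := by
  have hsm : ∀ (k : K) (x : Fin n), k • x = (k : Perm (Fin n)) x := fun _ _ => rfl
  -- a point moved by `g`
  obtain ⟨r, hr⟩ : ∃ r : Fin n, r ≠ a ∧ r ≠ b := by
    by_contra hcon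
    push Not at hcon
    have : (Finset.univ : Finset (Fin n)) ⊆ {a, b} := by
      intro x _
      by_cases hx : x = a
      · rw [hx]; simp
      · rw [hcon x hx]; simp
    have h1 := Finset.card_le_card this
    have h2 : ({a, b} : Finset (Fin n)).card ≤ 2 := Finset.card_le_two
    rw [Finset.card_univ, Fintype.card_fin] at h1
    omega
  have hsupp : ∀ x : Fin n, x ≠ a → x ≠ b → ∃ k : K, k • x = r := by
    intro x hxa hxb
    obtain ⟨i, hi⟩ := hcyc.2 (show x ∈ {x | x ≠ a ∧ x ≠ b} from ⟨hxa, hxb⟩)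
      (show r ∈ {x | x ≠ a ∧ x ≠ b} from hr)
    exact ⟨⟨g ^ i, K.zpow_mem hg i⟩, hi⟩
  have hall : ∀ x : Fin n, ∃ k : K, k • x = r := by
    intro x
    by_cases hx : x ≠ a ∧ x ≠ b
    · exact hsupp x hx.1 hx.2
    by_cases hcx : c x ≠ a ∧ c x ≠ b
    · obtain ⟨k, hk⟩ := hsupp (c x) hcx.1 hcx.2
      exact ⟨k * ⟨c, hcK⟩, by rw [mul_smul]; exact hk⟩
    have hccx : c (c x) ≠ a ∧ c (c x) ≠ b := by
      have h1 := hc1 x
      have h3 := hc1 (c x)
      have hx' : x = a ∨ x = b := by tauto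
      have hcx' : c x = a ∨ c x = b := by tauto
      have h2 : c (c x) ≠ x := by
        rcases hab with hab | ⟨_, hc2⟩
        · exfalso
          rw [← hab, or_self] at hx' hcx'
          exact h1 (hcx'.trans hx'.symm)
        · exact hc2 x
      rcases hx' with hx' | hx' <;> rcases hcx' with hcx' | hcx'
      · exact absurd (hcx'.trans hx'.symm) h1
      · exact ⟨fun h => h2 (h.trans hx'.symm), fun h => h3 (h.trans hcx'.symm)⟩
      · exact ⟨fun h => h3 (h.trans hcx'.symm), fun h => h2 (h.trans hx'.symm)⟩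
      · exact absurd (hcx'.trans hx'.symm) h1
    obtain ⟨k, hk⟩ := hsupp (c (c x)) hccx.1 hccx.2
    exact ⟨k * (⟨c, hcK⟩ * ⟨c, hcK⟩), by rw [mul_smul, mul_smul]; exact hk⟩
  have htr : MulAction.IsPretransitive K (Fin n) := by
    refine ⟨fun x y => ?_⟩
    obtain ⟨k, hk⟩ := hall x
    obtain ⟨l, hl⟩ := hall y
    exact ⟨l⁻¹ * k, by rw [mul_smul, hk, ← hl, inv_smul_smul]⟩
  refine MulAction.IsPreprimitive.of_isTrivialBlock_base a ?_
  intro B haB hB
  by_cases hsub : B.Subsingleton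
  · exact Or.inl hsub
  right
  obtain ⟨x, hxB, hxa⟩ : ∃ x ∈ B, x ≠ a := by
    by_contra hcon
    push Not at hcon
    apply hsub
    intro x hx y hy
    rw [hcon x hx, hcon y hy]
  have hdvd : B.ncard ∣ n := by
    have := hB.ncard_dvd_card ⟨a, haB⟩
    rwa [Nat.card_eq_fintype_card, Fintype.card_fin] at this
  -- if `B` contains a point moved by `g`, it contains all of them
  have hbig : ∀ z ∈ B, z ≠ a → z ≠ b → ∀ w, w ≠ a → w ≠ b → w ∈ B := by
    intro z hz hza hzb w hwa hwb
    obtain ⟨i, hi⟩ := hcyc.2 (show z ∈ {x | x ≠ a ∧ x ≠ b} from ⟨hza, hzb⟩)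
      (show w ∈ {x | x ≠ a ∧ x ≠ b} from ⟨hwa, hwb⟩)
    have h1 : (⟨g ^ i, K.zpow_mem hg i⟩ : K) • a = a := by
      show (g ^ i) a = a
      exact Function.IsFixedPt.perm_zpow hga i
    have h2 := hB.smul_eq_of_mem haB (show (⟨g ^ i, K.zpow_mem hg i⟩ : K) • a ∈ B by rwa [h1])
    rw [← h2]
    exact ⟨z, hz, hi⟩
  have hfull : (∃ z ∈ B, z ≠ a ∧ z ≠ b) → B = Set.univ := by
    rintro ⟨z, hz, hza, hzb⟩
    by_contra hne
    have h1 : ({b}ᶜ : Set (Fin n)) ⊆ B := by
      intro w hw
      by_cases hwa : w = a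
      · rw [hwa]; exact haB
      · exact hbig z hz hza hzb w hwa hw
    have h2 : ({b}ᶜ : Set (Fin n)).ncard = n - 1 := by
      rw [Set.ncard_compl, Set.ncard_singleton, Nat.card_eq_fintype_card, Fintype.card_fin]
    have h3 : n - 1 ≤ B.ncard := by
      rw [← h2]; exact Set.ncard_le_ncard h1
    have h4 : B.ncard ≠ n := by
      intro h
      apply hne
      apply Set.eq_of_subset_of_ncard_le (Set.subset_univ B)
      rw [Set.ncard_univ, Nat.card_eq_fintype_card, Fintype.card_fin, h]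
    have h5 : B.ncard ≤ n := Nat.le_of_dvd (by omega) hdvd
    have h6 : B.ncard = n - 1 := by omega
    rw [h6] at hdvd
    have h7 : n - 1 ∣ 1 := by
      have := Nat.dvd_sub hdvd (dvd_refl (n - 1))
      rwa [show n - (n - 1) = 1 by omega] at this
    have := Nat.le_of_dvd one_pos h7
    omega
  by_cases hxb : x = b
  · by_cases hex : ∃ z ∈ B, z ≠ a ∧ z ≠ b
    · exact hfull hex
    · exfalso
      push Not at hex
      have hBab : B = {a, b} := by
        apply Set.Subset.antisymm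
        · intro z hz
          by_cases hza : z = a
          · left; exact hza
          · right; exact hex z hz hza
        · rintro z (hz | hz)
          · rw [hz]; exact haB
          · rw [hz, ← hxb]; exact hxB
      rcases hab with hab | ⟨hodd, _⟩
      · exact hxa (hxb.trans hab.symm)
      · rw [hBab, Set.ncard_pair (by rw [← hxb]; exact hxa.symm)] at hdvd
        have := Nat.not_even_iff_odd.mpr hodd
        exact this (even_iff_two_dvd.mpr hdvd)
  · exact hfull ⟨x, hxB, hxa, hxb⟩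

/-- a cycle which moves all points except one or two -/
lemma exists_cyc {n : ℕ} (hn : 5 ≤ n) (a b : Fin n) : ∃ g : Perm (Fin n),
    Perm.sign g = -(-1) ^ (n - ({a, b} : Finset (Fin n)).card) ∧
      g.IsCycleOn {x | x ≠ a ∧ x ≠ b} ∧ g a = a := by
  have h1 : (Finset.univ.filter fun x : Fin n => x ≠ a ∧ x ≠ b) =
      ({a, b} : Finset (Fin n))ᶜ := by ext x; simp
  have hcard : 3 ≤ (Finset.univ.filter fun x : Fin n => x ≠ a ∧ x ≠ b).card := by
    rw [h1, Finset.card_compl, Fintype.card_fin]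
    have := Finset.card_le_two (a := a) (b := b)
    omega
  obtain ⟨g, hg, hgs⟩ := exists_cycleOn (Finset.univ.filter fun x : Fin n => x ≠ a ∧ x ≠ b)
  have hnt : ((Finset.univ.filter fun x : Fin n => x ≠ a ∧ x ≠ b : Finset (Fin n)) :
      Set (Fin n)).Nontrivial := by
    rw [← Finset.Nontrivial, ← Finset.one_lt_card_iff_nontrivial]
    omega
  have hcyc : g.IsCycle := isCycle_iff_exists_isCycleOn.mpr ⟨_, hnt, hg, by
    intro x hx
    exact hgs (mem_support.mpr hx)⟩
  have hsupp : g.support = Finset.univ.filter fun x : Fin n => x ≠ a ∧ x ≠ b := by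
    apply Finset.Subset.antisymm hgs
    intro x hx
    exact mem_support.mpr (hg.apply_ne hnt hx)
  refine ⟨g, ?_, ?_, ?_⟩
  · rw [hcyc.sign, hsupp, h1, Finset.card_compl, Fintype.card_fin]
  · convert hg using 1
    ext x; simp
  · by_contra h
    have := hgs (mem_support.mpr h)
    simp at this

/-- quandles of permutations of arbitrary degree -/
theorem all_degrees {n : ℕ} (hn : 5 ≤ n) (C : Set (Quandle.Conj (Perm (Fin n))))
    (hC : IsSubrack C) (halt : alternatingGroup (Fin n) ≤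
      Subgroup.closure (C : Set (Perm (Fin n))))
    (hf : ∃ c ∈ C, (∀ x : Fin n, (c : Perm (Fin n)) x ≠ x) ∧
      (Even n ∨ Subgroup.closure (C : Set (Perm (Fin n))) = ⊤ ∨
        ∀ x : Fin n, (c : Perm (Fin n)) ((c : Perm (Fin n)) x) ≠ x))
    (hj : ∃ c ∈ C, Jor (n := n) c) : ¬ Acyclic (properSubracks C) := by
  obtain ⟨c, hcC, hc1, hc2⟩ := hf
  have main : ∀ (g : Perm (Fin n)) (a b : Fin n),
      g ∈ Subgroup.closure (C : Set (Perm (Fin n))) → g.IsCycleOn {x | x ≠ a ∧ x ≠ b} →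
      g a = a → (a = b ∨ Odd n ∧ ∀ x : Fin n, (c : Perm (Fin n)) ((c : Perm (Fin n)) x) ≠ x) →
      ¬ Acyclic (properSubracks C) := by
    intro g a b hg hcyc hga hab
    refine perm_crit C hC _ rfl g hg ?_
    intro K hgK hm
    obtain ⟨y, _, hy⟩ := hm c hcC
    have e : ∀ z : Fin n, y⁻¹ (y z) = z := by
      intro z; rw [← Perm.mul_apply, inv_mul_cancel]; rfl
    have e' : ∀ z : Fin n, y (y⁻¹ z) = z := by
      intro z; rw [← Perm.mul_apply, mul_inv_cancel]; rfl
    have hc1' : ∀ x : Fin n, (y * c * y⁻¹) x ≠ x := by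
      intro x h
      apply hc1 (y⁻¹ x)
      simp only [Perm.mul_apply] at h
      apply y.injective
      exact h.trans (e' x).symm
    have hab' : a = b ∨ Odd n ∧ ∀ x : Fin n, (y * c * y⁻¹) ((y * c * y⁻¹) x) ≠ x := by
      rcases hab with hab | ⟨hodd, hc2⟩
      · exact Or.inl hab
      · refine Or.inr ⟨hodd, ?_⟩
        intro x h
        apply hc2 (y⁻¹ x)
        simp only [Perm.mul_apply] at h
        rw [e] at h
        apply y.injective
        exact h.trans (e' x).symm
    have hp := prim_of hn K hgK hy hcyc hga hc1' hab'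
    obtain ⟨c', hc', hcj⟩ := hj
    obtain ⟨y', _, hy'⟩ := hm c' hc'
    exact alt_le K hp hy' (jor_cj y' hcj)
  have hcard1 : ({(⟨0, by omega⟩ : Fin n), ⟨0, by omega⟩} : Finset (Fin n)).card = 1 := by simp
  have hcard2 : ({(⟨0, by omega⟩ : Fin n), ⟨1, by omega⟩} : Finset (Fin n)).card = 2 :=
    Finset.card_pair (by simp)
  obtain ⟨g₁, hs1, hcyc1, hg1⟩ := exists_cyc hn ⟨0, by omega⟩ ⟨0, by omega⟩
  rw [hcard1] at hs1
  rcases hc2 with he | htop | hc2
  · refine main g₁ _ _ (halt ?_) hcyc1 hg1 (Or.inl rfl)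
    rw [mem_alternatingGroup, hs1, (Nat.Even.sub_odd (by omega) he odd_one).neg_one_pow, neg_neg]
  · exact main g₁ _ _ (by rw [htop]; exact Subgroup.mem_top _) hcyc1 hg1 (Or.inl rfl)
  · rcases Nat.even_or_odd n with he | ho
    · refine main g₁ _ _ (halt ?_) hcyc1 hg1 (Or.inl rfl)
      rw [mem_alternatingGroup, hs1, (Nat.Even.sub_odd (by omega) he odd_one).neg_one_pow,
        neg_neg]
    · obtain ⟨g₂, hs2, hcyc2, hg2⟩ := exists_cyc hn ⟨0, by omega⟩ ⟨1, by omega⟩
      rw [hcard2] at hs2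
      refine main g₂ _ _ (halt ?_) hcyc2 hg2 (Or.inr ⟨ho, hc2⟩)
      rw [mem_alternatingGroup, hs2, (Nat.Odd.sub_even (by omega) ho (by decide)).neg_one_pow,
        neg_neg]

end

end Pool.SubrackLattice
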