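import Pool.Agent.Work.MP_6197f9_h99.GenCrit2
import Pool.Agent.Work.MP_6197f9_h99.PermCrit

/-!
# Quandles of permutations: elements without invariant subsets of size `k`
-/

namespace Pool.SubrackLattice

noncomputable section

open scoped Classical Pointwise
open Equiv Equiv.Perm

variable {k m : ℕ}

abbrev XX3 (k m : ℕ) := Fin k ⊕ (Fin m × ZMod 3)

/-- the element of the elementary abelian group -/
def rho (v : Fin m → ZMod 3) : Perm (XX3 k m) where
  toFun x := match x with
    | Sum.inl a => Sum.inl a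
    | Sum.inr (j, x) => Sum.inr (j, x + v j)
  invFun x := match x with
    | Sum.inl a => Sum.inl a
    | Sum.inr (j, x) => Sum.inr (j, x - v j)
  left_inv x := by rcases x with a | ⟨j, x⟩ <;> simp
  right_inv x := by rcases x with a | ⟨j, x⟩ <;> simp

lemma rho_inl (v : Fin m → ZMod 3) (a : Fin k) : rho v (Sum.inl a : XX3 k m) = Sum.inl a := rfl

lemma rho_inr (v : Fin m → ZMod 3) (j : Fin m) (x : ZMod 3) :
    rho v (Sum.inr (j, x) : XX3 k m) = Sum.inr (j, x + v j) := rfl

/-- the group -/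
def P3 (k m : ℕ) : Subgroup (Perm (XX3 k m)) where
  carrier := {σ | ∃ v, σ = rho v}
  one_mem' := ⟨0, by
    ext x
    rcases x with a | ⟨j, x⟩
    · rfl
    · rw [rho_inr, Pi.zero_apply, add_zero]; rfl⟩
  mul_mem' := by
    rintro _ _ ⟨v, rfl⟩ ⟨w, rfl⟩
    refine ⟨w + v, ?_⟩
    ext x
    rcases x with a | ⟨j, x⟩
    · rfl
    · rw [Perm.mul_apply, rho_inr, rho_inr, rho_inr, Pi.add_apply, add_assoc]
  inv_mem' := by
    rintro _ ⟨v, rfl⟩
    refine ⟨-v, ?_⟩
    rw [inv_eq_iff_mul_eq_one]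
    ext x
    rcases x with a | ⟨j, x⟩
    · rfl
    · rw [Perm.mul_apply, rho_inr, rho_inr, Pi.neg_apply, neg_add_cancel_right]; rfl

lemma rho_pow (v : Fin m → ZMod 3) (i : ℕ) : (rho v : Perm (XX3 k m)) ^ i = rho (i • v) := by
  induction i with
  | zero =>
    ext x
    rcases x with a | ⟨j, x⟩
    · rfl
    · rw [pow_zero, rho_inr, zero_smul, Pi.zero_apply, add_zero]; rfl
  | succ i ih =>
    ext x
    rcases x with a | ⟨j, x⟩
    · rw [pow_succ, Perm.mul_apply, ih]; rfl
    · rw [pow_succ, Perm.mul_apply, ih, rho_inr, rho_inr, rho_inr, succ_nsmul, Pi.add_apply,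
        add_assoc, add_comm (v j)]

lemma p3_group : IsPGroup 3 (P3 k m) := by
  rintro ⟨_, v, rfl⟩
  refine ⟨1, Subtype.ext ?_⟩
  show (rho v : Perm (XX3 k m)) ^ 3 ^ 1 = 1
  rw [pow_one, rho_pow]
  have h : (3 : ℕ) • v = 0 := by
    funext j
    rw [Pi.smul_apply, nsmul_eq_mul, Pi.zero_apply, show ((3 : ℕ) : ZMod 3) = 0 from rfl, zero_mul]
  rw [h]
  ext x
  rcases x with a | ⟨j, x⟩
  · rfl
  · rw [rho_inr, Pi.zero_apply, add_zero]; rfl

/-- the twist -/
def tw (u : (ZMod 3)ˣ) [NeZero m] (j : Fin m) : (ZMod 3)ˣ := if j = 0 then u else 1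

/-- the element `g` -/
def gg [NeZero m] (u : (ZMod 3)ˣ) : Perm (XX3 k m) where
  toFun x := match x with
    | Sum.inl a => Sum.inl (finRotate k a)
    | Sum.inr (j, x) => Sum.inr (finRotate m j, tw u j * x)
  invFun x := match x with
    | Sum.inl a => Sum.inl ((finRotate k).symm a)
    | Sum.inr (j, x) => Sum.inr ((finRotate m).symm j,
        ((tw u ((finRotate m).symm j))⁻¹ : (ZMod 3)ˣ) * x)
  left_inv x := by
    rcases x with a | ⟨j, x⟩
    · show Sum.inl ((finRotate k).symm (finRotate k a)) = (Sum.inl a : XX3 k m)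
      rw [Equiv.symm_apply_apply]
    · show Sum.inr ((finRotate m).symm (finRotate m j),
        ((tw u ((finRotate m).symm (finRotate m j)))⁻¹ : (ZMod 3)ˣ) * ((tw u j : ZMod 3) * x)) =
          (Sum.inr (j, x) : XX3 k m)
      rw [Equiv.symm_apply_apply, Units.inv_mul_cancel_left]
  right_inv x := by
    rcases x with a | ⟨j, x⟩
    · show Sum.inl (finRotate k ((finRotate k).symm a)) = (Sum.inl a : XX3 k m)
      rw [Equiv.apply_symm_apply]
    · show Sum.inr (finRotate m ((finRotate m).symm j), (tw u ((finRotate m).symm j) : ZMod 3) *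
        (((tw u ((finRotate m).symm j))⁻¹ : (ZMod 3)ˣ) * x)) = (Sum.inr (j, x) : XX3 k m)
      rw [Equiv.apply_symm_apply, Units.mul_inv_cancel_left]

lemma gg_inl [NeZero m] (u : (ZMod 3)ˣ) (a : Fin k) :
    gg u (Sum.inl a : XX3 k m) = Sum.inl (finRotate k a) := rfl

lemma gg_inr [NeZero m] (u : (ZMod 3)ˣ) (j : Fin m) (x : ZMod 3) :
    gg u (Sum.inr (j, x) : XX3 k m) = Sum.inr (finRotate m j, tw u j * x) := rfl

lemma gg_norm [NeZero m] (u : (ZMod 3)ˣ) : ∀ x ∈ P3 k m, gg u * x * (gg u)⁻¹ ∈ P3 k m := by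
  rintro _ ⟨v, rfl⟩
  refine ⟨fun j => tw u ((finRotate m).symm j) * v ((finRotate m).symm j), ?_⟩
  rw [mul_inv_eq_iff_eq_mul]
  ext x
  rcases x with a | ⟨j, x⟩
  · rfl
  · rw [Perm.mul_apply, Perm.mul_apply, rho_inr, gg_inr, gg_inr, rho_inr,
      Equiv.symm_apply_apply, mul_add]

lemma gg_pow_inl [NeZero m] (u : (ZMod 3)ˣ) (a : Fin k) (i : ℕ) :
    (gg u ^ i) (Sum.inl a : XX3 k m) = Sum.inl ((finRotate k ^ i) a) := by
  induction i with
  | zero => rfl
  | succ i ih => rw [pow_succ', Perm.mul_apply, ih, gg_inl, pow_succ', Perm.mul_apply]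

lemma gg_pow_inr [NeZero m] (u : (ZMod 3)ˣ) (j : Fin m) (i : ℕ) :
    (gg u ^ i) (Sum.inr (j, 0) : XX3 k m) = Sum.inr ((finRotate m ^ i) j, 0) := by
  induction i with
  | zero => rfl
  | succ i ih => rw [pow_succ', Perm.mul_apply, ih, gg_inr, mul_zero, pow_succ', Perm.mul_apply]

/-- the sign can be prescribed -/
lemma gg_sign [NeZero m] : ∃ u : (ZMod 3)ˣ, sign (gg u : Perm (XX3 k m)) = 1 := by
  have h : (gg (-1) : Perm (XX3 k m)) = gg 1 * swap (Sum.inr (0, 1)) (Sum.inr (0, 2)) := by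
    ext x
    rcases x with a | ⟨j, x⟩
    · rw [Perm.mul_apply, swap_apply_of_ne_of_ne (by simp) (by simp)]; rfl
    · by_cases hj : j = 0
      · subst hj
        rw [Perm.mul_apply, gg_inr]
        have h3 : x = 0 ∨ x = 1 ∨ x = 2 := by revert x; decide
        rcases h3 with rfl | rfl | rfl
        · rw [swap_apply_of_ne_of_ne (by
            intro h; simp only [Sum.inr.injEq, Prod.mk.injEq] at h; exact absurd h.2 (by decide)) (by
            intro h; simp only [Sum.inr.injEq, Prod.mk.injEq] at h; exact absurd h.2 (by decide)),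
            gg_inr, mul_zero, mul_zero]
        · rw [swap_apply_left, gg_inr]
          unfold tw
          rw [if_pos rfl, if_pos rfl]
          congr 2
        · rw [swap_apply_right, gg_inr]
          unfold tw
          rw [if_pos rfl, if_pos rfl]
          congr 2
      · rw [Perm.mul_apply, swap_apply_of_ne_of_ne (by
            intro h; simp only [Sum.inr.injEq, Prod.mk.injEq] at h; exact hj h.1) (by
            intro h; simp only [Sum.inr.injEq, Prod.mk.injEq] at h; exact hj h.1), gg_inr, gg_inr]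
        unfold tw
        rw [if_neg hj, if_neg hj]
  have hne : (Sum.inr (0, 1) : XX3 k m) ≠ Sum.inr (0, 2) := by
    intro h; simp only [Sum.inr.injEq, Prod.mk.injEq] at h; exact absurd h.2 (by decide)
  rcases Int.units_eq_one_or (sign (gg 1 : Perm (XX3 k m))) with h1 | h1
  · exact ⟨1, h1⟩
  · exact ⟨-1, by rw [h, Perm.sign_mul, h1, Perm.sign_swap hne]; rfl⟩

end

end Pool.SubrackLattice
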