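import Pool.Agent.Work.MP_6197f9_h99.PermInv

/-!
# Quandles of permutations: elements without invariant subsets of size `k`, the theorem
-/

namespace Pool.SubrackLattice

noncomputable section

open scoped Classical Pointwise
open Equiv Equiv.Perm

variable {k m : ℕ}

lemma rot_val [NeZero k] (i : ℕ) (a : Fin k) :
    (((finRotate k) ^ i) a).val = (a.val + i) % k := by
  obtain ⟨k', rfl⟩ : ∃ k', k = k' + 1 := ⟨k - 1, by have := NeZero.pos k; omega⟩
  induction i with
  | zero => rw [pow_zero, Perm.one_apply, add_zero, Nat.mod_eq_of_lt a.2]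
  | succ i ih =>
    rw [pow_succ', Perm.mul_apply, finRotate_succ_apply, Fin.val_add, ih, Fin.val_one',
      ← Nat.add_mod, add_assoc]

/-- prescribed rotations on both parts -/
lemma exists_rot [NeZero k] [NeZero m] (hco : k.Coprime m) (a a' : Fin k) (j j' : Fin m) :
    ∃ i : ℕ, ((finRotate k) ^ i) a = a' ∧ ((finRotate m) ^ i) j = j' := by
  obtain ⟨i, h1, h2⟩ := Nat.chineseRemainder hco (k - a.val + a'.val) (m - j.val + j'.val)
  refine ⟨i, Fin.ext ?_, Fin.ext ?_⟩
  · rw [rot_val]
    have h3 : (a.val + i) % k = (a.val + (k - a.val + a'.val)) % k := Nat.ModEq.add_left _ h1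
    rw [h3, show a.val + (k - a.val + a'.val) = a'.val + k by have := a.2; omega,
      Nat.add_mod_right, Nat.mod_eq_of_lt a'.2]
  · rw [rot_val]
    have h3 : (j.val + i) % m = (j.val + (m - j.val + j'.val)) % m := Nat.ModEq.add_left _ h2
    rw [h3, show j.val + (m - j.val + j'.val) = j'.val + m by have := j.2; omega,
      Nat.add_mod_right, Nat.mod_eq_of_lt j'.2]

lemma rho_three [NeZero m] : (rho (Pi.single 0 1) : Perm (XX3 k m)).IsThreeCycle := by
  rw [← card_support_eq_three_iff]
  have h : (rho (Pi.single 0 1) : Perm (XX3 k m)).support =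
      {Sum.inr (0, 0), Sum.inr (0, 1), Sum.inr (0, 2)} := by
    ext x
    rw [mem_support]
    rcases x with a | ⟨j, x⟩
    · rw [rho_inl]
      simp
    · rw [rho_inr]
      by_cases hj : j = 0
      · subst hj
        rw [Pi.single_eq_same]
        have h3 : x = 0 ∨ x = 1 ∨ x = 2 := by revert x; decide
        have h4 : x + 1 ≠ x := by revert x; decide
        constructor
        · intro _
          rcases h3 with rfl | rfl | rfl <;> simp
        · intro _ h5
          simp only [Sum.inr.injEq, Prod.mk.injEq] at h5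
          exact h4 h5.2
      · rw [Pi.single_eq_of_ne hj, add_zero]
        simp [hj]
  rw [h]
  have e1 : (0 : ZMod 3) ≠ 1 := by decide
  have e2 : (0 : ZMod 3) ≠ 2 := by decide
  have e3 : (1 : ZMod 3) ≠ 2 := by decide
  rw [Finset.card_insert_of_notMem, Finset.card_insert_of_notMem, Finset.card_singleton]
  · simp only [Finset.mem_singleton, Sum.inr.injEq, Prod.mk.injEq, true_and]
    exact e3
  · simp only [Finset.mem_insert, Finset.mem_singleton, Sum.inr.injEq, Prod.mk.injEq, true_and]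
    rintro (h | h)
    · exact e1 h
    · exact e2 h

/-- overgroups which do not preserve the part of size `k` -/
theorem core_perm [NeZero k] [NeZero m] (hco : k.Coprime (3 * m)) (K : Subgroup (Perm (XX3 k m)))
    (hP : P3 k m ≤ K) {u : (ZMod 3)ˣ} (hg : gg u ∈ K)
    (hne : ¬ ∀ σ ∈ K, ∀ a : Fin k, ∃ a' : Fin k, σ (Sum.inl a) = Sum.inl a') :
    alternatingGroup (XX3 k m) ≤ K := by
  have hkm : k.Coprime m := Nat.Coprime.coprime_mul_left_right hco
  push Not at hne
  obtain ⟨σ, hσ, a₀, ha₀⟩ := hne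
  have hgi : ∀ i : ℕ, gg u ^ i ∈ K := fun i => K.pow_mem hg i
  have hr : ∀ v : Fin m → ZMod 3, (rho v : Perm (XX3 k m)) ∈ K := fun v => hP ⟨v, rfl⟩
  obtain ⟨p, hp⟩ : ∃ p, σ (Sum.inl a₀) = Sum.inr p := by
    rcases hx : σ (Sum.inl a₀) with a | p
    · exact absurd hx (ha₀ a)
    · exact ⟨p, rfl⟩
  -- transitivity
  have hbase : ∀ x : XX3 k m, ∃ κ : K, κ • x = Sum.inr ((0 : Fin m), (0 : ZMod 3)) := by
    have hinr : ∀ (j : Fin m) (x : ZMod 3), ∃ κ : K, κ • (Sum.inr (j, x) : XX3 k m) =
        Sum.inr ((0 : Fin m), (0 : ZMod 3)) := by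
      intro j x
      obtain ⟨i, _, hi⟩ := exists_rot hkm a₀ a₀ j 0
      refine ⟨⟨gg u ^ i, hgi i⟩ * ⟨rho (Pi.single j (-x)), hr _⟩, ?_⟩
      show (gg u ^ i) (rho (Pi.single j (-x)) (Sum.inr (j, x))) = _
      rw [rho_inr, Pi.single_eq_same, add_neg_cancel, gg_pow_inr, hi]
    rintro (a | ⟨j, x⟩)
    · obtain ⟨i, hi, _⟩ := exists_rot hkm a a₀ (0 : Fin m) 0
      obtain ⟨κ, hκ⟩ := hinr p.1 p.2
      refine ⟨κ * (⟨σ, hσ⟩ * ⟨gg u ^ i, hgi i⟩), ?_⟩
      rw [mul_smul]
      have h1 : ((⟨σ, hσ⟩ : K) * ⟨gg u ^ i, hgi i⟩) • (Sum.inl a : XX3 k m) = Sum.inr p := by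
        show σ ((gg u ^ i) (Sum.inl a)) = Sum.inr p
        rw [gg_pow_inl, hi, hp]
      rw [h1]
      exact hκ
    · exact hinr j x
  have htr : MulAction.IsPretransitive K (XX3 k m) := by
    refine ⟨fun x y => ?_⟩
    obtain ⟨κ, hκ⟩ := hbase x
    obtain ⟨l, hl⟩ := hbase y
    exact ⟨l⁻¹ * κ, by rw [mul_smul, hκ, ← hl, inv_smul_smul]⟩
  have hprim : MulAction.IsPreprimitive K (XX3 k m) := by
    refine MulAction.IsPreprimitive.of_isTrivialBlock_base (Sum.inl a₀) ?_
    intro B haB hB
    by_cases hsub : B.Subsingleton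
    · exact Or.inl hsub
    right
    by_cases hex : ∃ j x, (Sum.inr (j, x) : XX3 k m) ∈ B
    · obtain ⟨j, x, hjx⟩ := hex
      have hrB : ∀ v : Fin m → ZMod 3, ∀ z ∈ B, rho v z ∈ B := by
        intro v z hz
        have h1 := hB.smul_eq_of_mem haB (g := (⟨rho v, hr v⟩ : K)) (by
          show rho v (Sum.inl a₀) ∈ B
          rw [rho_inl]; exact haB)
        have h2 : rho v z ∈ (⟨rho v, hr v⟩ : K) • B := ⟨z, hz, rfl⟩
        rwa [h1] at h2
      have hj0 : (Sum.inr (j, 0) : XX3 k m) ∈ B := by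
        have := hrB (Pi.single j (-x)) _ hjx
        rwa [rho_inr, Pi.single_eq_same, add_neg_cancel] at this
      have hall0 : ∀ j' : Fin m, (Sum.inr (j', 0) : XX3 k m) ∈ B := by
        intro j'
        obtain ⟨i, hi, hi'⟩ := exists_rot hkm a₀ a₀ j j'
        have h1 := hB.smul_eq_of_mem haB (g := (⟨gg u ^ i, hgi i⟩ : K)) (by
          show (gg u ^ i) (Sum.inl a₀) ∈ B
          rw [gg_pow_inl, hi]; exact haB)
        have h2 : (gg u ^ i) (Sum.inr (j, 0)) ∈ (⟨gg u ^ i, hgi i⟩ : K) • B := ⟨_, hj0, rfl⟩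
        rwa [h1, gg_pow_inr, hi'] at h2
      rw [Set.eq_univ_iff_forall]
      rintro (a | ⟨j', x'⟩)
      · obtain ⟨i, hi, hi'⟩ := exists_rot hkm a₀ a j j
        have h1 := hB.smul_eq_of_mem hj0 (g := (⟨gg u ^ i, hgi i⟩ : K)) (by
          show (gg u ^ i) (Sum.inr (j, 0)) ∈ B
          rw [gg_pow_inr, hi']; exact hj0)
        have h2 : (gg u ^ i) (Sum.inl a₀) ∈ (⟨gg u ^ i, hgi i⟩ : K) • B := ⟨_, haB, rfl⟩
        rwa [h1, gg_pow_inl, hi] at h2
      · have := hrB (Pi.single j' x') _ (hall0 j')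
        rwa [rho_inr, Pi.single_eq_same, zero_add] at this
    · exfalso
      push Not at hex
      let B' : Set (Fin k) := {a | (Sum.inl a : XX3 k m) ∈ B}
      have hBB : B = Sum.inl '' B' := by
        ext z
        constructor
        · intro hz
          rcases z with a | ⟨j, x⟩
          · exact ⟨a, hz, rfl⟩
          · exact absurd hz (hex j x)
        · rintro ⟨a, ha, rfl⟩
          exact ha
      have hcardB : B.ncard = B'.ncard := by
        rw [hBB, Set.ncard_image_of_injective _ Sum.inl_injective]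
      have htr' : MulAction.IsPretransitive (Subgroup.zpowers (finRotate k)) (Fin k) := by
        refine ⟨fun a a' => ?_⟩
        obtain ⟨i, hi, _⟩ := exists_rot hkm a a' (0 : Fin m) 0
        exact ⟨⟨finRotate k ^ i, Subgroup.npow_mem_zpowers _ i⟩, hi⟩
      have hB' : MulAction.IsBlock (Subgroup.zpowers (finRotate k)) B' := by
        rw [MulAction.isBlock_iff_smul_eq_or_disjoint]
        rintro ⟨h, hh⟩
        rw [← mem_powers_iff_mem_zpowers] at hh
        obtain ⟨i, rfl⟩ := hh
        rw [or_iff_not_imp_right, Set.not_disjoint_iff]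
        rintro ⟨b, ⟨c, hc, hcb⟩, hb⟩
        have hcb' : (finRotate k ^ i) c = b := hcb
        have h1 := hB.smul_eq_of_mem (g := (⟨gg u ^ i, hgi i⟩ : K)) hc (by
          show (gg u ^ i) (Sum.inl c) ∈ B
          rw [gg_pow_inl, hcb']
          exact hb)
        ext d
        constructor
        · rintro ⟨e, he, hed⟩
          have hed' : (finRotate k ^ i) e = d := hed
          have h2 : (gg u ^ i) (Sum.inl e) ∈ (⟨gg u ^ i, hgi i⟩ : K) • B := ⟨_, he, rfl⟩
          rw [h1, gg_pow_inl, hed'] at h2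
          exact h2
        · intro hd
          have h2 : (Sum.inl d : XX3 k m) ∈ (⟨gg u ^ i, hgi i⟩ : K) • B := by
            rw [h1]; exact hd
          obtain ⟨z, hz, hzd⟩ := h2
          have hzd' : (gg u ^ i) z = Sum.inl d := hzd
          rw [hBB] at hz
          obtain ⟨e, he, rfl⟩ := hz
          rw [gg_pow_inl] at hzd'
          exact ⟨e, he, Sum.inl_injective hzd'⟩
      have hd1 : B'.ncard ∣ k := by
        have := hB'.ncard_dvd_card ⟨a₀, haB⟩
        rwa [Nat.card_eq_fintype_card, Fintype.card_fin] at this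
      have hd2 : B.ncard ∣ k + m * 3 := by
        have := hB.ncard_dvd_card ⟨_, haB⟩
        rwa [Nat.card_eq_fintype_card, Fintype.card_sum, Fintype.card_prod, Fintype.card_fin,
          Fintype.card_fin, ZMod.card] at this
      rw [hcardB] at hd2
      have hd3 : B'.ncard ∣ 3 * m := by
        rw [mul_comm]
        exact (Nat.dvd_add_right hd1).mp hd2
      have hd4 : B'.ncard ∣ 1 := by
        have := Nat.dvd_gcd hd1 hd3
        rwa [hco] at this
      have hd5 : B.ncard ≤ 1 := by
        rw [hcardB]; exact Nat.le_of_dvd one_pos hd4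
      apply hsub
      intro x hx y hy
      exact (Set.ncard_le_one (Set.toFinite B)).mp hd5 x hx y hy
  exact alternatingGroup_le_of_isPreprimitive_of_isThreeCycle_mem hprim rho_three (hr _)

end

end Pool.SubrackLattice
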