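import Mathlib

/-!
# Permutation modules of a map of prime period in characteristic `p`
-/

namespace Pool.SubrackLattice

open Finset

noncomputable section

open scoped Classical

section PM

variable {S F : Type*} [CommRing F]

/-- the operator of the map `ε` -/
def TT (F : Type*) [CommRing F] (ε : S → S) : (S →₀ F) →ₗ[F] (S →₀ F) := Finsupp.lmapDomain F F ε

/-- `1 - T` -/
def tau (F : Type*) [CommRing F] (ε : S → S) : (S →₀ F) →ₗ[F] (S →₀ F) :=
  LinearMap.id - TT F ε

/-- `1 + T + ⋯ + T ^ (p - 1)` -/
def nrm (F : Type*) [CommRing F] (p : ℕ) (ε : S → S) : (S →₀ F) →ₗ[F] (S →₀ F) :=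
  ∑ i ∈ Finset.range p, TT F (ε^[i])

lemma TT_single (ε : S → S) (x : S) (c : F) :
    TT F ε (Finsupp.single x c) = Finsupp.single (ε x) c := by
  unfold TT
  rw [Finsupp.lmapDomain_apply, Finsupp.mapDomain_single]

lemma TT_TT (ε δ : S → S) (v : S →₀ F) : TT F ε (TT F δ v) = TT F (ε ∘ δ) v := by
  unfold TT
  simp only [Finsupp.lmapDomain_apply]
  rw [← Finsupp.mapDomain_comp]

lemma TT_id (v : S →₀ F) : TT F (id : S → S) v = v := by
  unfold TT
  rw [Finsupp.lmapDomain_apply, Finsupp.mapDomain_id]

lemma tau_apply (ε : S → S) (v : S →₀ F) : tau F ε v = v - TT F ε v := rfl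

lemma nrm_apply (p : ℕ) (ε : S → S) (v : S →₀ F) :
    nrm F p ε v = ∑ i ∈ Finset.range p, TT F (ε^[i]) v := by
  unfold nrm; rw [LinearMap.sum_apply]

lemma TT_apply {ε : S → S} (hε : Function.Injective ε) (v : S →₀ F) (x : S) :
    TT F ε v (ε x) = v x := by
  unfold TT
  rw [Finsupp.lmapDomain_apply, Finsupp.mapDomain_apply hε]

/-- chains supported on `s` -/
abbrev Mo (F : Type*) [CommRing F] (s : Set S) : Submodule F (S →₀ F) := Finsupp.supported F F s

lemma mo_le {s : Set S} (T : Submodule F (S →₀ F)) (h : ∀ x ∈ s, Finsupp.single x (1 : F) ∈ T) :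
    Mo F s ≤ T := by
  rw [Mo, Finsupp.supported_eq_span_single, Submodule.span_le]
  rintro _ ⟨x, hx, rfl⟩
  exact h x hx

lemma TT_eq_self {ε : S → S} {s : Set S} (h : ∀ x ∈ s, ε x = x) {v : S →₀ F} (hv : v ∈ Mo F s) :
    TT F ε v = v := by
  have h1 : Mo F s ≤ LinearMap.ker (TT F ε - LinearMap.id) := by
    apply mo_le
    intro x hx
    rw [LinearMap.mem_ker, LinearMap.sub_apply, TT_single, h x hx, LinearMap.id_apply, sub_self]
  have h2 := h1 hv
  rw [LinearMap.mem_ker, LinearMap.sub_apply, LinearMap.id_apply, sub_eq_zero] at h2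
  exact h2

lemma TT_mem {ε : S → S} {s : Set S} (h : ∀ x ∈ s, ε x ∈ s) {v : S →₀ F} (hv : v ∈ Mo F s) :
    TT F ε v ∈ Mo F s := by
  have h1 : Mo F s ≤ (Mo F s).comap (TT F ε) := by
    apply mo_le
    intro x hx
    rw [Submodule.mem_comap, TT_single]
    exact Finsupp.single_mem_supported F 1 (h x hx)
  exact h1 hv

/-- the setting -/
structure Pset (p : ℕ) (ε : S → S) (s : Set S) : Prop where
  inj : Function.Injective ε
  mem : ∀ x ∈ s, ε x ∈ s
  per : ∀ x ∈ s, ε^[p] x = x

variable {p : ℕ} {ε : S → S} {s : Set S}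

lemma Pset.it (h : Pset p ε s) (i : ℕ) : ∀ x ∈ s, ε^[i] x ∈ s := by
  induction i with
  | zero => intro x hx; exact hx
  | succ i ih => intro x hx; rw [Function.iterate_succ_apply]; exact ih _ (h.mem x hx)

lemma tau_mem (h : Pset p ε s) {v : S →₀ F} (hv : v ∈ Mo F s) : tau F ε v ∈ Mo F s :=
  Submodule.sub_mem _ hv (TT_mem h.mem hv)

lemma nrm_mem (h : Pset p ε s) {v : S →₀ F} (hv : v ∈ Mo F s) : nrm F p ε v ∈ Mo F s := by
  rw [nrm_apply]
  exact Submodule.sum_mem _ fun i _ => TT_mem (h.it i) hv

lemma TTp (h : Pset p ε s) {v : S →₀ F} (hv : v ∈ Mo F s) : TT F (ε^[p]) v = v :=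
  TT_eq_self h.per hv

lemma tau_nrm (h : Pset p ε s) {v : S →₀ F} (hv : v ∈ Mo F s) : tau F ε (nrm F p ε v) = 0 := by
  rw [tau_apply, nrm_apply, map_sum]
  have h1 : ∀ i ∈ Finset.range p, TT F ε (TT F (ε^[i]) v) = TT F (ε^[i + 1]) v := by
    intro i _
    rw [TT_TT, Function.iterate_succ']
  rw [Finset.sum_congr rfl h1, ← Finset.sum_sub_distrib]
  have h2 := Finset.sum_range_sub' (fun i => TT F (ε^[i]) v) p
  rw [h2]
  show TT F (ε^[0]) v - TT F (ε^[p]) v = 0
  rw [TTp h hv, Function.iterate_zero, TT_id, sub_self]

lemma nrm_tau (h : Pset p ε s) {v : S →₀ F} (hv : v ∈ Mo F s) : nrm F p ε (tau F ε v) = 0 := by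
  rw [nrm_apply, tau_apply]
  have h1 : ∀ i ∈ Finset.range p, TT F (ε^[i]) (v - TT F ε v) =
      TT F (ε^[i]) v - TT F (ε^[i + 1]) v := by
    intro i _
    rw [map_sub, TT_TT, Function.iterate_succ]
  rw [Finset.sum_congr rfl h1, Finset.sum_range_sub' (fun i => TT F (ε^[i]) v) p]
  show TT F (ε^[0]) v - TT F (ε^[p]) v = 0
  rw [TTp h hv, Function.iterate_zero, TT_id, sub_self]

/-- the fixed points -/
def fx (ε : S → S) (s : Set S) : Set S := {x | x ∈ s ∧ ε x = x}

lemma tau_fx {v : S →₀ F} (hv : v ∈ Mo F (fx ε s)) : tau F ε v = 0 := by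
  rw [tau_apply, TT_eq_self (fun x hx => hx.2) hv, sub_self]

lemma nrm_fx (hp : (p : F) = 0) {v : S →₀ F} (hv : v ∈ Mo F (fx ε s)) : nrm F p ε v = 0 := by
  rw [nrm_apply]
  have h1 : ∀ i ∈ Finset.range p, TT F (ε^[i]) v = v := by
    intro i _
    exact TT_eq_self (fun x hx => Function.iterate_fixed hx.2 i) hv
  rw [Finset.sum_congr rfl h1, Finset.sum_const, Finset.card_range, ← Nat.cast_smul_eq_nsmul F, hp,
    zero_smul]

lemma iter_fix_apply {x : S} (hx : ε x = x) (hinj : Function.Injective ε) (v : S →₀ F) (i : ℕ) :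
    TT F (ε^[i]) v x = v x := by
  have h1 : ε^[i] x = x := Function.iterate_fixed hx i
  conv_lhs => rw [← h1]
  exact TT_apply (hinj.iterate i) v x

lemma nrm_inter (hp : (p : F) = 0) (h : Pset p ε s) {v : S →₀ F}
    (hf : nrm F p ε v ∈ Mo F (fx ε s)) : nrm F p ε v = 0 := by
  ext x
  by_cases hx : x ∈ fx ε s
  · rw [nrm_apply, Finsupp.finset_sum_apply]
    have h1 : ∀ i ∈ Finset.range p, TT F (ε^[i]) v x = v x := fun i _ =>
      iter_fix_apply hx.2 h.inj v i
    rw [Finset.sum_congr rfl h1, Finset.sum_const, Finset.card_range, nsmul_eq_mul, hp, zero_mul]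
    rfl
  · exact (Finsupp.mem_supported' F _).mp hf x hx

lemma tau_inter (h : Pset p ε s) {v : S →₀ F}
    (hf : tau F ε v ∈ Mo F (fx ε s)) : tau F ε v = 0 := by
  ext x
  by_cases hx : x ∈ fx ε s
  · rw [tau_apply, Finsupp.sub_apply]
    have := iter_fix_apply hx.2 h.inj v 1
    rw [Function.iterate_one] at this
    rw [this, sub_self]; rfl
  · exact (Finsupp.mem_supported' F _).mp hf x hx

/-- the points of a non-trivial orbit are different -/
lemma orbit_inj (hpp : p.Prime) (h : Pset p ε s) {x : S} (hx : x ∈ s) (hne : ε x ≠ x) {i j : ℕ}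
    (hi : i < p) (hj : j < p) (hij : ε^[i] x = ε^[j] x) : i = j := by
  have h1 : Function.minimalPeriod ε x = p := by
    have h2 : Function.minimalPeriod ε x ∣ p :=
      Function.IsPeriodicPt.minimalPeriod_dvd (h.per x hx)
    rcases (Nat.dvd_prime hpp).mp h2 with h3 | h3
    · exact absurd (Function.minimalPeriod_eq_one_iff_isFixedPt.mp h3) hne
    · exact h3
  exact (Function.iterate_eq_iterate_iff_of_lt_minimalPeriod (by rw [h1]; exact hi)
    (by rw [h1]; exact hj)).mp hij

lemma ker_tau (hpp : p.Prime) (h : Pset p ε s) : ∀ (k : ℕ) (v : S →₀ F), v.support.card = k →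
    v ∈ Mo F s → tau F ε v = 0 → ∃ a ∈ Mo F s, ∃ f ∈ Mo F (fx ε s), v = nrm F p ε a + f := by
  intro k
  induction k using Nat.strong_induction_on with
  | _ k ih =>
    intro v hk hv ht
    by_cases hall : ∀ x ∈ v.support, ε x = x
    · refine ⟨0, Submodule.zero_mem _, v, ?_, by rw [map_zero, zero_add]⟩
      intro x hx
      exact ⟨hv hx, hall x hx⟩
    · push Not at hall
      obtain ⟨x, hx, hne⟩ := hall
      have hxs : x ∈ s := hv hx
      have hT : TT F ε v = v := by
        rw [tau_apply, sub_eq_zero] at ht; exact ht.symm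
      have hinv : ∀ z, v (ε z) = v z := by
        intro z
        conv_lhs => rw [← hT]
        exact TT_apply h.inj v z
      have hinv' : ∀ i, v (ε^[i] x) = v x := by
        intro i
        induction i with
        | zero => rfl
        | succ i ih' => rw [Function.iterate_succ_apply', hinv, ih']
      let u : S →₀ F := nrm F p ε (Finsupp.single x (v x))
      have hu : u = ∑ i ∈ Finset.range p, Finsupp.single (ε^[i] x) (v x) := by
        show nrm F p ε _ = _
        rw [nrm_apply]
        exact Finset.sum_congr rfl fun i _ => TT_single _ _ _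
      have hsingle : Finsupp.single x (v x) ∈ Mo F s := Finsupp.single_mem_supported F _ hxs
      have hval : ∀ y, (v - u) y = 0 ∨ ((v - u) y = v y ∧ y ≠ x) := by
        intro y
        by_cases hy : ∃ i < p, ε^[i] x = y
        · left
          obtain ⟨i, hi, rfl⟩ := hy
          rw [Finsupp.sub_apply, hu, Finsupp.finset_sum_apply,
            Finset.sum_eq_single_of_mem i (Finset.mem_range.mpr hi)]
          · rw [Finsupp.single_eq_same, hinv', sub_self]
          · intro j hj hji
            rw [Finsupp.single_eq_of_ne]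
            intro hcon
            exact hji (orbit_inj hpp h hxs hne hi (Finset.mem_range.mp hj) hcon).symm
        · right
          push Not at hy
          refine ⟨?_, fun hyx => hy 0 hpp.pos (by rw [hyx]; rfl)⟩
          rw [Finsupp.sub_apply, hu, Finsupp.finset_sum_apply, Finset.sum_eq_zero, sub_zero]
          intro i hi
          rw [Finsupp.single_eq_of_ne]
          intro hcon
          exact hy i (Finset.mem_range.mp hi) hcon.symm
      have hlt : (v - u).support.card < k := by
        rw [← hk]
        apply Finset.card_lt_card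
        refine ⟨?_, ?_⟩
        · intro y hy
          rw [Finsupp.mem_support_iff] at hy ⊢
          rcases hval y with h1 | h1
          · exact absurd h1 hy
          · rw [← h1.1]; exact hy
        · intro hcon
          have h1 := hcon hx
          rw [Finsupp.mem_support_iff] at h1
          rcases hval x with h2 | h2
          · exact h1 h2
          · exact h2.2 rfl
      obtain ⟨a, ha, f, hf, hvf⟩ := ih _ hlt (v - u) rfl
        (Submodule.sub_mem _ hv (nrm_mem h hsingle)) (by
          rw [map_sub, ht, tau_nrm h hsingle, sub_zero])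
      refine ⟨a + Finsupp.single x (v x), Submodule.add_mem _ ha hsingle, f, hf, ?_⟩
      rw [map_add, add_right_comm, ← hvf]
      exact (sub_add_cancel v u).symm

lemma ker_nrm (hpp : p.Prime) (h : Pset p ε s) : ∀ (k : ℕ) (v : S →₀ F), v.support.card = k →
    v ∈ Mo F s → nrm F p ε v = 0 → ∃ a ∈ Mo F s, ∃ f ∈ Mo F (fx ε s), v = tau F ε a + f := by
  intro k
  induction k using Nat.strong_induction_on with
  | _ k ih =>
    intro v hk hv ht
    by_cases hall : ∀ x ∈ v.support, ε x = x
    · refine ⟨0, Submodule.zero_mem _, v, ?_, by rw [map_zero, zero_add]⟩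
      intro x hx
      exact ⟨hv hx, hall x hx⟩
    · push Not at hall
      obtain ⟨x, hx, hne⟩ := hall
      have hxs : x ∈ s := hv hx
      -- the sum over the orbit is zero
      have hsum : ∑ j ∈ Finset.range p, v (ε^[j] x) = 0 := by
        have h1 : nrm F p ε v (ε^[p - 1] x) = 0 := by rw [ht]; rfl
        rw [nrm_apply, Finsupp.finset_sum_apply] at h1
        rw [← h1, ← Finset.sum_range_reflect]
        apply Finset.sum_congr rfl
        intro j hj
        rw [Finset.mem_range] at hj
        have h2 : ε^[p - 1] x = ε^[j] (ε^[p - 1 - j] x) := by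
          rw [← Function.iterate_add_apply]
          congr 1; omega
        rw [h2, TT_apply (h.inj.iterate j)]
      -- the telescoping sum
      let b : S →₀ F := -∑ i ∈ Finset.range p, ∑ j ∈ Finset.range i,
        Finsupp.single (ε^[j] x) (v (ε^[i] x))
      have hb : b ∈ Mo F s := Submodule.neg_mem _ (Submodule.sum_mem _ fun i _ =>
        Submodule.sum_mem _ fun j _ => Finsupp.single_mem_supported F _ (h.it j x hxs))
      have hu : tau F ε b = ∑ i ∈ Finset.range p,
          (Finsupp.single (ε^[i] x) (v (ε^[i] x)) - Finsupp.single x (v (ε^[i] x))) := by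
        show tau F ε (-_) = _
        rw [map_neg, map_sum, ← Finset.sum_neg_distrib]
        apply Finset.sum_congr rfl
        intro i _
        rw [map_sum]
        have h1 : ∀ j ∈ Finset.range i, tau F ε (Finsupp.single (ε^[j] x) (v (ε^[i] x))) =
            Finsupp.single (ε^[j] x) (v (ε^[i] x)) - Finsupp.single (ε^[j + 1] x) (v (ε^[i] x)) := by
          intro j _
          rw [tau_apply, TT_single, Function.iterate_succ_apply']
        rw [Finset.sum_congr rfl h1, Finset.sum_range_sub'
          (fun j => Finsupp.single (ε^[j] x) (v (ε^[i] x))) i, neg_sub]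
        rfl
      have hval : ∀ y, (v - tau F ε b) y = 0 ∨ ((v - tau F ε b) y = v y ∧ y ≠ x) := by
        intro y
        rw [Finsupp.sub_apply, hu, Finset.sum_sub_distrib, Finsupp.sub_apply,
          Finsupp.finset_sum_apply, Finsupp.finset_sum_apply]
        by_cases hyx : y = x
        · left
          subst hyx
          rw [Finset.sum_eq_single_of_mem 0 (Finset.mem_range.mpr hpp.pos)]
          · have h1 : ∑ i ∈ Finset.range p, (Finsupp.single y (v (ε^[i] y))) y = 0 := by
              rw [← hsum]
              exact Finset.sum_congr rfl fun i _ => Finsupp.single_eq_same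
            rw [h1, Function.iterate_zero, id_eq, Finsupp.single_eq_same, sub_zero, sub_self]
          · intro j hj hj0
            rw [Finsupp.single_eq_of_ne]
            intro hcon
            exact hj0 (orbit_inj hpp h hxs hne (Finset.mem_range.mp hj) hpp.pos hcon.symm)
        · have h0 : ∑ i ∈ Finset.range p, (Finsupp.single x (v (ε^[i] x))) y = 0 := by
            apply Finset.sum_eq_zero
            intro i _
            rw [Finsupp.single_eq_of_ne]
            exact hyx
          rw [h0, sub_zero]
          by_cases hy : ∃ i < p, ε^[i] x = y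
          · left
            obtain ⟨i, hi, rfl⟩ := hy
            rw [Finset.sum_eq_single_of_mem i (Finset.mem_range.mpr hi)]
            · rw [Finsupp.single_eq_same, sub_self]
            · intro j hj hji
              rw [Finsupp.single_eq_of_ne]
              intro hcon
              exact hji (orbit_inj hpp h hxs hne hi (Finset.mem_range.mp hj) hcon).symm
          · right
            push Not at hy
            refine ⟨?_, hyx⟩
            rw [Finset.sum_eq_zero, sub_zero]
            intro i hi
            rw [Finsupp.single_eq_of_ne]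
            intro hcon
            exact hy i (Finset.mem_range.mp hi) hcon.symm
      have hlt : (v - tau F ε b).support.card < k := by
        rw [← hk]
        apply Finset.card_lt_card
        refine ⟨?_, ?_⟩
        · intro y hy
          rw [Finsupp.mem_support_iff] at hy ⊢
          rcases hval y with h1 | h1
          · exact absurd h1 hy
          · rw [← h1.1]; exact hy
        · intro hcon
          have h1 := hcon hx
          rw [Finsupp.mem_support_iff] at h1
          rcases hval x with h2 | h2
          · exact h1 h2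
          · exact h2.2 rfl
      obtain ⟨a, ha, f, hf, hvf⟩ := ih _ hlt (v - tau F ε b) rfl
        (Submodule.sub_mem _ hv (tau_mem h hb)) (by
          rw [map_sub, ht, nrm_tau h hb, sub_zero])
      refine ⟨a + b, Submodule.add_mem _ ha hb, f, hf, ?_⟩
      rw [map_add, add_right_comm, ← hvf]
      exact (sub_add_cancel v _).symm

end PM

end

end Pool.SubrackLattice
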