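import Pool.Agent.Work.MP_6197f9_h99.PermMod
import Pool.Agent.Work.MP_6197f9_h99.Lefschetz

/-!
# Smith theory for order complexes
-/

namespace Pool.SubrackLattice

open Finset

noncomputable section

open scoped Classical

section SM

variable {α F : Type*} [PartialOrder α] [CommRing F]

/-- reduction of the coefficients -/
def red (F : Type*) [CommRing F] : (Finset α →₀ ℤ) →+ (Finset α →₀ F) :=
  Finsupp.mapRange.addMonoidHom (Int.castAddHom F)

omit [PartialOrder α] in
lemma red_apply (z : Finset α →₀ ℤ) (σ : Finset α) : red F z σ = ((z σ : ℤ) : F) := rfl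

omit [PartialOrder α] in
lemma red_E (σ : Finset α) : red F (E σ) = Finsupp.single σ 1 := by
  unfold red E
  simp

omit [PartialOrder α] in
lemma red_smul (n : ℤ) (z : Finset α →₀ ℤ) : red F (n • z) = (n : F) • red F z := by
  ext σ
  rw [red_apply, Finsupp.smul_apply, Finsupp.smul_apply, red_apply, smul_eq_mul, smul_eq_mul,
    Int.cast_mul]

/-- the boundary with coefficients in `F` -/
def bF (F : Type*) [CommRing F] : (Finset α →₀ F) →ₗ[F] (Finset α →₀ F) :=
  Finsupp.lsum F fun σ : Finset α =>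
    ∑ x ∈ σ, ((sg σ x : ℤ) : F) • Finsupp.lsingle (σ.erase x)

lemma bF_single (σ : Finset α) :
    bF F (Finsupp.single σ (1 : F)) = ∑ x ∈ σ, ((sg σ x : ℤ) : F) • Finsupp.single (σ.erase x) 1 := by
  unfold bF
  rw [Finsupp.lsum_single, LinearMap.sum_apply]
  rfl

lemma bF_red (z : Finset α →₀ ℤ) : bF F (red F z) = red F (boundary z) := by
  induction z using Finsupp.induction_linear with
  | zero => simp
  | add a b ha hb => rw [map_add, map_add, map_add, map_add, ha, hb]
  | single σ c =>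
    have h1 : Finsupp.single σ c = c • E σ := by
      unfold E; rw [Finsupp.smul_single, smul_eq_mul, mul_one]
    rw [h1, red_smul, map_smul, map_smul, red_smul, red_E, bF_single, boundary_E, map_sum]
    congr 1
    apply Finset.sum_congr rfl
    intro x _
    rw [red_smul, red_E]

lemma TT_red (e : α → α) (z : Finset α →₀ ℤ) :
    TT F (Finset.image e) (red F z) = red F (push e z) := by
  induction z using Finsupp.induction_linear with
  | zero => simp
  | add a b ha hb => rw [map_add, map_add, map_add, map_add, ha, hb]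
  | single σ c =>
    have h1 : Finsupp.single σ c = c • E σ := by
      unfold E; rw [Finsupp.smul_single, smul_eq_mul, mul_one]
    rw [h1, red_smul, map_smul, map_smul, red_smul, red_E, TT_single, push_E, red_E]

/-- the faces with `k` elements -/
def Fk (P : Set α) (k : ℕ) : Set (Finset α) := {σ | IsFace P σ ∧ σ.card = k}

/-- two linear maps which agree on the faces -/
lemma mo_eq {s : Set (Finset α)} {V : Type*} [AddCommGroup V] [Module F V]
    (f g : (Finset α →₀ F) →ₗ[F] V)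
    (h : ∀ σ ∈ s, f (Finsupp.single σ 1) = g (Finsupp.single σ 1)) : ∀ v ∈ Mo F s, f v = g v := by
  intro v hv
  have h1 : Mo F s ≤ LinearMap.ker (f - g) := by
    apply mo_le
    intro x hx
    rw [LinearMap.mem_ker, LinearMap.sub_apply, h x hx, sub_self]
  have h2 := h1 hv
  rw [LinearMap.mem_ker, LinearMap.sub_apply, sub_eq_zero] at h2
  exact h2

lemma bF_mem {P : Set α} {k : ℕ} {v : Finset α →₀ F} (hv : v ∈ Mo F (Fk P (k + 1))) :
    bF F v ∈ Mo F (Fk P k) := by
  have h1 : Mo F (Fk P (k + 1)) ≤ (Mo F (Fk P k)).comap (bF F) := by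
    apply mo_le
    rintro σ ⟨hσ, hc⟩
    rw [Submodule.mem_comap, bF_single]
    refine Submodule.sum_mem _ fun x hx => Submodule.smul_mem _ _
      (Finsupp.single_mem_supported F 1 ⟨hσ.erase x, ?_⟩)
    rw [Finset.card_erase_of_mem hx, hc]; rfl
  exact h1 hv

lemma bF_zero {P : Set α} {v : Finset α →₀ F} (hv : v ∈ Mo F (Fk P 0)) : bF F v = 0 := by
  refine mo_eq (bF F) 0 ?_ v hv
  rintro σ ⟨_, hc⟩
  rw [Finset.card_eq_zero.mp hc, bF_single]
  simp

lemma bF_bF {P : Set α} {k : ℕ} {v : Finset α →₀ F} (hv : v ∈ Mo F (Fk P k)) :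
    bF F (bF F v) = 0 := by
  refine mo_eq (bF F ∘ₗ bF F) 0 ?_ v hv
  rintro σ ⟨hσ, _⟩
  rw [LinearMap.comp_apply, ← red_E, bF_red, bF_red, boundary_boundary (E_mem hσ), map_zero]
  rfl

lemma bF_T {P : Set α} {k : ℕ} {e : α → α} (he : EmbOn e P P) {v : Finset α →₀ F}
    (hv : v ∈ Mo F (Fk P k)) : bF F (TT F (Finset.image e) v) = TT F (Finset.image e) (bF F v) := by
  refine mo_eq (bF F ∘ₗ TT F (Finset.image e)) (TT F (Finset.image e) ∘ₗ bF F) ?_ v hv
  rintro σ ⟨hσ, _⟩
  rw [LinearMap.comp_apply, LinearMap.comp_apply, ← red_E, TT_red, bF_red, bF_red, TT_red,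
    boundary_push he (E_mem hσ)]

/-- acyclic over `F` -/
def AcF (F : Type*) [CommRing F] (P : Set α) : Prop :=
  ∀ k, ∀ z ∈ Mo F (Fk P k), bF F z = 0 → ∃ w ∈ Mo F (Fk P (k + 1)), bF F w = z

/-- an order automorphism of prime period -/
structure Per (p : ℕ) (e : α → α) (P : Set α) : Prop where
  inj : Function.Injective e
  emb : EmbOn e P P
  per : ∀ x ∈ P, e^[p] x = x
  rig : ∀ x ∈ P, (x ≤ e x ∨ e x ≤ x) → e x = x

lemma Per.pset {p : ℕ} {e : α → α} {P : Set α} (h : Per p e P) (k : ℕ) :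
    Pset p (Finset.image e) (Fk P k) := by
  refine ⟨Finset.image_injective h.inj, ?_, ?_⟩
  · rintro σ ⟨hσ, hc⟩
    refine ⟨⟨?_, ?_⟩, by rw [Finset.card_image_of_injective _ h.inj, hc]⟩
    · intro x hx
      obtain ⟨y, hy, rfl⟩ := Finset.mem_image.mp hx
      exact h.emb.maps y (hσ.1 y hy)
    · intro x hx y hy
      obtain ⟨x', hx', rfl⟩ := Finset.mem_image.mp hx
      obtain ⟨y', hy', rfl⟩ := Finset.mem_image.mp hy
      rw [h.emb.le_iff _ (hσ.1 _ hx') _ (hσ.1 _ hy'), h.emb.le_iff _ (hσ.1 _ hy') _ (hσ.1 _ hx')]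
      exact hσ.2 x' hx' y' hy'
  · rintro σ ⟨hσ, _⟩
    have h1 : ∀ (i : ℕ) (τ : Finset α), (Finset.image e)^[i] τ = τ.image (e^[i]) := by
      intro i
      induction i with
      | zero => intro τ; simp
      | succ i ih =>
        intro τ
        rw [Function.iterate_succ_apply, ih, Finset.image_image]
        rfl
    rw [h1]
    have h2 : Finset.image (e^[p]) σ = Finset.image id σ :=
      Finset.image_congr (fun x hx => h.per x (hσ.1 x hx))
    rw [h2, Finset.image_id]

lemma Per.fix {p : ℕ} {e : α → α} {P : Set α} (h : Per p e P) {σ : Finset α} (hσ : IsFace P σ)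
    (hi : σ.image e = σ) : ∀ x ∈ σ, e x = x := by
  intro x hx
  have h1 : e x ∈ σ := by rw [← hi]; exact Finset.mem_image_of_mem e hx
  exact h.rig x (hσ.1 x hx) (hσ.2 x hx _ h1)

lemma Per.fx_eq {p : ℕ} {e : α → α} {P : Set α} (h : Per p e P) (k : ℕ) :
    fx (Finset.image e) (Fk P k) = Fk {x | x ∈ P ∧ e x = x} k := by
  ext σ
  constructor
  · rintro ⟨⟨hσ, hc⟩, hi⟩
    exact ⟨⟨fun x hx => ⟨hσ.1 x hx, h.fix hσ hi x hx⟩, hσ.2⟩, hc⟩
  · rintro ⟨⟨h1, h2⟩, hc⟩
    refine ⟨⟨⟨fun x hx => (h1 x hx).1, h2⟩, hc⟩, ?_⟩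
    have h3 : Finset.image e σ = Finset.image id σ :=
      Finset.image_congr (fun x hx => (h1 x hx).2)
    rw [h3, Finset.image_id]

/-- Smith's theorem for a map of prime period -/
theorem smith {p : ℕ} (hpp : p.Prime) (hpF : (p : F) = 0) {e : α → α} {P : Set α}
    (hfin : P.Finite) (h : Per p e P) (hac : AcF F P) : AcF F {x | x ∈ P ∧ e x = x} := by
  set ε : Finset α → Finset α := Finset.image e with hε
  have hP := fun k => h.pset k
  -- commutation
  have cT : ∀ k, ∀ v ∈ Mo F (Fk P k), bF F (TT F ε v) = TT F ε (bF F v) :=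
    fun k v hv => bF_T h.emb hv
  have cTi : ∀ k, ∀ v ∈ Mo F (Fk P k), ∀ i, bF F (TT F (ε^[i]) v) = TT F (ε^[i]) (bF F v) := by
    intro k v hv i
    induction i with
    | zero => rw [Function.iterate_zero, TT_id, TT_id]
    | succ i ih =>
      rw [Function.iterate_succ', ← TT_TT, ← TT_TT, cT k _ (TT_mem ((hP k).it i) hv), ih]
  have cτ : ∀ k, ∀ v ∈ Mo F (Fk P k), bF F (tau F ε v) = tau F ε (bF F v) := by
    intro k v hv
    rw [tau_apply, tau_apply, map_sub, cT k v hv]
  have cN : ∀ k, ∀ v ∈ Mo F (Fk P k), bF F (nrm F p ε v) = nrm F p ε (bF F v) := by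
    intro k v hv
    rw [nrm_apply, nrm_apply, map_sum]
    exact Finset.sum_congr rfl fun i _ => cTi k v hv i
  have cf : ∀ k, ∀ v ∈ Mo F (fx ε (Fk P (k + 1))), bF F v ∈ Mo F (fx ε (Fk P k)) := by
    intro k v hv
    rw [hε, h.fx_eq] at hv ⊢
    exact bF_mem hv
  have cf0 : ∀ v ∈ Mo F (fx ε (Fk P 0)), bF F v = 0 := by
    intro v hv
    rw [hε, h.fx_eq] at hv
    exact bF_zero hv
  have hsub : ∀ k, Mo F (fx ε (Fk P k)) ≤ Mo F (Fk P k) := fun k =>
    Finsupp.supported_mono fun x hx => hx.1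
  -- bounded dimension
  obtain ⟨K, hK⟩ : ∃ K, ∀ k, K ≤ k → Fk P k = ∅ := by
    refine ⟨hfin.toFinset.card + 1, ?_⟩
    intro k hk
    rw [Set.eq_empty_iff_forall_notMem]
    rintro σ ⟨hσ, hc⟩
    have := Finset.card_le_card (show σ ⊆ hfin.toFinset from
      fun x hx => hfin.mem_toFinset.mpr (hσ.1 x hx))
    omega
  have hbot : ∀ k, K ≤ k → ∀ v ∈ Mo F (Fk P k), v = 0 := by
    intro k hk v hv
    rw [hK k hk, Mo, Finsupp.supported_empty, Submodule.mem_bot] at hv
    exact hv
  -- a decomposition of the boundary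
  have key : ∀ (m k : ℕ), K ≤ k + m →
      (∀ v ∈ Mo F (Fk P k), bF F (nrm F p ε v) = 0 →
        ∃ v' ∈ Mo F (Fk P (k + 1)), bF F (nrm F p ε v') = nrm F p ε v) ∧
      (∀ v ∈ Mo F (Fk P k), bF F (tau F ε v) = 0 →
        ∃ v' ∈ Mo F (Fk P (k + 1)), bF F (tau F ε v') = tau F ε v) ∧
      (∀ f ∈ Mo F (fx ε (Fk P k)), bF F f = 0 →
        ∃ f' ∈ Mo F (fx ε (Fk P (k + 1))), bF F f' = f) := by
    intro m
    induction m with
    | zero =>
      intro k hk
      refine ⟨?_, ?_, ?_⟩
      · intro v hv _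
        rw [hbot k (by omega) v hv]
        exact ⟨0, Submodule.zero_mem _, by simp⟩
      · intro v hv _
        rw [hbot k (by omega) v hv]
        exact ⟨0, Submodule.zero_mem _, by simp⟩
      · intro f hf _
        rw [hbot k (by omega) f (hsub k hf)]
        exact ⟨0, Submodule.zero_mem _, by simp⟩
    | succ m ih =>
      intro k hk
      obtain ⟨ihA, ihB, _⟩ := ih (k + 1) (by omega)
      -- for a `tau`-closed cycle
      have stepτ : ∀ z ∈ Mo F (Fk P k), tau F ε z = 0 → bF F z = 0 →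
          ∃ a ∈ Mo F (Fk P (k + 1)), ∃ f ∈ Mo F (fx ε (Fk P (k + 1))),
            z = bF F (nrm F p ε a) + bF F f := by
        intro z hz hτ hb
        obtain ⟨w, hw, hwz⟩ := hac k z hz hb
        have h1 : bF F (tau F ε w) = 0 := by rw [cτ _ w hw, hwz, hτ]
        obtain ⟨v', hv', hv1⟩ := ihB w hw h1
        have hbv : bF F v' ∈ Mo F (Fk P (k + 1)) := bF_mem hv'
        have h2 : tau F ε (w - bF F v') = 0 := by
          rw [map_sub, ← cτ _ v' hv', hv1, sub_self]
        obtain ⟨a, ha, f, hf, haf⟩ := ker_tau hpp (hP (k + 1)) _ (w - bF F v') rfl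
          (Submodule.sub_mem _ hw hbv) h2
        refine ⟨a, ha, f, hf, ?_⟩
        rw [← map_add, ← haf, map_sub, bF_bF hv', sub_zero, hwz]
      have stepN : ∀ z ∈ Mo F (Fk P k), nrm F p ε z = 0 → bF F z = 0 →
          ∃ a ∈ Mo F (Fk P (k + 1)), ∃ f ∈ Mo F (fx ε (Fk P (k + 1))),
            z = bF F (tau F ε a) + bF F f := by
        intro z hz hτ hb
        obtain ⟨w, hw, hwz⟩ := hac k z hz hb
        have h1 : bF F (nrm F p ε w) = 0 := by rw [cN _ w hw, hwz, hτ]
        obtain ⟨v', hv', hv1⟩ := ihA w hw h1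
        have hbv : bF F v' ∈ Mo F (Fk P (k + 1)) := bF_mem hv'
        have h2 : nrm F p ε (w - bF F v') = 0 := by
          rw [map_sub, ← cN _ v' hv', hv1, sub_self]
        obtain ⟨a, ha, f, hf, haf⟩ := ker_nrm hpp (hP (k + 1)) _ (w - bF F v') rfl
          (Submodule.sub_mem _ hw hbv) h2
        refine ⟨a, ha, f, hf, ?_⟩
        rw [← map_add, ← haf, map_sub, bF_bF hv', sub_zero, hwz]
      refine ⟨?_, ?_, ?_⟩
      · intro v hv hb
        obtain ⟨a, ha, f, hf, haf⟩ := stepτ _ (nrm_mem (hP k) hv) (tau_nrm (hP k) hv) hb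
        refine ⟨a, ha, ?_⟩
        have h1 : nrm F p ε (v - bF F a) = bF F f := by
          rw [map_sub, haf, cN _ a ha]; abel
        have h2 := nrm_inter hpF (hP k) (v := v - bF F a) (by rw [h1]; exact cf k f hf)
        rw [map_sub, sub_eq_zero, ← cN _ a ha] at h2
        exact h2.symm
      · intro v hv hb
        obtain ⟨a, ha, f, hf, haf⟩ := stepN _ (tau_mem (hP k) hv) (nrm_tau (hP k) hv) hb
        refine ⟨a, ha, ?_⟩
        have h1 : tau F ε (v - bF F a) = bF F f := by
          rw [map_sub, haf, cτ _ a ha]; abel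
        have h2 := tau_inter (hP k) (v := v - bF F a) (by rw [h1]; exact cf k f hf)
        rw [map_sub, sub_eq_zero, ← cτ _ a ha] at h2
        exact h2.symm
      · intro f hf hb
        obtain ⟨a, ha, f', hf', haf⟩ := stepτ f (hsub k hf) (tau_fx hf) hb
        refine ⟨f', hf', ?_⟩
        have h1 : nrm F p ε (bF F a) = f - bF F f' := by
          rw [← cN _ a ha, haf]; abel
        have h2 := nrm_inter hpF (hP k) (v := bF F a) (by
          rw [h1]; exact Submodule.sub_mem _ hf (cf k f' hf'))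
        rw [h1, sub_eq_zero] at h2
        exact h2.symm
  intro k z hz hb
  rw [← h.fx_eq k] at hz
  obtain ⟨f', hf', hff⟩ := (key K k (by omega)).2.2 z hz hb
  rw [hε, h.fx_eq] at hf'
  exact ⟨f', hf', hff⟩

end SM

end

end Pool.SubrackLattice
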